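import Pool.Agent.CwTw.StrongPair

set_option autoImplicit false

/-!
# Permutation graphs of bounded cochromatic number have laminar partitions
-/

namespace Pool.Agent.CwTw

/-- `p` and `q` (two injective functions, that is, two linear orders) represent `G` as a
permutation graph: two vertices are adjacent when the two orders disagree on them. -/
def PermRep {V : Type} (G : SimpleGraph V) (p q : V → ℕ) : Prop :=
  Function.Injective p ∧ Function.Injective q ∧
    ∀ x y, G.Adj x y ↔ (p x < p y ∧ q y < q x) ∨ (p y < p x ∧ q x < q y)

/-- A permutation graph whose vertex set is a union of `k` cliques and independent sets has a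
laminar partition, with a number of classes which depends only on `k`. -/
theorem lamPart_of_perm (k : ℕ) : ∃ N : ℕ, ∀ (V : Type) [Finite V] (G : SimpleGraph V)
    (p q : V → ℕ) (t : ℕ) (col : V → Fin k), PermRep G p q →
    (∀ a, (∀ x y, col x = a → col y = a → x ≠ y → G.Adj x y) ∨
      (∀ x y, col x = a → col y = a → ¬ G.Adj x y)) → LamPart G N t := by
  classical
  obtain ⟨N, hN⟩ := lamPart_of_pairs k (Fin 3 × Fin 3)
  refine ⟨N, ?_⟩
  intro V _ G p q t col ⟨hp, hq, hG⟩ hcol
  -- the type of a class
  let ty : Fin k → Prop := fun a => ¬ ∀ x y, col x = a → col y = a → ¬ G.Adj x y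
  have hcl : ∀ a, ty a → ∀ x y, col x = a → col y = a → x ≠ y → G.Adj x y := fun a ha =>
    (hcol a).resolve_right ha
  have hin : ∀ a, ¬ ty a → ∀ x y, col x = a → col y = a → ¬ G.Adj x y := fun a ha =>
    not_not.mp ha
  let f : Fin k → Fin k → Prop := fun a b => ty a ∨ ty b
  refine hN V G t col f (fun a b h => h.symm) ?_
  intro a b
  let L : LinearOrder V := LinearOrder.lift' p hp
  have hlt : ∀ x y : V, x < y ↔ p x < p y := fun x y => Iff.rfl
  have hpe : ∀ {x y : V}, p x = p y → x = y := fun h => hp h
  have hqe : ∀ {x y : V}, q x = q y → x = y := fun h => hq h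
  have hR : ∀ x y, col x = a → col y = b → (FRel G col f x y ↔ x = y ∨
      Xor (G.Adj x y) (ty a ∨ ty b)) := by
    intro x y hx hy
    unfold FRel
    rw [hx, hy]
  have hnadj : ∀ x y : V, ¬ G.Adj x y ↔ x = y ∨ (p x < p y ∧ q x < q y) ∨
      (p y < p x ∧ q y < q x) := by
    intro x y
    rw [hG]
    constructor
    · intro h
      by_cases hxy : x = y
      · exact Or.inl hxy
      · have h1 : p x ≠ p y := fun h => hxy (hpe h)
        have h2 : q x ≠ q y := fun h => hxy (hqe h)
        right
        omega
    · rintro (rfl | h) <;> omega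
  by_cases ha : ty a
  · by_cases hb : ty b
    · -- two cliques
      refine pairLam_of_strong (FRel G col f) _ _ ?_
      intro x x' y y' ux ux' wy wy' h1 h2 r1 r2
      rw [hlt] at h1 h2
      have hxx : x ≠ x' := fun h => by rw [h] at h1; omega
      have hyy : y ≠ y' := fun h => by rw [h] at h2; omega
      have a1 := (hG x x').1 (hcl a ha x x' ux ux' hxx)
      have a2 := (hG y y').1 (hcl b hb y y' wy wy' hyy)
      have hR' : ∀ x y, col x = a → col y = b → (FRel G col f x y ↔ x = y ∨
          (p x < p y ∧ q x < q y) ∨ (p y < p x ∧ q y < q x)) := by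
        intro x y hx hy
        rw [hR x y hx hy, ← hnadj]
        constructor
        · rintro (rfl | h)
          · exact G.loopless.irrefl x
          · rcases h with ⟨_, h⟩ | ⟨_, h⟩
            · exact absurd (Or.inl ha) h
            · exact h
        · intro h
          exact Or.inr (Or.inr ⟨Or.inl ha, h⟩)
      rw [hR' x y' ux wy'] at r1
      rw [hR' x' y ux' wy] at r2
      rw [hR' x y ux wy, hR' x' y' ux' wy']
      rcases r1 with rfl | r1
      · rcases r2 with rfl | r2
        · omega
        · omega
      · rcases r2 with rfl | r2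
        · omega
        · constructor <;> right <;> omega
    · -- clique and independent set
      have hR' : ∀ x y, col x = a → col y = b → (FRel G col f x y ↔
          (p x < p y ∧ q x < q y) ∨ (p y < p x ∧ q y < q x)) := by
        intro x y hx hy
        have hxy : x ≠ y := fun h => by
          rw [h, hy] at hx
          exact hb (hx ▸ ha)
        rw [hR x y hx hy]
        constructor
        · rintro (h | h)
          · exact absurd h hxy
          · rcases h with ⟨_, h⟩ | ⟨_, h⟩
            · exact absurd (Or.inl ha) h
            · exact ((hnadj x y).1 h).resolve_left hxy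
        · intro h
          exact Or.inr (Or.inr ⟨Or.inl ha, (hnadj x y).2 (Or.inr h)⟩)
      refine ⟨fun v => if ∃ x, col x = a ∧ p x < p v ∧ q x < q v then (0, 0) else (1, 0), ?_⟩
      intro x x' y z w ux ux' wy wz ww gx gz gw r1 r2 r3 r4 r5
      rw [hR' x y ux wy] at r1
      rw [hR' x' y ux' wy] at r2
      rw [hR' x z ux wz] at r3
      rw [hR' x' z ux' wz] at r4
      rw [hR' x' w ux' ww] at r5
      rw [hR' x w ux ww]
      have hst : ∀ v, (∃ x, col x = a ∧ p x < p v ∧ q x < q v) → ∀ u, col u = a →
          ¬ (p v < p u ∧ q v < q u) := by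
        rintro v ⟨u', hu', h1, h2⟩ u hu ⟨h3, h4⟩
        have hne : u' ≠ u := fun h => by rw [h] at h1; omega
        have := (hG u' u).1 (hcl a ha u' u hu' hu hne)
        omega
      have b1 := (hnadj z w).1 (hin b hb z w wz ww)
      by_cases hy : ∃ x, col x = a ∧ p x < p y ∧ q x < q y
      · have hz : ∃ x, col x = a ∧ p x < p z ∧ q x < q z := by
          by_contra hcon
          simp only [if_pos hy, if_neg hcon] at gz
          exact absurd (congrArg Prod.fst gz) (by decide)
        have hw : ∃ x, col x = a ∧ p x < p w ∧ q x < q w := by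
          by_contra hcon
          simp only [if_pos hy, if_neg hcon] at gw
          exact absurd (congrArg Prod.fst gw) (by decide)
        have c1 := hst z hz x ux
        have c2 := hst z hz x' ux'
        have c3 := hst w hw x ux
        have c4 := hst w hw x' ux'
        rcases b1 with rfl | b1 <;> omega
      · have hz : ¬ ∃ x, col x = a ∧ p x < p z ∧ q x < q z := by
          intro hcon
          simp only [if_neg hy, if_pos hcon] at gz
          exact absurd (congrArg Prod.fst gz) (by decide)
        have hw : ¬ ∃ x, col x = a ∧ p x < p w ∧ q x < q w := by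
          intro hcon
          simp only [if_neg hy, if_pos hcon] at gw
          exact absurd (congrArg Prod.fst gw) (by decide)
        have c1 : ¬ (p x < p z ∧ q x < q z) := fun h => hz ⟨x, ux, h⟩
        have c2 : ¬ (p x' < p z ∧ q x' < q z) := fun h => hz ⟨x', ux', h⟩
        have c3 : ¬ (p x < p w ∧ q x < q w) := fun h => hw ⟨x, ux, h⟩
        have c4 : ¬ (p x' < p w ∧ q x' < q w) := fun h => hw ⟨x', ux', h⟩
        rcases b1 with rfl | b1 <;> omega
  · by_cases hb : ty b
    · -- independent set and clique
      have hR' : ∀ x y, col x = a → col y = b → (FRel G col f x y ↔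
          (p x < p y ∧ q x < q y) ∨ (p y < p x ∧ q y < q x)) := by
        intro x y hx hy
        have hxy : x ≠ y := fun h => by
          rw [h, hy] at hx
          exact ha (hx ▸ hb)
        rw [hR x y hx hy]
        constructor
        · rintro (h | h)
          · exact absurd h hxy
          · rcases h with ⟨_, h⟩ | ⟨_, h⟩
            · exact absurd (Or.inr hb) h
            · exact ((hnadj x y).1 h).resolve_left hxy
        · intro h
          exact Or.inr (Or.inr ⟨Or.inr hb, (hnadj x y).2 (Or.inr h)⟩)
      refine ⟨fun v => if ∃ y, col y = b ∧ p y < p v ∧ q y < q v then (0, 0) else (1, 0), ?_⟩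
      intro x x' y z w ux ux' wy wz ww gx gz gw r1 r2 r3 r4 r5
      rw [hR' x y ux wy] at r1
      rw [hR' x' y ux' wy] at r2
      rw [hR' x z ux wz] at r3
      rw [hR' x' z ux' wz] at r4
      rw [hR' x' w ux' ww] at r5
      rw [hR' x w ux ww]
      have hst : ∀ v, (∃ y, col y = b ∧ p y < p v ∧ q y < q v) → ∀ u, col u = b →
          ¬ (p v < p u ∧ q v < q u) := by
        rintro v ⟨u', hu', h1, h2⟩ u hu ⟨h3, h4⟩
        have hne : u' ≠ u := fun h => by rw [h] at h1; omega
        have := (hG u' u).1 (hcl b hb u' u hu' hu hne)
        omega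
      have b1 := (hnadj x x').1 (hin a ha x x' ux ux')
      by_cases hx : ∃ y, col y = b ∧ p y < p x ∧ q y < q x
      · have hx' : ∃ y, col y = b ∧ p y < p x' ∧ q y < q x' := by
          by_contra hcon
          simp only [if_pos hx, if_neg hcon] at gx
          exact absurd (congrArg Prod.fst gx) (by decide)
        have c1 := hst x hx z wz
        have c2 := hst x' hx' z wz
        have c3 := hst x hx w ww
        have c4 := hst x' hx' w ww
        rcases b1 with rfl | b1 <;> omega
      · have hx' : ¬ ∃ y, col y = b ∧ p y < p x' ∧ q y < q x' := by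
          intro hcon
          simp only [if_neg hx, if_pos hcon] at gx
          exact absurd (congrArg Prod.fst gx) (by decide)
        have c1 : ¬ (p z < p x ∧ q z < q x) := fun h => hx ⟨z, wz, h⟩
        have c2 : ¬ (p z < p x' ∧ q z < q x') := fun h => hx' ⟨z, wz, h⟩
        have c3 : ¬ (p w < p x ∧ q w < q x) := fun h => hx ⟨w, ww, h⟩
        have c4 : ¬ (p w < p x' ∧ q w < q x') := fun h => hx' ⟨w, ww, h⟩
        rcases b1 with rfl | b1 <;> omega
    · -- two independent sets
      refine pairLam_of_strong (FRel G col f) _ _ ?_
      intro x x' y y' ux ux' wy wy' h1 h2 r1 r2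
      rw [hlt] at h1 h2
      have a1 := (hnadj x x').1 (hin a ha x x' ux ux')
      have a2 := (hnadj y y').1 (hin b hb y y' wy wy')
      have hxx : x ≠ x' := fun h => by rw [h] at h1; omega
      have hyy : y ≠ y' := fun h => by rw [h] at h2; omega
      have a1' := a1.resolve_left hxx
      have a2' := a2.resolve_left hyy
      have hR' : ∀ x y, col x = a → col y = b → (FRel G col f x y ↔ x = y ∨
          (p x < p y ∧ q y < q x) ∨ (p y < p x ∧ q x < q y)) := by
        intro x y hx hy
        rw [hR x y hx hy, ← hG]
        constructor
        · rintro (rfl | h)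
          · exact Or.inl rfl
          · rcases h with ⟨h, _⟩ | ⟨h, _⟩
            · exact Or.inr h
            · exact absurd h (by rintro (h | h); exacts [ha h, hb h])
        · rintro (rfl | h)
          · exact Or.inl rfl
          · exact Or.inr (Or.inl ⟨h, by rintro (h | h); exacts [ha h, hb h]⟩)
      rw [hR' x y' ux wy'] at r1
      rw [hR' x' y ux' wy] at r2
      rw [hR' x y ux wy, hR' x' y' ux' wy']
      rcases r1 with rfl | r1
      · rcases r2 with rfl | r2
        · omega
        · omega
      · rcases r2 with rfl | r2
        · omega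
        · constructor <;> right <;> omega

end Pool.Agent.CwTw
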