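import Mathlib

set_option autoImplicit false

/-!
# First-order transductions, cliquewidth, treewidth and laminar partitions

Graphs are finite and simple; a class of graphs is given by its members on the vertex sets
`Fin n`.
-/

namespace Pool.Agent.CwTw

open FirstOrder FirstOrder.Language

/-! ### First-order transductions -/

/-- The relation symbols: adjacency, being copies of the same vertex, and `c` colours. -/
inductive GRel (c : ℕ) : ℕ → Type
  | adj : GRel c 2
  | copy : GRel c 2
  | col (i : Fin c) : GRel c 1

/-- The first-order language of graphs with copies and `c` colours. -/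
def gLang (c : ℕ) : Language := ⟨fun _ => Empty, GRel c⟩

/-- The structure consisting of `k` disjoint copies of the graph `G`, with the relation of being
copies of the same vertex, coloured by the `c` unary predicates `χ`. -/
@[instance_reducible] def gStr {V : Type} (G : SimpleGraph V) (k c : ℕ)
    (χ : Fin c → V × Fin k → Prop) : (gLang c).Structure (V × Fin k) where
  funMap := fun f => f.elim
  RelMap := fun {n} (r : GRel c n) => match n, r with
    | _, GRel.adj => fun x => G.Adj (x 0).1 (x 1).1 ∧ (x 0).2 = (x 1).2
    | _, GRel.copy => fun x => (x 0).1 = (x 1).1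
    | _, GRel.col i => fun x => χ i (x 0)

/-- A first-order transduction of graphs: the number of copies, the number of colours, a formula
defining the domain and a formula defining the edges. -/
structure Transduction where
  copies : ℕ
  colours : ℕ
  dom : (gLang colours).Formula (Fin 1)
  edge : (gLang colours).Formula (Fin 2)

/-- `T.Maps G H`: the graph `H` is (isomorphic to) one of the graphs which the transduction `T`
produces from `G`, that is, for some colouring of the copies of the vertices of `G`, it is an
induced subgraph of the graph with vertices the elements which satisfy `T.dom` and edges the pairs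
of distinct elements which satisfy `T.edge`. -/
def Transduction.Maps (T : Transduction) {V W : Type} (G : SimpleGraph V) (H : SimpleGraph W) :
    Prop :=
  ∃ χ : Fin T.colours → V × Fin T.copies → Prop, ∃ e : W → V × Fin T.copies,
    Function.Injective e ∧
    (∀ u, @Formula.Realize _ _ (gStr G T.copies T.colours χ) _ T.dom ![e u]) ∧
    (∀ u v, H.Adj u v ↔
      u ≠ v ∧ @Formula.Realize _ _ (gStr G T.copies T.colours χ) _ T.edge ![e u, e v])

/-- The relation defined by the formula `φ` in the graph `G` with the unary predicates `χ`
(without copies). -/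
def rel2 {V : Type} (G : SimpleGraph V) (c : ℕ) (χ : Fin c → V → Prop)
    (φ : (gLang c).Formula (Fin 2)) (x y : V) : Prop :=
  @Formula.Realize _ _ (gStr G 1 c fun i p => χ i p.1) _ φ ![(x, 0), (y, 0)]

/-! ### Classes of graphs -/

/-- A class of finite graphs (given by its members with vertex set `Fin n`). -/
abbrev GraphClass : Type := (n : ℕ) → Set (SimpleGraph (Fin n))

/-- The class is closed under isomorphism and induced subgraphs. -/
def Hereditary (C : GraphClass) : Prop :=
  ∀ n m (G : SimpleGraph (Fin n)) (H : SimpleGraph (Fin m)), G ∈ C n → Nonempty (H ↪g G) → H ∈ C m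

/-- No graph of the class contains `K_{s,s}` as a subgraph. -/
def KssFree (C : GraphClass) (s : ℕ) : Prop :=
  ∀ n, ∀ G ∈ C n, (completeBipartiteGraph (Fin s) (Fin s)).Free G

/-! ### Treewidth -/

/-- The graph `G` has a tree decomposition of width at most `w`. -/
def TwLE {V : Type} (G : SimpleGraph V) (w : ℕ) : Prop :=
  ∃ (n : ℕ) (T : SimpleGraph (Fin n)) (B : Fin n → Finset V), T.IsTree ∧
    (∀ v, ∃ i, v ∈ B i) ∧
    (∀ u v, G.Adj u v → ∃ i, u ∈ B i ∧ v ∈ B i) ∧
    (∀ v i j, v ∈ B i → v ∈ B j → ∃ p : T.Walk i j, ∀ x ∈ p.support, v ∈ B x) ∧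
    ∀ i, (B i).card ≤ w + 1

/-- The class has bounded treewidth. -/
def BddTw (C : GraphClass) : Prop := ∃ w, ∀ n, ∀ G ∈ C n, TwLE G w

/-! ### Cliquewidth -/

/-- `Cw L V G l`: the graph `G` with the labelling `l` by elements of `L` can be built by the
operations of cliquewidth: single vertices, disjoint unions, joining all vertices of label `i` to
all vertices of label `j` for `i ≠ j`, and changing the label `i` into `j`. -/
inductive Cw (L : Type) : (V : Type) → SimpleGraph V → (V → L) → Prop
  | single (i : L) : Cw L Unit ⊥ (fun _ => i)
  | union {V W : Type} {G : SimpleGraph V} {H : SimpleGraph W} {l : V → L} {m : W → L} :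
      Cw L V G l → Cw L W H m → Cw L (V ⊕ W) (G ⊕g H) (Sum.elim l m)
  | join {V : Type} {G : SimpleGraph V} {l : V → L} (i j : L) : i ≠ j → Cw L V G l →
      Cw L V (G ⊔ SimpleGraph.fromRel fun x y => l x = i ∧ l y = j) l
  | relabel {V : Type} {G : SimpleGraph V} {l l' : V → L} (i j : L) : Cw L V G l →
      (∀ v, l v = i → l' v = j) → (∀ v, l v ≠ i → l' v = l v) → Cw L V G l'
  | iso {V W : Type} {G : SimpleGraph V} {H : SimpleGraph W} {l : V → L} (e : G ≃g H) :
      Cw L V G l → Cw L W H (l ∘ e.symm)

/-- The graph `G` has cliquewidth at most `k`. -/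
def CwLE {V : Type} (G : SimpleGraph V) (k : ℕ) : Prop :=
  IsEmpty V ∨ ∃ l : V → Fin k, Cw (Fin k) V G l

/-- The class has bounded cliquewidth. -/
def BddCw (C : GraphClass) : Prop := ∃ k, ∀ n, ∀ G ∈ C n, CwLE G k

/-! ### Laminar relations -/

/-- The sets `{y | R x y}` are pairwise disjoint or nested. -/
def Laminar {V : Type} (R : V → V → Prop) : Prop :=
  ∀ x x' : V, (∀ y, R x y → ¬ R x' y) ∨ (∀ y, R x y → R x' y) ∨ (∀ y, R x' y → R x y)

/-- Adjacency of distinct vertices is determined by the predicates `χ`, the relations `R i` (in
both directions) and the relation `S` (in both directions). -/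
def Det {V : Type} (G : SimpleGraph V) {c m : ℕ} (χ : Fin c → V → Prop)
    (R : Fin m → V → V → Prop) (S : V → V → Prop) : Prop :=
  ∀ x x' y : V, x ≠ y → x' ≠ y → (∀ i, χ i x ↔ χ i x') → (∀ i, R i x y ↔ R i x' y) →
    (∀ i, R i y x ↔ R i y x') → (S x y ↔ S x' y) → (S y x ↔ S y x') → (G.Adj x y ↔ G.Adj x' y)

/-- `G` is generated by laminar relations defined by the formulas `lam i` and by the
`K_{t,t}`-free graph defined by the formula `sig`, for some interpretation of the `c` unary
predicates. -/
def LamGen {V : Type} (G : SimpleGraph V) {c m : ℕ} (t : ℕ)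
    (lam : Fin m → (gLang c).Formula (Fin 2)) (sig : (gLang c).Formula (Fin 2)) : Prop :=
  ∃ χ : Fin c → V → Prop, (∀ i, Laminar (rel2 G c χ (lam i))) ∧
    (completeBipartiteGraph (Fin t) (Fin t)).Free (SimpleGraph.fromRel (rel2 G c χ sig)) ∧
    Det G χ (fun i => rel2 G c χ (lam i)) (rel2 G c χ sig)

/-- The transduction `T` shows, with classes of `K_{s,s}`-free graphs, that the class `C` has a
weakly sparse class of unbounded treewidth below it, unless `C` has bounded cliquewidth. -/
def Dichotomy (T : Transduction) (s : ℕ) (C : GraphClass) : Prop :=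
  BddCw C ∨ ∃ D : GraphClass, Hereditary D ∧ KssFree D s ∧ ¬ BddTw D ∧
    ∀ n, ∀ H ∈ D n, ∃ n', ∃ G ∈ C n', T.Maps G H

/-! ### Laminar partitions -/

section
variable {V : Type} (G : SimpleGraph V) {k : ℕ} (col : V → Fin k) (f : Fin k → Fin k → Prop)

/-- Equality, or adjacency in the graph obtained from `G` by complementing the adjacency between
the (not necessarily distinct) colour classes `a` and `b` whenever `f a b` holds. -/
def FRel (x y : V) : Prop := x = y ∨ Xor (G.Adj x y) (f (col x) (col y))

/-- The neighbours of `x` in the colour class `b` (with respect to `FRel`). -/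
def nb (b : Fin k) (x : V) : Set V := {y | col y = b ∧ FRel G col f x y}

/-- The sets `nb b x`, for the vertices `x` of colour `a`, form a laminar family: any two of them
are disjoint or nested. -/
def LamPair (a b : Fin k) : Prop :=
  ∀ x x', col x = a → col x' = a → Disjoint (nb G col f b x) (nb G col f b x') ∨
    nb G col f b x ⊆ nb G col f b x' ∨ nb G col f b x' ⊆ nb G col f b x

/-- There is no `K_{t,t}` with one side in the colour class `a` and the other one in the colour
class `b` (after complementing). -/
def SpPair (t : ℕ) (a b : Fin k) : Prop :=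
  ¬ ∃ A B : Finset V, A.card = t ∧ B.card = t ∧ Disjoint A B ∧ (∀ x ∈ A, col x = a) ∧
    (∀ y ∈ B, col y = b) ∧ ∀ x ∈ A, ∀ y ∈ B, FRel G col f x y

end

/-- `G` has a laminar partition with parameters `k`, `t`: the vertices can be coloured by `k`
colours such that for any two (not necessarily distinct) colours `a`, `b`, after complementing
the adjacency between the two classes if necessary, the neighbourhoods in one of the classes of
the vertices of the other one form a laminar family, or there is no `K_{t,t}` between the two
classes. -/
def LamPart {V : Type} (G : SimpleGraph V) (k t : ℕ) : Prop :=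
  ∃ (col : V → Fin k) (f : Fin k → Fin k → Prop), (∀ a b, f a b → f b a) ∧
    ∀ a b, LamPair G col f a b ∨ LamPair G col f b a ∨ SpPair G col f t a b

end Pool.Agent.CwTw
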