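import Pool.Agent.CwTw.Expr

set_option autoImplicit false

/-!
# From tree decompositions to layouts
-/

namespace Pool.Agent.CwTw

open Finset Classical

/-- The outer boundary of `X` in the graph `S` has at most `w` vertices. -/
def Thin {V : Type} (S : SimpleGraph V) (w : ℕ) (X : Finset V) : Prop :=
  ∃ Z : Finset V, Z.card ≤ w ∧ ∀ x ∈ X, ∀ y, y ∉ X → S.Adj x y → y ∈ Z

section forest
variable {V : Type} [Fintype V] [PartialOrder V] {S : SimpleGraph V} {w : ℕ}
  (chain : ∀ a b c : V, a ≤ b → a ≤ c → b ≤ c ∨ c ≤ b)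
  (comp : ∀ x y : V, S.Adj x y → x ≤ y ∨ y ≤ x)
  (width : ∀ v : V, ∃ Z : Finset V, Z.card ≤ w ∧
    ∀ x y, x ≤ v → ¬ y ≤ v → S.Adj x y → y ∈ Z)

/-- the elements below `v` -/
noncomputable def dn (v : V) : Finset V := Finset.univ.filter (fun x => x ≤ v)

omit width in
include chain comp in
lemma lay_biUnion {P : Finset V → Prop} (K : Finset V)
    (hK : ∀ u ∈ K, ∀ u' ∈ K, u ≤ u' → u = u') (hlay : ∀ u ∈ K, Lay P (dn u))
    (hP : ∀ A ⊆ K, A.Nonempty → P (A.biUnion dn)) :
    ∀ A ⊆ K, A.Nonempty → Lay P (A.biUnion dn) := by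
  intro A
  induction A using Finset.induction_on with
  | empty => intro _ h; simp at h
  | insert u A hu ih =>
    intro hA _
    rcases A.eq_empty_or_nonempty with rfl | hne
    · have : (insert u (∅ : Finset V)).biUnion dn = dn u := by simp
      rw [this]
      exact hlay u (hA (Finset.mem_insert_self _ _))
    · have h1 := ih (fun x hx => hA (Finset.mem_insert_of_mem hx)) hne
      rw [Finset.biUnion_insert]
      refine Lay.union ?_ ?_ (hlay u (hA (Finset.mem_insert_self _ _))) h1
      · rw [Finset.disjoint_left]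
        intro x hx hx'
        obtain ⟨u', hu', hxu'⟩ := Finset.mem_biUnion.1 hx'
        have e1 : x ≤ u := by simpa [dn] using hx
        have e2 : x ≤ u' := by simpa [dn] using hxu'
        have hne' : u ≠ u' := fun h => hu (h ▸ hu')
        rcases chain x u u' e1 e2 with h | h
        · exact hne' (hK u (hA (Finset.mem_insert_self _ _)) u'
            (hA (Finset.mem_insert_of_mem hu')) h)
        · exact hne' (hK u' (hA (Finset.mem_insert_of_mem hu')) u
            (hA (Finset.mem_insert_self _ _)) h).symm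
      · rw [← Finset.biUnion_insert]
        exact hP _ hA (Finset.insert_nonempty _ _)

include chain comp width in
lemma lay_dn (v : V) : Lay (Thin S (w + 1)) (dn v) := by
  induction v using WellFoundedLT.induction with
  | ind v ih =>
    let K : Finset V := Finset.univ.filter fun u => u < v ∧ ∀ z, u < z → ¬ z < v
    have hKm : ∀ u, u ∈ K ↔ u < v ∧ ∀ z, u < z → ¬ z < v := by
      intro u; simp [K]
    have hKinc : ∀ u ∈ K, ∀ u' ∈ K, u ≤ u' → u = u' := by
      intro u hu u' hu' h
      by_contra hne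
      exact ((hKm u).1 hu).2 u' (lt_of_le_of_ne h hne) ((hKm u').1 hu').1
    obtain ⟨Z, hZ, hZ'⟩ := width v
    have hP : ∀ A ⊆ K, A.Nonempty → Thin S (w + 1) (A.biUnion dn) := by
      intro A hA _
      refine ⟨insert v Z, (Finset.card_insert_le _ _).trans (by omega), ?_⟩
      intro x hx y hy hadj
      obtain ⟨u, hu, hxu⟩ := Finset.mem_biUnion.1 hx
      have hxu' : x ≤ u := by simpa [dn] using hxu
      have huv := (hKm u).1 (hA hu)
      by_cases hyv : y ≤ v
      · rcases hyv.eq_or_lt with rfl | hlt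
        · exact Finset.mem_insert_self _ _
        · exfalso
          have hyu : ¬ y ≤ u := by
            intro h
            exact hy (Finset.mem_biUnion.2 ⟨u, hu, by simpa [dn] using h⟩)
          rcases comp x y hadj with h | h
          · rcases chain x u y hxu' h with h' | h'
            · rcases h'.eq_or_lt with rfl | h''
              · exact hyu le_rfl
              · exact huv.2 y h'' hlt
            · exact hyu h'
          · exact hyu (h.trans hxu')
      · exact Finset.mem_insert_of_mem (hZ' x y (hxu'.trans huv.1.le) hyv hadj)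
    have hPv : Thin S (w + 1) (dn v) := by
      refine ⟨Z, by omega, ?_⟩
      intro x hx y hy hadj
      exact hZ' x y (by simpa [dn] using hx) (by simpa [dn] using hy) hadj
    have hdec : dn v = K.biUnion dn ∪ {v} := by
      ext x
      rw [Finset.mem_union, Finset.mem_biUnion, Finset.mem_singleton]
      constructor
      · intro hx
        have hx' : x ≤ v := by simpa [dn] using hx
        rcases hx'.eq_or_lt with rfl | hlt
        · right; rfl
        · left
          obtain ⟨u, hu1, hu2⟩ := Finset.exists_le_maximal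
            (Finset.univ.filter fun u => x ≤ u ∧ u < v) (a := x) (by simp [hlt])
          have hu3 := hu2.1
          simp only [Finset.mem_filter, Finset.mem_univ, true_and] at hu3
          refine ⟨u, (hKm u).2 ⟨hu3.2, fun z hz hzv => ?_⟩, by simpa [dn] using hu1⟩
          have := hu2.2 (y := z) (by simp [hzv, hu1.trans hz.le]) hz.le
          exact absurd hz (not_lt_of_ge this)
      · rintro (⟨u, hu, hx⟩ | rfl)
        · have hxu : x ≤ u := by simpa [dn] using hx
          simpa [dn] using hxu.trans ((hKm u).1 hu).1.le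
        · simp [dn]
    rcases K.eq_empty_or_nonempty with hK | hK
    · rw [hdec, hK]
      simpa using Lay.single (P := Thin S (w + 1)) v
    · have h1 := lay_biUnion chain comp K hKinc (fun u hu => ih u ((hKm u).1 hu).1) hP K
        (Finset.Subset.refl _) hK
      rw [hdec]
      refine Lay.union ?_ ?_ h1 (Lay.single v)
      · rw [Finset.disjoint_singleton_right, Finset.mem_biUnion]
        rintro ⟨u, hu, hvu⟩
        have : v ≤ u := by simpa [dn] using hvu
        exact absurd ((hKm u).1 hu).1 (not_lt_of_ge this)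
      · rw [← hdec]; exact hPv

include chain comp width in
lemma lay_univ [Nonempty V] : Lay (Thin S (w + 1)) (Finset.univ : Finset V) := by
  let K : Finset V := Finset.univ.filter fun u => ∀ z, ¬ u < z
  have hKm : ∀ u, u ∈ K ↔ ∀ z, ¬ u < z := by
    intro u; simp [K]
  have hKinc : ∀ u ∈ K, ∀ u' ∈ K, u ≤ u' → u = u' := by
    intro u hu u' _ h
    by_contra hne
    exact (hKm u).1 hu u' (lt_of_le_of_ne h hne)
  have hP : ∀ A ⊆ K, A.Nonempty → Thin S (w + 1) (A.biUnion dn) := by
    intro A hA _
    refine ⟨∅, by simp, ?_⟩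
    intro x hx y hy hadj
    exfalso
    obtain ⟨u, hu, hxu⟩ := Finset.mem_biUnion.1 hx
    have hxu' : x ≤ u := by simpa [dn] using hxu
    have hyu : ¬ y ≤ u := by
      intro h
      exact hy (Finset.mem_biUnion.2 ⟨u, hu, by simpa [dn] using h⟩)
    rcases comp x y hadj with h | h
    · rcases chain x u y hxu' h with h' | h'
      · rcases h'.eq_or_lt with rfl | h''
        · exact hyu le_rfl
        · exact (hKm u).1 (hA hu) y h''
      · exact hyu h'
    · exact hyu (h.trans hxu')
  have hdec : (Finset.univ : Finset V) = K.biUnion dn := by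
    ext x
    simp only [Finset.mem_univ, Finset.mem_biUnion, true_iff]
    obtain ⟨u, hu1, hu2⟩ := Finset.exists_le_maximal (Finset.univ : Finset V) (Finset.mem_univ x)
    refine ⟨u, (hKm u).2 fun z hz => ?_, by simpa [dn] using hu1⟩
    exact absurd hz (not_lt_of_ge (hu2.2 (Finset.mem_univ z) hz.le))
  have hK : K.Nonempty := by
    obtain ⟨x⟩ := ‹Nonempty V›
    have : x ∈ K.biUnion dn := hdec ▸ Finset.mem_univ x
    obtain ⟨u, hu, _⟩ := Finset.mem_biUnion.1 this
    exact ⟨u, hu⟩
  rw [hdec]
  exact lay_biUnion chain comp K hKinc (fun u _ => lay_dn chain comp width u) hP K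
    (Finset.Subset.refl _) hK

end forest

/-! ### Rooted trees -/

section tree
variable {n : ℕ} {S : SimpleGraph (Fin n)}

/-- the unique path from the root -/
noncomputable def pth (hS : S.IsTree) (ρ b : Fin n) : S.Walk ρ b :=
  (hS.existsUnique_path ρ b).choose

theorem pth_isPath (hS : S.IsTree) (ρ b : Fin n) : (pth hS ρ b).IsPath :=
  (hS.existsUnique_path ρ b).choose_spec.1

theorem pth_unique (hS : S.IsTree) {ρ b : Fin n} (p : S.Walk ρ b) (hp : p.IsPath) :
    p = pth hS ρ b :=
  (hS.existsUnique_path ρ b).unique hp (pth_isPath hS ρ b)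

theorem pth_takeUntil (hS : S.IsTree) {ρ a b : Fin n} (h : a ∈ (pth hS ρ b).support) :
    (pth hS ρ b).takeUntil a h = pth hS ρ a :=
  pth_unique hS _ ((pth_isPath hS ρ b).takeUntil h)

theorem pth_support_subset (hS : S.IsTree) {ρ a b : Fin n} (h : a ∈ (pth hS ρ b).support) :
    (pth hS ρ a).support ⊆ (pth hS ρ b).support := by
  rw [← pth_takeUntil hS h]
  exact SimpleGraph.Walk.support_takeUntil_subset_support _ h

theorem pth_length_lt (hS : S.IsTree) {ρ a b : Fin n} (h : a ∈ (pth hS ρ b).support)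
    (hne : a ≠ b) : (pth hS ρ a).length < (pth hS ρ b).length := by
  rw [← pth_takeUntil hS h]
  exact SimpleGraph.Walk.length_takeUntil_lt_length h hne

/-- `a` is an ancestor of `b` -/
def Anc (hS : S.IsTree) (ρ a b : Fin n) : Prop := a ∈ (pth hS ρ b).support

lemma Anc.refl (hS : S.IsTree) (ρ a : Fin n) : Anc hS ρ a a :=
  SimpleGraph.Walk.end_mem_support _

lemma Anc.trans {hS : S.IsTree} {ρ a b c : Fin n} (h1 : Anc hS ρ a b) (h2 : Anc hS ρ b c) :
    Anc hS ρ a c := pth_support_subset hS h2 h1

lemma Anc.antisymm {hS : S.IsTree} {ρ a b : Fin n} (h1 : Anc hS ρ a b) (h2 : Anc hS ρ b a) :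
    a = b := by
  by_contra hne
  have h3 := pth_length_lt hS h1 hne
  have h4 := pth_length_lt hS h2 (Ne.symm hne)
  omega

theorem Anc.chain {hS : S.IsTree} {ρ a b t : Fin n} (ha : Anc hS ρ a t) (hb : Anc hS ρ b t) :
    Anc hS ρ a b ∨ Anc hS ρ b a := by
  have key : ∀ (i j : ℕ), i ≤ j →
      (pth hS ρ t).getVert i ∈ (pth hS ρ ((pth hS ρ t).getVert j)).support := by
    intro i j hij
    have h1 : (pth hS ρ t).take j = pth hS ρ ((pth hS ρ t).getVert j) :=
      pth_unique hS _ ((pth_isPath hS ρ t).take j)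
    rw [← h1]
    have h2 : ((pth hS ρ t).take j).getVert i = (pth hS ρ t).getVert i := by
      rw [SimpleGraph.Walk.take_getVert]
      congr 1
      omega
    rw [← h2]
    exact SimpleGraph.Walk.getVert_mem_support _ _
  obtain ⟨i, hi, _⟩ := SimpleGraph.Walk.mem_support_iff_exists_getVert.1 ha
  obtain ⟨j, hj, _⟩ := SimpleGraph.Walk.mem_support_iff_exists_getVert.1 hb
  rcases le_total i j with h | h
  · left
    have := key i j h
    rw [hi, hj] at this
    exact this
  · right
    have := key j i h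
    rw [hi, hj] at this
    exact this

theorem append_isPath {u v w : Fin n} (p : S.Walk u v) (q : S.Walk v w) (hp : p.IsPath)
    (hq : q.IsPath) (hd : ∀ x ∈ p.support, x ∈ q.support → x = v) : (p.append q).IsPath := by
  rw [SimpleGraph.Walk.isPath_def, SimpleGraph.Walk.support_append, List.nodup_append]
  refine ⟨hp.support_nodup, hq.support_nodup.tail, ?_⟩
  intro x hx y hy hxy
  subst hxy
  have h1 := hd x hx (List.mem_of_mem_tail hy)
  subst h1
  have h2 := hq.support_nodup
  rw [← SimpleGraph.Walk.cons_tail_support q] at h2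
  exact (List.nodup_cons.1 h2).1 hy

/-- a connected set of nodes is a subtree of the rooted tree order -/
theorem exists_top (hS : S.IsTree) (ρ : Fin n) (W : Finset (Fin n)) (hne : W.Nonempty)
    (hW : ∀ i j, i ∈ W → j ∈ W → ∃ p : S.Walk i j, ∀ x ∈ p.support, x ∈ W) :
    ∃ r ∈ W, ∀ t ∈ W, Anc hS ρ r t ∧
      ∀ s, Anc hS ρ r s → Anc hS ρ s t → s ∈ W := by
  obtain ⟨r, hr, hmin⟩ := Finset.exists_min_image W (fun t => (pth hS ρ t).length) hne
  refine ⟨r, hr, fun t ht => ?_⟩
  obtain ⟨q, hq⟩ := hW r t hr ht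
  have hq' : ∀ x ∈ q.bypass.support, x ∈ W := fun x hx =>
    hq x (SimpleGraph.Walk.support_bypass_subset_support q hx)
  have hqp : q.bypass.IsPath := SimpleGraph.Walk.bypass_isPath q
  have honly : ∀ x ∈ (pth hS ρ r).support, x ∈ q.bypass.support → x = r := by
    intro x hx hx'
    by_contra hne
    have h1 := pth_length_lt hS hx hne
    have h2 := hmin x (hq' x hx')
    omega
  have hpath := append_isPath _ _ (pth_isPath hS ρ r) hqp honly
  have he := pth_unique hS _ hpath
  unfold Anc
  rw [← he]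
  refine ⟨?_, ?_⟩
  · rw [SimpleGraph.Walk.mem_support_append_iff]
    exact Or.inl (SimpleGraph.Walk.end_mem_support _)
  · intro s hrs hs
    rw [SimpleGraph.Walk.mem_support_append_iff] at hs
    rcases hs with hs | hs
    · by_cases hsr : s = r
      · rw [hsr]; exact hr
      · have h1 := pth_length_lt hS hs hsr
        have h2 := pth_length_lt hS hrs (Ne.symm hsr)
        omega
    · exact hq' s hs

end tree

/-- A graph of treewidth at most `w` has a layout all of whose sets have outer boundaries with at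
most `w + 1` vertices. -/
theorem lay_of_tw {V : Type} [Fintype V] [Nonempty V] {G : SimpleGraph V} {w : ℕ}
    (h : TwLE G w) : Lay (Thin G (w + 1)) (Finset.univ : Finset V) := by
  obtain ⟨n, T, B, hT, hcov, hedge, hconn, hw⟩ := h
  obtain ⟨v0⟩ := ‹Nonempty V›
  obtain ⟨ρ, _⟩ := hcov v0
  let W : V → Finset (Fin n) := fun v => Finset.univ.filter (fun i => v ∈ B i)
  have hWm : ∀ v i, i ∈ W v ↔ v ∈ B i := by intro v i; simp [W]
  have htop : ∀ v, ∃ r ∈ W v, ∀ t ∈ W v, Anc hT ρ r t ∧
      ∀ s, Anc hT ρ r s → Anc hT ρ s t → s ∈ W v := by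
    intro v
    refine exists_top hT ρ (W v) ?_ ?_
    · obtain ⟨i, hi⟩ := hcov v
      exact ⟨i, (hWm v i).2 hi⟩
    · intro i j hi hj
      obtain ⟨p, hp⟩ := hconn v i j ((hWm v i).1 hi) ((hWm v j).1 hj)
      exact ⟨p, fun x hx => (hWm v x).2 (hp x hx)⟩
  choose top ht1 ht2 using htop
  let enc : V ≃ Fin (Fintype.card V) := Fintype.equivFin V
  let le : V → V → Prop := fun x y =>
    (Anc hT ρ (top y) (top x) ∧ top y ≠ top x) ∨ (top x = top y ∧ enc x ≤ enc y)
  letI : PartialOrder V :=
    { le := le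
      le_refl := fun x => Or.inr ⟨rfl, le_rfl⟩
      le_trans := by
        rintro x y z (⟨h1, h2⟩ | ⟨h1, h2⟩) (⟨h3, h4⟩ | ⟨h3, h4⟩)
        · refine Or.inl ⟨h3.trans h1, fun e => h4 ?_⟩
          rw [← e] at h1
          exact h3.antisymm h1
        · exact Or.inl ⟨h3 ▸ h1, h3 ▸ h2⟩
        · exact Or.inl ⟨h1 ▸ h3, h1 ▸ h4⟩
        · exact Or.inr ⟨h1.trans h3, h2.trans h4⟩
      le_antisymm := by
        rintro x y (⟨h1, h2⟩ | ⟨h1, h2⟩) (⟨h3, h4⟩ | ⟨h3, h4⟩)
        · exact absurd (h1.antisymm h3) h2
        · exact absurd h3 h2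
        · exact absurd h1 h4
        · exact enc.injective (le_antisymm h2 h4) }
  have hle : ∀ x y : V, x ≤ y ↔ (Anc hT ρ (top y) (top x) ∧ top y ≠ top x) ∨
      (top x = top y ∧ enc x ≤ enc y) := fun x y => Iff.rfl
  have hcmp : ∀ (i : Fin n) (x y : V), Anc hT ρ (top x) i → Anc hT ρ (top y) i →
      x ≤ y ∨ y ≤ x := by
    intro i x y hx hy
    by_cases he : top x = top y
    · rcases le_total (enc x) (enc y) with h | h
      · exact Or.inl ((hle x y).2 (Or.inr ⟨he, h⟩))
      · exact Or.inr ((hle y x).2 (Or.inr ⟨he.symm, h⟩))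
    · rcases hx.chain hy with h | h
      · exact Or.inr ((hle y x).2 (Or.inl ⟨h, he⟩))
      · exact Or.inl ((hle x y).2 (Or.inl ⟨h, Ne.symm he⟩))
  have hanc : ∀ x y : V, x ≤ y → Anc hT ρ (top y) (top x) := by
    intro x y h
    rcases (hle x y).1 h with h | h
    · exact h.1
    · rw [h.1]; exact Anc.refl _ _ _
  refine lay_univ (S := G) (w := w) ?_ ?_ ?_
  · intro a b c hab hac
    exact hcmp (top a) b c (hanc a b hab) (hanc a c hac)
  · intro x y hadj
    obtain ⟨i, hx, hy⟩ := hedge x y hadj
    exact hcmp i x y ((ht2 x i ((hWm x i).2 hx)).1) ((ht2 y i ((hWm y i).2 hy)).1)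
  · intro v
    refine ⟨(B (top v)).erase v, ?_, ?_⟩
    · have h1 : v ∈ B (top v) := (hWm v _).1 (ht1 v)
      have h2 := hw (top v)
      rw [Finset.card_erase_of_mem h1]
      omega
    · intro x y hxv hyv hadj
      obtain ⟨i, hx, hy⟩ := hedge x y hadj
      have a1 : Anc hT ρ (top v) i := (hanc x v hxv).trans ((ht2 x i ((hWm x i).2 hx)).1)
      have a2 := ht2 y i ((hWm y i).2 hy)
      rw [Finset.mem_erase]
      refine ⟨fun e => hyv (e ▸ le_rfl), ?_⟩
      rcases a1.chain a2.1 with h | h
      · by_cases he : top v = top y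
        · rw [he]; exact (hWm y _).1 (ht1 y)
        · exact absurd ((hle y v).2 (Or.inl ⟨h, he⟩)) hyv
      · exact (hWm y _).1 (a2.2 (top v) h a1)

end Pool.Agent.CwTw
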