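import Pool.Agent.CwTw.Defs

set_option autoImplicit false

/-!
# From layouts to cliquewidth expressions
-/

namespace Pool.Agent.CwTw

open Finset Classical

variable {L : Type}

lemma Cw.congr {V : Type} {G H : SimpleGraph V} {l m : V → L} (h : Cw L V G l) (hG : G = H)
    (hl : l = m) : Cw L V H m := by
  subst hG hl; exact h

lemma Cw.mapLabel {L' : Type} (i : L → L') (hi : Function.Injective i) {V : Type}
    {G : SimpleGraph V} {l : V → L} (h : Cw L V G l) : Cw L' V G (i ∘ l) := by
  induction h with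
  | single a => exact Cw.single (i a)
  | union h1 h2 ih1 ih2 =>
    refine (Cw.union ih1 ih2).congr rfl ?_
    funext x
    cases x <;> rfl
  | join a b hab h ih =>
    refine (Cw.join (i a) (i b) (fun e => hab (hi e)) ih).congr ?_ rfl
    congr 1
    ext x y
    simp [SimpleGraph.fromRel_adj, hi.eq_iff]
  | relabel a b h h1 h2 ih =>
    refine Cw.relabel (i a) (i b) ih ?_ ?_
    · intro v hv
      show i _ = i _
      rw [h1 v (hi hv)]
    · intro v hv
      show i _ = i _
      rw [h2 v (fun e => hv (congrArg i e))]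
  | iso e h ih => exact (Cw.iso e ih).congr rfl rfl

lemma Cw.joinSet {V : Type} {G : SimpleGraph V} {l : V → L} (h : Cw L V G l)
    (P : Finset (L × L)) (hP : ∀ p ∈ P, p.1 ≠ p.2) :
    Cw L V (G ⊔ SimpleGraph.fromRel fun x y => (l x, l y) ∈ P) l := by
  induction P using Finset.induction_on with
  | empty =>
    refine h.congr ?_ rfl
    ext x y
    simp [SimpleGraph.fromRel_adj]
  | insert p P hp ih =>
    have h1 := ih (fun q hq => hP q (Finset.mem_insert_of_mem hq))
    have h2 := Cw.join p.1 p.2 (hP p (Finset.mem_insert_self _ _)) h1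
    refine h2.congr ?_ rfl
    ext x y
    simp only [SimpleGraph.sup_adj, SimpleGraph.fromRel_adj, Finset.mem_insert]
    have e1 : ∀ x y : V, (l x, l y) = p ↔ l x = p.1 ∧ l y = p.2 := by
      intro x y
      rw [Prod.ext_iff]
    rw [e1, e1]
    tauto

lemma Cw.relabelSet {V : Type} {G : SimpleGraph V} {l : V → L} (h : Cw L V G l)
    (S : Finset L) (g : L → L) (hg : ∀ s ∈ S, g s ∉ S) :
    Cw L V G (fun v => if l v ∈ S then g (l v) else l v) := by
  induction S using Finset.induction_on with
  | empty => simpa using h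
  | insert a S ha ih =>
    have h1 := ih (fun s hs hs' => hg s (Finset.mem_insert_of_mem hs) (Finset.mem_insert_of_mem hs'))
    refine Cw.relabel a (g a) h1 ?_ ?_
    · intro v hv
      by_cases hS : l v ∈ S
      · rw [if_pos hS] at hv
        exact absurd (hv ▸ Finset.mem_insert_self a S) (hg _ (Finset.mem_insert_of_mem hS))
      · rw [if_neg hS] at hv
        rw [if_pos (by rw [hv]; exact Finset.mem_insert_self _ _), hv]
    · intro v hv
      by_cases hS : l v ∈ S
      · rw [if_pos hS, if_pos (Finset.mem_insert_of_mem hS)]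
      · rw [if_neg hS] at hv ⊢
        rw [if_neg]
        rw [Finset.mem_insert]
        rintro (h | h)
        · exact hv h
        · exact hS h

/-- A layout of the vertices of a set, all of whose unions have the property `P`. -/
inductive Lay {V : Type} (P : Finset V → Prop) : Finset V → Prop
  | single (v : V) : Lay P {v}
  | union {X Y : Finset V} : Disjoint X Y → P (X ∪ Y) → Lay P X → Lay P Y → Lay P (X ∪ Y)

/-- Equal values of `τ` mean equal neighbourhoods outside `X`. -/
def Tr {V M : Type} (G : SimpleGraph V) (X : Finset V) (τ : V → M) : Prop :=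
  ∀ x ∈ X, ∀ x' ∈ X, τ x = τ x' → ∀ y, y ∉ X → (G.Adj x y ↔ G.Adj x' y)

section
variable {V M : Type} [Fintype M]

private lemma step_union (G : SimpleGraph V) (X Y : Finset V) (hXY : Disjoint X Y) (τ τ1 τ2 : V → M)
    (h1 : Tr G X τ1) (h2 : Tr G Y τ2) (h : Tr G (X ∪ Y) τ)
    (c1 : Cw (M × Fin 3) X (G.induce (X : Set V)) (fun v => (τ1 v, 0)))
    (c2 : Cw (M × Fin 3) Y (G.induce (Y : Set V)) (fun v => (τ2 v, 0))) :
    ∃ τ' : V → M, Tr G (X ∪ Y) τ' ∧
      Cw (M × Fin 3) (X ∪ Y : Finset V) (G.induce ((X ∪ Y : Finset V) : Set V))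
        (fun v => (τ' v, 0)) := by
  have hd : ∀ v, v ∈ X → v ∉ Y := fun v hv hv' => Finset.disjoint_left.1 hXY hv hv'
  -- representatives
  have hr1 : ∀ m : M, ∃ n : M, ∀ x ∈ X, τ1 x = m → ∃ r ∈ X, τ1 r = m ∧ n = τ r := by
    intro m
    by_cases hm : ∃ x ∈ X, τ1 x = m
    · obtain ⟨x, hx, hxm⟩ := hm
      exact ⟨τ x, fun _ _ _ => ⟨x, hx, hxm, rfl⟩⟩
    · exact ⟨m, fun x hx hxm => absurd ⟨x, hx, hxm⟩ hm⟩
  have hr2 : ∀ m : M, ∃ n : M, ∀ x ∈ Y, τ2 x = m → ∃ r ∈ Y, τ2 r = m ∧ n = τ r := by
    intro m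
    by_cases hm : ∃ x ∈ Y, τ2 x = m
    · obtain ⟨x, hx, hxm⟩ := hm
      exact ⟨τ x, fun _ _ _ => ⟨x, hx, hxm, rfl⟩⟩
    · exact ⟨m, fun x hx hxm => absurd ⟨x, hx, hxm⟩ hm⟩
  choose g1 hg1 using hr1
  choose g2 hg2 using hr2
  let τ' : V → M := fun v => if v ∈ X then g1 (τ1 v) else g2 (τ2 v)
  have hrep : ∀ v ∈ X ∪ Y, ∃ r ∈ X ∪ Y, τ' v = τ r ∧ ∀ y, y ∉ X ∪ Y →
      (G.Adj v y ↔ G.Adj r y) := by
    intro v hv
    by_cases hvX : v ∈ X
    · obtain ⟨r, hr, hr1, hr2⟩ := hg1 (τ1 v) v hvX rfl
      refine ⟨r, Finset.mem_union_left _ hr, ?_, fun y hy => ?_⟩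
      · show (if v ∈ X then g1 (τ1 v) else g2 (τ2 v)) = τ r
        rw [if_pos hvX, hr2]
      · exact h1 v hvX r hr hr1.symm y (fun h => hy (Finset.mem_union_left _ h))
    · have hvY : v ∈ Y := (Finset.mem_union.1 hv).resolve_left hvX
      obtain ⟨r, hr, hr1, hr2⟩ := hg2 (τ2 v) v hvY rfl
      refine ⟨r, Finset.mem_union_right _ hr, ?_, fun y hy => ?_⟩
      · show (if v ∈ X then g1 (τ1 v) else g2 (τ2 v)) = τ r
        rw [if_neg hvX, hr2]
      · exact h2 v hvY r hr hr1.symm y (fun h => hy (Finset.mem_union_right _ h))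
  refine ⟨τ', ?_, ?_⟩
  · intro x hx x' hx' he y hy
    obtain ⟨r, hr, e1, e2⟩ := hrep x hx
    obtain ⟨r', hr', e1', e2'⟩ := hrep x' hx'
    rw [e2 y hy, e2' y hy]
    exact h r hr r' hr' (by rw [← e1, ← e1', he]) y hy
  · -- relabel Y
    have c2' : Cw (M × Fin 3) Y (G.induce (Y : Set V)) (fun v => (τ2 v, 1)) := by
      refine (c2.relabelSet (Finset.univ.filter fun p => p.2 = 0) (fun p => (p.1, 1)) ?_).congr
        rfl ?_
      · intro s _
        simp
      · funext v
        simp
    have c3 := Cw.union c1 c2'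
    let P : Finset ((M × Fin 3) × (M × Fin 3)) := Finset.univ.filter fun p =>
      p.1.2 = 0 ∧ p.2.2 = 1 ∧ ∃ x ∈ X, ∃ y ∈ Y, τ1 x = p.1.1 ∧ τ2 y = p.2.1 ∧ G.Adj x y
    have c4 := c3.joinSet P (by
      intro p hp he
      simp only [P, Finset.mem_filter, Finset.mem_univ, true_and] at hp
      have := hp.1.symm.trans ((congrArg Prod.snd he).trans hp.2.1)
      exact absurd this (by decide))
    -- relabel to the third component, then back to 0
    have c5 := c4.relabelSet (Finset.univ.filter fun p => p.2 ≠ 2)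
      (fun p => if p.2 = 0 then (g1 p.1, 2) else (g2 p.1, 2)) (by
        intro s _
        simp only [Finset.mem_filter, Finset.mem_univ, true_and, not_not]
        split_ifs <;> rfl)
    have c6 := c5.relabelSet (Finset.univ.filter fun p => p.2 = 2)
      (fun p => (p.1, 0)) (by
        intro s _
        simp)
    -- the isomorphism
    let e : (X ⊕ Y) ≃ ((X ∪ Y : Finset V) : Type) :=
      { toFun := Sum.elim (fun x => ⟨x.1, Finset.mem_union_left _ x.2⟩)
          (fun y => ⟨y.1, Finset.mem_union_right _ y.2⟩)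
        invFun := fun v => if h : v.1 ∈ X then Sum.inl ⟨v.1, h⟩ else
          Sum.inr ⟨v.1, (Finset.mem_union.1 v.2).resolve_left h⟩
        left_inv := by
          rintro (x | y)
          · simp
          · have : y.1 ∉ X := fun h => hd _ h y.2
            simp [this]
        right_inv := by
          intro v
          by_cases h : v.1 ∈ X
          · simp [h]
          · simp [h] }
    have hP : ∀ (x : V) (y : V), x ∈ X → y ∈ Y → (((τ1 x, (0 : Fin 3)), (τ2 y, (1 : Fin 3))) ∈ P ↔
        G.Adj x y) := by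
      intro x y hx hy
      simp only [P, Finset.mem_filter, Finset.mem_univ, true_and]
      constructor
      · rintro ⟨x', hx', y', hy', e1, e2, hadj⟩
        have a1 : G.Adj x y' := (h1 x hx x' hx' e1.symm y' (fun h => hd _ h hy')).2 hadj
        exact ((h2 y hy y' hy' e2.symm x (hd _ hx)).2 a1.symm).symm
      · intro hadj
        exact ⟨x, hx, y, hy, rfl, rfl, hadj⟩
    let e' : ((G.induce (X : Set V) ⊕g G.induce (Y : Set V)) ⊔ SimpleGraph.fromRel fun x y =>
        ((Sum.elim (fun v : X => (τ1 v, (0 : Fin 3))) (fun v : Y => (τ2 v, (1 : Fin 3))) x,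
          Sum.elim (fun v : X => (τ1 v, (0 : Fin 3))) (fun v : Y => (τ2 v, (1 : Fin 3))) y) :
            (M × Fin 3) × (M × Fin 3)) ∈ P) ≃g
        G.induce ((X ∪ Y : Finset V) : Set V) :=
      { toEquiv := e
        map_rel_iff' := by
          rintro (x | x) (y | y)
          · have h0 : ((τ1 x, (0 : Fin 3)), (τ1 y, (0 : Fin 3))) ∉ P := by
              simp [P]
            have h0' : ((τ1 y, (0 : Fin 3)), (τ1 x, (0 : Fin 3))) ∉ P := by
              simp [P]
            simp [e, SimpleGraph.fromRel_adj, h0, h0']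
          · have h0 := hP x y x.2 y.2
            have h0' : ((τ2 y, (1 : Fin 3)), (τ1 x, (0 : Fin 3))) ∉ P := by
              simp [P]
            simp [e, SimpleGraph.fromRel_adj, h0, h0']
          · have h0 := hP y x y.2 x.2
            have h0' : ((τ2 x, (1 : Fin 3)), (τ1 y, (0 : Fin 3))) ∉ P := by
              simp [P]
            simp [e, SimpleGraph.fromRel_adj, h0, h0', G.adj_comm]
          · have h0 : ((τ2 x, (1 : Fin 3)), (τ2 y, (1 : Fin 3))) ∉ P := by
              simp [P]
            have h0' : ((τ2 y, (1 : Fin 3)), (τ2 x, (1 : Fin 3))) ∉ P := by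
              simp [P]
            simp [e, SimpleGraph.fromRel_adj, h0, h0'] }
    refine (Cw.iso e' c6).congr rfl ?_
    funext v
    show _ = (τ' v, (0 : Fin 3))
    by_cases hv : v.1 ∈ X
    · have he : e'.symm v = Sum.inl ⟨v.1, hv⟩ := by
        show e.symm v = _
        simp [e, hv]
      simp [he, τ', hv]
    · have he : e'.symm v = Sum.inr ⟨v.1, (Finset.mem_union.1 v.2).resolve_left hv⟩ := by
        show e.symm v = _
        simp [e, hv]
      simp [he, τ', hv]

lemma Lay.cw (G : SimpleGraph V) {P : Finset V → Prop}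
    (hP : ∀ X, P X → ∃ τ : V → M, Tr G X τ) [Nonempty M] {X : Finset V} (h : Lay P X) :
    ∃ τ : V → M, Tr G X τ ∧
      Cw (M × Fin 3) X (G.induce (X : Set V)) (fun v => (τ v, 0)) := by
  induction h with
  | single v =>
    obtain ⟨m⟩ := ‹Nonempty M›
    refine ⟨fun _ => m, ?_, ?_⟩
    · intro x hx x' hx' _ y _
      rw [Finset.mem_singleton] at hx hx'
      rw [hx, hx']
    · let e : (⊥ : SimpleGraph Unit) ≃g G.induce (({v} : Finset V) : Set V) :=
        { toFun := fun _ => ⟨v, Finset.mem_singleton_self v⟩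
          invFun := fun _ => ()
          left_inv := fun _ => rfl
          right_inv := fun x => by
            have := Finset.mem_singleton.1 x.2
            exact Subtype.ext this.symm
          map_rel_iff' := by
            intro a b
            simp }
      exact (Cw.iso e (Cw.single (m, 0))).congr rfl rfl
  | union hd hPX _ _ ih1 ih2 =>
    obtain ⟨τ1, t1, c1⟩ := ih1
    obtain ⟨τ2, t2, c2⟩ := ih2
    obtain ⟨τ, t⟩ := hP _ hPX
    exact step_union G _ _ hd τ τ1 τ2 t1 t2 t c1 c2

theorem Lay.cwLE [Fintype V] (G : SimpleGraph V) {P : Finset V → Prop}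
    (hP : ∀ X, P X → ∃ τ : V → M, Tr G X τ) [Nonempty M] (h : Lay P (Finset.univ : Finset V)) :
    CwLE G (3 * Fintype.card M) := by
  obtain ⟨τ, _, c⟩ := h.cw G hP
  right
  let e : G.induce ((Finset.univ : Finset V) : Set V) ≃g G :=
    { toFun := fun v => v.1
      invFun := fun v => ⟨v, Finset.mem_univ v⟩
      left_inv := fun v => rfl
      right_inv := fun v => rfl
      map_rel_iff' := by
        intro a b
        simp }
  have c2 := Cw.iso e c
  have hcard : Fintype.card (M × Fin 3) = 3 * Fintype.card M := by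
    rw [Fintype.card_prod, Fintype.card_fin]; ring
  let i : M × Fin 3 ≃ Fin (3 * Fintype.card M) := Fintype.equivFinOfCardEq hcard
  exact ⟨_, c2.mapLabel i i.injective⟩

end

end Pool.Agent.CwTw
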