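import Mathlib

set_option autoImplicit false

/-!
# Families of graphs with bounded width: unions of `k` simple pieces
-/

namespace Pool.Agent.CwTw

/-- Comparability graphs of the orders which are unions of `k` chains (orders of width at most
`k`). -/
def ChainComp {V : Type} (G : SimpleGraph V) (k : ℕ) : Prop :=
  ∃ (P : PartialOrder V) (c : V → Fin k), (∀ x y, G.Adj x y ↔ P.lt x y ∨ P.lt y x) ∧
    ∀ x y, c x = c y → P.le x y ∨ P.le y x

/-- Incomparability graphs of the orders which are unions of `k` chains (cocomparability graphs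
with a partition into `k` independent sets, in other words without a clique on `k + 1`
vertices). -/
def ChainIncomp {V : Type} (G : SimpleGraph V) (k : ℕ) : Prop :=
  ∃ (P : PartialOrder V) (c : V → Fin k), (∀ x y, G.Adj x y ↔ ¬ P.le x y ∧ ¬ P.le y x) ∧
    ∀ x y, c x = c y → P.le x y ∨ P.le y x

/-- Interval graphs such that, for some representation by closed intervals `[l x, r x]` of the
real line, the set of vertices is the union of `k` sets each of which is a clique or consists of
intervals without proper containments (the left and the right endpoints come in the same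
order). -/
def IntervalUnion {V : Type} (G : SimpleGraph V) (k : ℕ) : Prop :=
  ∃ (l r : V → ℝ) (c : V → Fin k), (∀ x, l x ≤ r x) ∧
    (∀ x y, G.Adj x y ↔ x ≠ y ∧ l x ≤ r y ∧ l y ≤ r x) ∧
    ∀ a, (∀ x y, c x = a → c y = a → l x ≤ r y) ∨
      (∀ x y, c x = a → c y = a → (l x ≤ l y ∧ r x ≤ r y) ∨ (l y ≤ l x ∧ r y ≤ r x))

/-- Interval graphs which do not contain the disjoint union of `k` cliques on `k` vertices as an
induced subgraph. -/
def IntervalNoCliques {V : Type} (G : SimpleGraph V) (k : ℕ) : Prop :=
  ∃ (l r : V → ℝ), (∀ x, l x ≤ r x) ∧ (∀ x y, G.Adj x y ↔ x ≠ y ∧ l x ≤ r y ∧ l y ≤ r x) ∧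
    ¬ ∃ e : Fin k × Fin k → V, Function.Injective e ∧
      ∀ i j i' j', (i, j) ≠ (i', j') → (G.Adj (e (i, j)) (e (i', j')) ↔ i = i')

/-- Permutation graphs of cochromatic number at most `k`: there are two linear orders (by the
values of `p` and of `q`) such that two vertices are adjacent if and only if their orders differ,
and the set of vertices is the union of `k` sets each of which is a clique or independent. -/
def PermUnion {V : Type} (G : SimpleGraph V) (k : ℕ) : Prop :=
  ∃ (p q : V → ℕ) (c : V → Fin k), Function.Injective p ∧ Function.Injective q ∧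
    (∀ x y, G.Adj x y ↔ (p x < p y ∧ q y < q x) ∨ (p y < p x ∧ q x < q y)) ∧
    ∀ a, (∀ x y, c x = a → c y = a → ¬ G.Adj x y) ∨
      (∀ x y, c x = a → c y = a → x ≠ y → G.Adj x y)

/-- Graphs of Dilworth number at most `k`: the set of vertices is the union of `k` chains of the
vicinal preorder (`x` is below `y` if every neighbour of `x` is `y` or a neighbour of `y`). -/
def VicinalUnion {V : Type} (G : SimpleGraph V) (k : ℕ) : Prop :=
  ∃ c : V → Fin k, ∀ x y, c x = c y → (∀ z, G.Adj x z → z = y ∨ G.Adj y z) ∨
    (∀ z, G.Adj y z → z = x ∨ G.Adj x z)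

end Pool.Agent.CwTw
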