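import Pool.Agent.CwTw.Strong

set_option autoImplicit false

/-!
# Strongly ordered partitions are laminar after refining the colours
-/

namespace Pool.Agent.CwTw

lemma FRel.symm' {V : Type} {G : SimpleGraph V} {k : ℕ} {col : V → Fin k}
    {f : Fin k → Fin k → Prop} (hf : ∀ a b, f a b → f b a) {x y : V} (h : FRel G col f x y) :
    FRel G col f y x := by
  rcases h with h | h
  · exact Or.inl h.symm
  · right
    have e : f (col y) (col x) ↔ f (col x) (col y) := ⟨hf _ _, hf _ _⟩
    unfold Xor at h ⊢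
    rw [G.adj_comm, e]
    exact h

/-- The refined colours. -/
abbrev SpI (k : ℕ) : Type := Fin k × (Fin k → Fin 3) × (Fin k → Fin 3)

/-- The number of refined colours. -/
def spn (k : ℕ) : ℕ := Fintype.card (SpI k)

section
variable {V : Type} [Finite V] [LinearOrder V] (G : SimpleGraph V) {k : ℕ} (col : V → Fin k)
  (f : Fin k → Fin k → Prop)

/-- The relation between two colour classes. -/
def spR (a b : Fin k) (x y : V) : Prop := col x = a ∧ col y = b ∧ FRel G col f x y

/-- The refined colouring. -/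
noncomputable def spc (x : V) : SpI k :=
  (col x, (fun b => ⟨dd (spR G col f (col x) b) (Sum.inl x) % 3, Nat.mod_lt _ (by norm_num)⟩),
    fun a => ⟨dd (spR G col f a (col x)) (Sum.inr x) % 3, Nat.mod_lt _ (by norm_num)⟩)

/-- Strongly ordered partitions give laminar partitions. -/
theorem lamPart_of_strong (hf : ∀ a b, f a b → f b a)
    (hso : ∀ x x' y y' : V, col x = col x' → col y = col y' → x < x' → y < y' →
      FRel G col f x y' → FRel G col f x' y → FRel G col f x y ∧ FRel G col f x' y') (t : ℕ) :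
    LamPart G (spn k) t := by
  let e : SpI k ≃ Fin (spn k) := Fintype.equivFin (SpI k)
  let nc : V → Fin (spn k) := fun x => e (spc G col f x)
  let f' : Fin (spn k) → Fin (spn k) → Prop := fun A B => f (e.symm A).1 (e.symm B).1
  have hF : ∀ x y, FRel G nc f' x y ↔ FRel G col f x y := by
    intro x y
    have h1 : f' (nc x) (nc y) ↔ f (col x) (col y) := by
      show f (e.symm (e (spc G col f x))).1 (e.symm (e (spc G col f y))).1 ↔ _
      rw [Equiv.symm_apply_apply, Equiv.symm_apply_apply]
      exact Iff.rfl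
    unfold FRel
    rw [h1]
  have hS : ∀ a b, StrOrd (spR G col f a b) := by
    rintro a b x x' y y' hx hy ⟨h1, h2, h3⟩ ⟨h4, h5, h6⟩
    obtain ⟨h7, h8⟩ := hso x x' y y' (h1.trans h4.symm) (h5.trans h2.symm) hx hy h3 h6
    exact ⟨⟨h1, h5, h7⟩, ⟨h4, h2, h8⟩⟩
  refine ⟨nc, f', fun A B h => hf _ _ h, fun A B => ?_⟩
  obtain ⟨⟨a, μ, ν⟩, hA⟩ : ∃ P : SpI k, e P = A := ⟨e.symm A, e.apply_symm_apply A⟩
  obtain ⟨⟨b, μ', ν'⟩, hB⟩ : ∃ P : SpI k, e P = B := ⟨e.symm B, e.apply_symm_apply B⟩
  have hxA : ∀ x, nc x = A → col x = a ∧ dd (spR G col f a b) (Sum.inl x) % 3 = (μ b : ℕ) := by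
    intro x hx
    rw [← hA] at hx
    have h1 : spc G col f x = (a, μ, ν) := e.injective hx
    have h2 : col x = a := congrArg Prod.fst h1
    have h3 := congrFun (congrArg (fun P : SpI k => P.2.1) h1) b
    have h4 : dd (spR G col f (col x) b) (Sum.inl x) % 3 = (μ b : ℕ) := congrArg Fin.val h3
    rw [h2] at h4
    exact ⟨h2, h4⟩
  have hyB : ∀ y, nc y = B → col y = b ∧ dd (spR G col f a b) (Sum.inr y) % 3 = (ν' a : ℕ) := by
    intro y hy
    rw [← hB] at hy
    have h1 : spc G col f y = (b, μ', ν') := e.injective hy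
    have h2 : col y = b := congrArg Prod.fst h1
    have h3 := congrFun (congrArg (fun P : SpI k => P.2.2) h1) a
    have h4 : dd (spR G col f a (col y)) (Sum.inr y) % 3 = (ν' a : ℕ) := congrArg Fin.val h3
    rw [h2] at h4
    exact ⟨h2, h4⟩
  have hadj : ∀ x y, nc x = A → nc y = B → FRel G col f x y →
      (bpG (spR G col f a b)).Adj (Sum.inl x) (Sum.inr y) := by
    intro x y hx hy hxy
    exact Or.inl ⟨x, y, rfl, rfl, (hxA x hx).1, (hyB y hy).1, hxy⟩
  have hadj' : ∀ x y, (bpG (spR G col f a b)).Adj (Sum.inl x) (Sum.inr y) →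
      FRel G col f x y := by
    rintro x y (⟨x1, y1, h1, h2, h3⟩ | ⟨x1, y1, h1, h2, h3⟩)
    · rw [Sum.inl.inj h1, Sum.inr.inj h2]
      exact h3.2.2
    · cases h1
  -- membership in the neighbourhoods
  by_cases c1 : ((ν' a : ℕ) + 1) % 3 = (μ b : ℕ) % 3
  · left
    have key : ∀ x y, nc x = A → (y ∈ nb G nc f' B x ↔ nc y = B ∧
        (Sum.inr y : V ⊕ V) ∈ prv (spR G col f a b) (Sum.inl x)) := by
      intro x y hx
      constructor
      · rintro ⟨hy, hxy⟩
        rw [hF] at hxy
        have h1 := hadj x y hx hy hxy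
        refine ⟨hy, h1.symm, ?_⟩
        have h2 := (hxA x hx).2
        have h3 := (hyB y hy).2
        rcases dd_adj h1 with h4 | h4
        · omega
        · exact h4
      · rintro ⟨hy, h1, _⟩
        exact ⟨hy, (hF _ _).2 (hadj' x y h1.symm)⟩
    intro x x' hx hx'
    rcases prv_lam (hS a b) (Sum.inl x) (Sum.inl x') with h | h | h
    · left
      rw [Set.disjoint_left] at h ⊢
      intro y hy hy'
      exact h ((key x y hx).1 hy).2 ((key x' y hx').1 hy').2
    · right; left
      intro y hy
      obtain ⟨h1, h2⟩ := (key x y hx).1 hy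
      exact (key x' y hx').2 ⟨h1, h h2⟩
    · right; right
      intro y hy
      obtain ⟨h1, h2⟩ := (key x' y hx').1 hy
      exact (key x y hx).2 ⟨h1, h h2⟩
  by_cases c2 : ((μ b : ℕ) + 1) % 3 = (ν' a : ℕ) % 3
  · right; left
    have key : ∀ x y, nc y = B → (x ∈ nb G nc f' A y ↔ nc x = A ∧
        (Sum.inl x : V ⊕ V) ∈ prv (spR G col f a b) (Sum.inr y)) := by
      intro x y hy
      constructor
      · rintro ⟨hx, hxy⟩
        rw [hF] at hxy
        have h1 := hadj x y hx hy (hxy.symm' hf)
        refine ⟨hx, h1, ?_⟩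
        have h2 := (hxA x hx).2
        have h3 := (hyB y hy).2
        rcases dd_adj h1 with h4 | h4
        · exact h4
        · omega
      · rintro ⟨hx, h1, _⟩
        exact ⟨hx, (hF _ _).2 ((hadj' x y h1).symm' hf)⟩
    intro y y' hy hy'
    rcases prv_lam (hS a b) (Sum.inr y) (Sum.inr y') with h | h | h
    · left
      rw [Set.disjoint_left] at h ⊢
      intro x hx hx'
      exact h ((key x y hy).1 hx).2 ((key x y' hy').1 hx').2
    · right; left
      intro x hx
      obtain ⟨h1, h2⟩ := (key x y hy).1 hx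
      exact (key x y' hy').2 ⟨h1, h h2⟩
    · right; right
      intro x hx
      obtain ⟨h1, h2⟩ := (key x y' hy').1 hx
      exact (key x y hy).2 ⟨h1, h h2⟩
  · left
    intro x x' hx hx'
    left
    rw [Set.disjoint_left]
    rintro y ⟨hy, hxy⟩ _
    rw [hF] at hxy
    have h1 := hadj x y hx hy hxy
    have h2 := (hxA x hx).2
    have h3 := (hyB y hy).2
    rcases dd_adj h1 with h4 | h4
    · exact c2 (by omega)
    · exact c1 (by omega)

end

/-- The common part of the two next theorems. -/
lemma lamPart_of_incomp {V : Type} [Finite V] (P : PartialOrder V) (G : SimpleGraph V) {k : ℕ}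
    (c : V → Fin k) (f : Fin k → Fin k → Prop) (hf : ∀ a b, f a b → f b a)
    (hF : ∀ x y, FRel G c f x y ↔ ¬ (x < y ∨ y < x))
    (hc : ∀ x y, c x = c y → x ≤ y ∨ y ≤ x) (t : ℕ) : LamPart G (spn k) t := by
  let L : LinearOrder V := (inferInstance : LinearOrder (LinearExtension V))
  have hmono : ∀ x y : V, P.le x y → L.le x y := fun x y h => (toLinearExtension (α := V)).monotone h
  have hlt : ∀ x y : V, c x = c y → L.lt x y → P.lt x y := by
    intro x y hxy h
    rcases hc x y hxy with h1 | h1
    · refine @lt_of_le_of_ne V P x y h1 ?_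
      rintro rfl
      exact @lt_irrefl V L.toPreorder x h
    · exact absurd (hmono y x h1) (@not_le_of_gt V L.toPreorder _ _ h)
  refine @lamPart_of_strong V _ L G k c f hf ?_ t
  intro x x' y y' hx hy hxx hyy h1 h2
  have a1 := hlt x x' hx hxx
  have a2 := hlt y y' hy hyy
  rw [hF] at h1 h2 ⊢
  rw [hF]
  rw [not_or] at h1 h2 ⊢
  rw [not_or]
  refine ⟨⟨fun h => h1.1 (lt_trans h a2), fun h => h2.2 (lt_trans h a1)⟩,
    ⟨fun h => h1.1 (lt_trans a1 h), fun h => h2.2 (lt_trans a2 h)⟩⟩

/-- Comparability graphs of partial orders which are unions of `k` chains have laminar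
partitions. -/
theorem lamPart_of_chains {V : Type} [Finite V] (P : PartialOrder V) (G : SimpleGraph V)
    (hG : ∀ x y, G.Adj x y ↔ x < y ∨ y < x) {k : ℕ} (c : V → Fin k)
    (hc : ∀ x y, c x = c y → x ≤ y ∨ y ≤ x) (t : ℕ) : LamPart G (spn k) t := by
  refine lamPart_of_incomp P G c (fun _ _ => True) (fun _ _ _ => trivial) (fun x y => ?_) hc t
  unfold FRel Xor
  rw [hG]
  constructor
  · rintro (rfl | h)
    · rintro (h | h) <;> exact lt_irrefl x h
    · rcases h with h | h
      · exact absurd trivial h.2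
      · exact h.2
  · intro h
    exact Or.inr (Or.inr ⟨trivial, h⟩)

/-- Incomparability graphs of partial orders which are unions of `k` chains (that is,
cocomparability graphs with bounded clique number) have laminar partitions. -/
theorem lamPart_of_cochains {V : Type} [Finite V] (P : PartialOrder V) (G : SimpleGraph V)
    (hG : ∀ x y, G.Adj x y ↔ ¬ x ≤ y ∧ ¬ y ≤ x) {k : ℕ} (c : V → Fin k)
    (hc : ∀ x y, c x = c y → x ≤ y ∨ y ≤ x) (t : ℕ) : LamPart G (spn k) t := by
  refine lamPart_of_incomp P G c (fun _ _ => False) (fun _ _ h => h) (fun x y => ?_) hc t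
  unfold FRel Xor
  rw [hG]
  constructor
  · rintro (rfl | h)
    · rintro (h | h) <;> exact lt_irrefl x h
    · rcases h with h | h
      · rintro (h' | h')
        · exact h.1.1 h'.le
        · exact h.1.2 h'.le
      · exact h.1.elim
  · intro h
    push Not at h
    by_cases hxy : x = y
    · exact Or.inl hxy
    · refine Or.inr (Or.inl ⟨⟨fun h' => h.1 (lt_of_le_of_ne h' hxy),
        fun h' => h.2 (lt_of_le_of_ne h' (Ne.symm hxy))⟩, fun h => h⟩)

/-- The order of intervals by their midpoints. -/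
@[instance_reducible] def midOrd {V : Type} (l r : V → ℝ) : PartialOrder V where
  le x y := x = y ∨ l x + r x < l y + r y
  le_refl x := Or.inl rfl
  le_trans x y z := by
    rintro (rfl | h) (rfl | h')
    · exact Or.inl rfl
    · exact Or.inr h'
    · exact Or.inr h
    · exact Or.inr (h.trans h')
  le_antisymm x y := by
    rintro (rfl | h) (h' | h')
    · rfl
    · rfl
    · exact h'.symm
    · exact absurd (h.trans h') (lt_irrefl _)

/-- Intersection graphs of `k` families of real intervals, each of them without proper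
containments, have laminar partitions. -/
theorem lamPart_of_nested {V : Type} [Finite V] (l r : V → ℝ) (G : SimpleGraph V)
    (hG : ∀ x y, G.Adj x y ↔ x ≠ y ∧ l x ≤ r y ∧ l y ≤ r x) (hlr : ∀ x, l x ≤ r x) {k : ℕ}
    (c : V → Fin k)
    (hc : ∀ x y, c x = c y → (l x ≤ l y ∧ r x ≤ r y) ∨ (l y ≤ l x ∧ r y ≤ r x)) (t : ℕ) :
    LamPart G (spn k) t := by
  let P : PartialOrder V := midOrd l r
  let L : LinearOrder V := (inferInstance : LinearOrder (LinearExtension V))
  have hmono : ∀ x y : V, P.le x y → L.le x y := fun x y h => (toLinearExtension (α := V)).monotone h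
  have hlt : ∀ x y : V, c x = c y → L.lt x y → l x ≤ l y ∧ r x ≤ r y := by
    intro x y hxy h
    rcases hc x y hxy with h1 | h1
    · exact h1
    · by_cases h2 : l y + r y < l x + r x
      · exact absurd (hmono y x (Or.inr h2)) (@not_le_of_gt V L.toPreorder _ _ h)
      · constructor <;> linarith
  have hF : ∀ x y, FRel G c (fun _ _ => False) x y ↔ l x ≤ r y ∧ l y ≤ r x := by
    intro x y
    unfold FRel Xor
    rw [hG]
    constructor
    · rintro (rfl | h)
      · exact ⟨hlr x, hlr x⟩
      · rcases h with h | h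
        · exact h.1.2
        · exact h.1.elim
    · intro h
      by_cases hxy : x = y
      · exact Or.inl hxy
      · exact Or.inr (Or.inl ⟨⟨hxy, h⟩, fun h => h⟩)
  refine @lamPart_of_strong V _ L G k c (fun _ _ => False) (fun _ _ h => h) ?_ t
  intro x x' y y' hx hy hxx hyy h1 h2
  have a1 := hlt x x' hx hxx
  have a2 := hlt y y' hy hyy
  rw [hF] at h1 h2 ⊢
  rw [hF]
  refine ⟨⟨?_, ?_⟩, ⟨?_, ?_⟩⟩ <;> linarith [a1.1, a1.2, a2.1, a2.2, h1.1, h1.2, h2.1, h2.2]

end Pool.Agent.CwTw
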