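import Pool.Agent.CwTw.StrongPair
import Pool.Agent.CwTw.StrongPart
import Pool.Agent.CwTw.FamDefs

set_option autoImplicit false

/-!
# Laminar partitions of interval graphs and of graphs of bounded Dilworth number
-/

namespace Pool.Agent.CwTw

lemma lamPart_mono {V : Type} {G : SimpleGraph V} {k k' t : ℕ} (hk : k ≤ k')
    (h : LamPart G k t) : LamPart G k' t := by
  obtain ⟨col, f, hf, h⟩ := h
  let i : Fin k → Fin k' := Fin.castLE hk
  have hi : Function.Injective i := Fin.castLE_injective hk
  let f' : Fin k' → Fin k' → Prop := fun a b => ∃ a0 b0, i a0 = a ∧ i b0 = b ∧ f a0 b0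
  have hf' : ∀ a b, f' (i a) (i b) ↔ f a b := by
    intro a b
    constructor
    · rintro ⟨a0, b0, h1, h2, h3⟩
      rw [← hi h1, ← hi h2]
      exact h3
    · intro h3
      exact ⟨a, b, rfl, rfl, h3⟩
  have hF : ∀ x y, FRel G (i ∘ col) f' x y ↔ FRel G col f x y := by
    intro x y
    unfold FRel Xor
    simp only [Function.comp_apply, hf']
  have hnb : ∀ b x, nb G (i ∘ col) f' (i b) x = nb G col f b x := by
    intro b x
    ext y
    show (i (col y) = i b ∧ FRel G (i ∘ col) f' x y) ↔ (col y = b ∧ FRel G col f x y)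
    rw [hF, hi.eq_iff]
  refine ⟨i ∘ col, f', ?_, ?_⟩
  · rintro a b ⟨a0, b0, h1, h2, h3⟩
    exact ⟨b0, a0, h2, h1, hf _ _ h3⟩
  · intro a b
    by_cases ha : ∃ a0, i a0 = a
    · by_cases hb : ∃ b0, i b0 = b
      · obtain ⟨a, rfl⟩ := ha
        obtain ⟨b, rfl⟩ := hb
        rcases h a b with h | h | h
        · left
          intro x x' hx hx'
          rw [hnb, hnb]
          exact h x x' (hi hx) (hi hx')
        · right; left
          intro x x' hx hx'
          rw [hnb, hnb]
          exact h x x' (hi hx) (hi hx')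
        · right; right
          rintro ⟨A, B, h1, h2, h3, h4, h5, h6⟩
          exact h ⟨A, B, h1, h2, h3, fun x hx => hi (h4 x hx), fun x hx => hi (h5 x hx),
            fun x hx y hy => (hF x y).1 (h6 x hx y hy)⟩
      · right; left
        intro x x' hx
        exact absurd ⟨_, hx⟩ hb
    · left
      intro x x' hx
      exact absurd ⟨_, hx⟩ ha

/-- Interval graphs which are unions of `k` cliques and proper families of intervals have laminar
partitions. -/
theorem lamPart_of_intervals (k : ℕ) : ∃ N : ℕ, ∀ (V : Type) [Finite V] (G : SimpleGraph V),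
    IntervalUnion G k → ∀ t, LamPart G N t := by
  classical
  obtain ⟨N, hN⟩ := lamPart_of_pairs k (Fin 3 × Fin 3)
  refine ⟨N, ?_⟩
  rintro V _ G ⟨l, r, c, hlr, hG, hc⟩ t
  have hF : ∀ x y, FRel G c (fun _ _ => False) x y ↔ l x ≤ r y ∧ l y ≤ r x := by
    intro x y
    unfold FRel Xor
    rw [hG]
    constructor
    · rintro (rfl | h)
      · exact ⟨hlr x, hlr x⟩
      · rcases h with h | h
        · exact h.1.2
        · exact h.1.elim
    · intro h
      by_cases hxy : x = y
      · exact Or.inl hxy
      · exact Or.inr (Or.inl ⟨⟨hxy, h⟩, fun h => h⟩)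
  refine hN V G t c (fun _ _ => False) (fun _ _ h => h) ?_
  -- a clique and an arbitrary class
  have ty : ∀ a, ∃ γ : V → Fin 3 × Fin 3, ∀ y z, γ y = γ z →
      ((∃ x, c x = a ∧ r y < l x) ↔ ∃ x, c x = a ∧ r z < l x) ∧
      ((∃ x, c x = a ∧ r x < l y) ↔ ∃ x, c x = a ∧ r x < l z) := by
    intro a
    have h01 : ∀ p q : Prop, (if p then (0 : Fin 3) else 1) = (if q then 0 else 1) → (p ↔ q) := by
      intro p q h
      by_cases hp : p <;> by_cases hq : q <;> simp_all
    exact ⟨fun y => (if ∃ x, c x = a ∧ r y < l x then 0 else 1,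
      if ∃ x, c x = a ∧ r x < l y then 0 else 1), fun y z h =>
      ⟨h01 _ _ (congrArg Prod.fst h), h01 _ _ (congrArg Prod.snd h)⟩⟩
  have cl1 : ∀ a b, (∀ x y, c x = a → c y = a → l x ≤ r y) →
      ∃ γ : V → Fin 3 × Fin 3, PairLam (FRel G c fun _ _ => False) (fun x => c x = a)
        (fun x => c x = b) γ := by
    intro a b ha
    obtain ⟨γ, hγ⟩ := ty a
    refine ⟨γ, ?_⟩
    intro x x' y z w hx hx' hy hz hw _ hzy hwy h1 h2 h3 h4 h5
    rw [hF] at h1 h2 h3 h4 h5 ⊢
    have gz := hγ z y hzy
    have gw := hγ w y hwy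
    by_cases p1 : ∃ x, c x = a ∧ r y < l x
    · obtain ⟨u, hu, hzu⟩ := gz.1.2 p1
      obtain ⟨v, hv, hwv⟩ := gw.1.2 p1
      have q1 := ha u x hu hx
      have q1' := ha u x' hu hx'
      have q2 := ha v x hv hx
      have e1 := hlr z
      have e2 := hlr w
      have e3 : r z < l x' := by
        by_contra hcon
        exact h4 ⟨not_lt.1 hcon, by linarith⟩
      exact ⟨by linarith [h3.1, h5.1], by linarith⟩
    · by_cases p2 : ∃ x, c x = a ∧ r x < l y
      · obtain ⟨u, hu, hzu⟩ := gz.2.2 p2
        obtain ⟨v, hv, hwv⟩ := gw.2.2 p2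
        have q1 := ha x u hx hu
        have q1' := ha x' u hx' hu
        have q2 := ha x v hx hv
        have e1 := hlr z
        have e2 := hlr w
        have e3 : r x' < l z := by
          by_contra hcon
          exact h4 ⟨by linarith, not_lt.1 hcon⟩
        exact ⟨by linarith, by linarith [h3.2, h5.2]⟩
      · have n1 : ¬ ∃ x, c x = a ∧ r w < l x := fun h => p1 (gw.1.1 h)
        have n2 : ¬ ∃ x, c x = a ∧ r x < l w := fun h => p2 (gw.2.1 h)
        push Not at n1 n2
        exact ⟨n1 x hx, n2 x hx⟩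
  have cl2 : ∀ a b, (∀ x y, c x = a → c y = a → l x ≤ r y) →
      ∃ γ : V → Fin 3 × Fin 3, PairLam (FRel G c fun _ _ => False) (fun x => c x = b)
        (fun x => c x = a) γ := by
    intro a b ha
    obtain ⟨γ, hγ⟩ := ty a
    refine ⟨γ, ?_⟩
    intro x x' y z w hx hx' hy hz hw hxx _ _ h1 h2 h3 h4 h5
    rw [hF] at h1 h2 h3 h4 h5 ⊢
    have gx := hγ x x' hxx
    by_cases p1 : ∃ z, c z = a ∧ r x < l z
    · obtain ⟨v, hv, hxv⟩ := gx.1.1 p1
      obtain ⟨u, hu, hxu⟩ := p1
      have q1 := ha u z hu hz
      have q2 := ha u w hu hw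
      have q3 := ha v z hv hz
      have e1 := hlr x
      have e2 := hlr x'
      have e3 : r x' < l z := by
        by_contra hcon
        exact h4 ⟨by linarith, not_lt.1 hcon⟩
      exact ⟨by linarith, by linarith [h3.2, h5.2]⟩
    · by_cases p2 : ∃ z, c z = a ∧ r z < l x
      · obtain ⟨v, hv, hxv⟩ := gx.2.1 p2
        obtain ⟨u, hu, hxu⟩ := p2
        have q1 := ha z u hz hu
        have q2 := ha w u hw hu
        have q3 := ha z v hz hv
        have e1 := hlr x
        have e2 := hlr x'
        have e3 : r z < l x' := by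
          by_contra hcon
          exact h4 ⟨not_lt.1 hcon, by linarith⟩
        exact ⟨by linarith [h3.1, h5.1], by linarith⟩
      · push Not at p1 p2
        exact ⟨p2 w hw, p1 w hw⟩
  intro a b
  rcases hc a with ha | ha
  · exact cl1 a b ha
  rcases hc b with hb | hb
  · exact cl2 b a hb
  let P : PartialOrder V := midOrd l r
  let L : LinearOrder V := (inferInstance : LinearOrder (LinearExtension V))
  have hmono : ∀ x y : V, P.le x y → L.le x y := fun x y h => (toLinearExtension (α := V)).monotone h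
  have hlt : ∀ x y : V, ((l x ≤ l y ∧ r x ≤ r y) ∨ (l y ≤ l x ∧ r y ≤ r x)) → L.lt x y →
      l x ≤ l y ∧ r x ≤ r y := by
    intro x y h1 h
    rcases h1 with h1 | h1
    · exact h1
    · by_cases h2 : l y + r y < l x + r x
      · exact absurd (hmono y x (Or.inr h2)) (@not_le_of_gt V L.toPreorder _ _ h)
      · constructor <;> linarith
  refine @pairLam_of_strong V _ L _ _ _ ?_
  intro x x' y y' hx hx' hy hy' hxx hyy h1 h2
  have a1 := hlt x x' (ha x x' hx hx') hxx
  have a2 := hlt y y' (hb y y' hy hy') hyy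
  rw [hF] at h1 h2 ⊢
  rw [hF]
  refine ⟨⟨?_, ?_⟩, ⟨?_, ?_⟩⟩ <;> linarith [a1.1, a1.2, a2.1, a2.2, h1.1, h1.2, h2.1, h2.2]

/-- Graphs of bounded Dilworth number have laminar partitions. -/
theorem lamPart_of_vicinal (k : ℕ) : ∃ N : ℕ, ∀ (V : Type) (G : SimpleGraph V),
    VicinalUnion G k → ∀ t, LamPart G N t := by
  classical
  obtain ⟨N, hN⟩ := lamPart_of_pairs k Bool
  refine ⟨N, ?_⟩
  rintro V G ⟨c, hc⟩ t
  have hF : ∀ x y, FRel G c (fun _ _ => False) x y ↔ x = y ∨ G.Adj x y := by
    intro x y
    unfold FRel Xor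
    simp
  refine hN V G t c (fun _ _ => False) (fun _ _ h => h) ?_
  intro a b
  -- the vertices which dominate one of their neighbours in the same class
  let big : V → Prop := fun x => ∃ y, c y = c x ∧ G.Adj x y ∧ ∀ z, G.Adj y z → z = x ∨ G.Adj x z
  have hbig : ∀ x x', c x = c x' → x ≠ x' → big x → big x' → G.Adj x x' := by
    have key : ∀ x x', c x = c x' → x ≠ x' → big x → (∀ z, G.Adj x z → z = x' ∨ G.Adj x' z) →
        G.Adj x x' := by
      rintro x x' _ hne ⟨y, hy, hxy, hdom⟩ hle
      rcases hle y hxy with h | h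
      · rw [← h]
        exact hxy
      · rcases hdom x' h.symm with h1 | h1
        · exact absurd h1.symm hne
        · exact h1
    intro x x' hxx hne hb hb'
    rcases hc x x' hxx with h | h
    · exact key x x' hxx hne hb h
    · exact (key x' x hxx.symm hne.symm hb' h).symm
  have hsmall : ∀ x x', c x = c x' → ¬ big x → ¬ big x' → ¬ G.Adj x x' := by
    intro x x' hxx hb hb' hadj
    rcases hc x x' hxx with h | h
    · exact hb' ⟨x, hxx, hadj.symm, h⟩
    · exact hb ⟨x', hxx.symm, hadj, h⟩
  have hsame : ∀ x x' y, c x = c x' → c y = c x → x ≠ x' → x ≠ y → decide (big x) = decide (big x') →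
      decide (big y) = decide (big x) → G.Adj x y → G.Adj x x' := by
    intro x x' y hxx hyx hne hney he he' hxy
    by_cases h : big x
    · have h1 : big x' := by
        have := he.symm.trans (decide_eq_true h)
        exact of_decide_eq_true this
      exact hbig x x' hxx hne h h1
    · have h1 : ¬ big y := by
        have := he'.trans (decide_eq_false h)
        exact of_decide_eq_false this
      exact absurd hxy (hsmall x y hyx.symm h h1)
  refine ⟨fun x => decide (big x), ?_⟩
  intro x x' y z w hx hx' hy hz hw hxx hzy hwy h1 h2 h3 h4 h5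
  rw [hF] at h1 h2 h3 h4 h5 ⊢
  by_cases hne : x = x'
  · rw [hne]
    exact h5
  rcases hc x x' (hx.trans hx'.symm) with h | h
  · -- `x` below `x'`
    rcases h3 with h3 | h3
    · -- `z = x`
      subst h3
      exfalso
      have hyx : x ≠ y := by
        intro e
        rcases h2 with h2 | h2
        · exact hne (e.trans h2.symm)
        · exact h4 (Or.inr (e ▸ h2))
      have hxy : G.Adj x y := h1.resolve_left hyx
      have := hsame x x' y (hx.trans hx'.symm) (hy.trans hz.symm) hne hyx hxx hzy.symm hxy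
      exact h4 (Or.inr this.symm)
    · rcases h z h3 with h6 | h6
      · exact absurd (Or.inl h6.symm) h4
      · exact absurd (Or.inr h6) h4
  · rcases h5 with h5 | h5
    · subst h5
      by_cases hyx : x' = y
      · subst hyx
        exact h1
      · have hxy : G.Adj x' y := h2.resolve_left hyx
        have := hsame x' x y (hx'.trans hx.symm) (hy.trans hw.symm) (Ne.symm hne) hyx hxx.symm
          hwy.symm hxy
        exact Or.inr this.symm
    · rcases h w h5 with h6 | h6
      · exact Or.inl h6.symm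
      · exact Or.inr h6

end Pool.Agent.CwTw
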