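import Pool.Agent.CwTw.Defs

set_option autoImplicit false

/-!
# Uniform first-order definability
-/

namespace Pool.Agent.CwTw

open FirstOrder FirstOrder.Language

/-- Properties of tuples of vertices of graphs with unary predicates indexed by `ι`. -/
abbrev Prp (ι α : Type) : Type 1 :=
  ∀ (V : Type), SimpleGraph V → (ι → V → Prop) → (α → V) → Prop

/-- The colouring of the single copy which codes the predicates `ξ`. -/
noncomputable def cod {ι V : Type} [Fintype ι] (ξ : ι → V → Prop) :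
    Fin (Fintype.card ι) → V × Fin 1 → Prop := fun q p => ξ ((Fintype.equivFin ι).symm q) p.1

/-- The property is defined by one first-order formula, uniformly in the graph. -/
def UDef {ι α : Type} [Fintype ι] (P : Prp ι α) : Prop :=
  ∃ φ : (gLang (Fintype.card ι)).Formula α, ∀ (V : Type) (G : SimpleGraph V) (ξ : ι → V → Prop)
    (v : α → V), @Formula.Realize _ _ (gStr G 1 _ (cod ξ)) _ φ (fun i => (v i, 0)) ↔ P V G ξ v

/-- the adjacency symbol -/
def symAdj (c : ℕ) : (gLang c).Relations 2 := (GRel.adj : GRel c 2)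

/-- the colour symbols -/
def symCol (c : ℕ) (q : Fin c) : (gLang c).Relations 1 := (GRel.col q : GRel c 1)

section
variable {ι α : Type} [Fintype ι]

lemma UDef.congr {P Q : Prp ι α} (h : UDef P) (he : ∀ V G ξ v, P V G ξ v ↔ Q V G ξ v) :
    UDef Q := by
  obtain ⟨φ, hφ⟩ := h
  exact ⟨φ, fun V G ξ v => (hφ V G ξ v).trans (he V G ξ v)⟩

lemma UDef.adj (i j : α) : UDef (ι := ι) (fun _ G _ v => G.Adj (v i) (v j)) := by
  refine ⟨Relations.formula₂ (symAdj (Fintype.card ι)) (Term.var i) (Term.var j),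
    fun V G ξ v => ?_⟩
  let _inst := gStr G 1 _ (cod ξ)
  refine Formula.realize_rel₂.trans ?_
  show (G.Adj (v i) (v j) ∧ (0 : Fin 1) = 0) ↔ _
  simp

lemma UDef.eq (i j : α) : UDef (ι := ι) (fun _ _ _ v => v i = v j) := by
  refine ⟨Term.equal (L := gLang (Fintype.card ι)) (Term.var i) (Term.var j),
    fun V G ξ v => ?_⟩
  let _inst := gStr G 1 _ (cod ξ)
  rw [Formula.realize_equal]
  show ((v i, (0 : Fin 1)) = (v j, 0)) ↔ _
  simp

lemma UDef.col (q : ι) (i : α) : UDef (ι := ι) (fun _ _ ξ v => ξ q (v i)) := by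
  refine ⟨Relations.formula₁ (symCol (Fintype.card ι) (Fintype.equivFin ι q)) (Term.var i),
    fun V G ξ v => ?_⟩
  let _inst := gStr G 1 _ (cod ξ)
  refine Formula.realize_rel₁.trans ?_
  show cod ξ (Fintype.equivFin ι q) (v i, (0 : Fin 1)) ↔ _
  rw [cod, Equiv.symm_apply_apply]

lemma UDef.not {P : Prp ι α} (h : UDef P) : UDef (fun V G ξ v => ¬ P V G ξ v) := by
  obtain ⟨φ, hφ⟩ := h
  refine ⟨∼φ, fun V G ξ v => ?_⟩
  let _inst := gStr G 1 _ (cod ξ)
  rw [Formula.realize_not, hφ]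

lemma UDef.and {P Q : Prp ι α} (h : UDef P) (h' : UDef Q) :
    UDef (fun V G ξ v => P V G ξ v ∧ Q V G ξ v) := by
  obtain ⟨φ, hφ⟩ := h
  obtain ⟨ψ, hψ⟩ := h'
  refine ⟨φ ⊓ ψ, fun V G ξ v => ?_⟩
  let _inst := gStr G 1 _ (cod ξ)
  rw [Formula.realize_inf, hφ, hψ]

lemma UDef.or {P Q : Prp ι α} (h : UDef P) (h' : UDef Q) :
    UDef (fun V G ξ v => P V G ξ v ∨ Q V G ξ v) := by
  obtain ⟨φ, hφ⟩ := h
  obtain ⟨ψ, hψ⟩ := h'
  refine ⟨φ ⊔ ψ, fun V G ξ v => ?_⟩
  let _inst := gStr G 1 _ (cod ξ)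
  rw [Formula.realize_sup, hφ, hψ]

lemma UDef.imp {P Q : Prp ι α} (h : UDef P) (h' : UDef Q) :
    UDef (fun V G ξ v => P V G ξ v → Q V G ξ v) :=
  (h.not.or h').congr fun V G ξ v => by tauto

lemma UDef.ex {β : Type} [Finite β] {P : β → Prp ι α} (h : ∀ b, UDef (P b)) :
    UDef (fun V G ξ v => ∃ b, P b V G ξ v) := by
  choose φ hφ using h
  refine ⟨Formula.iSup φ, fun V G ξ v => ?_⟩
  let _inst := gStr G 1 _ (cod ξ)
  rw [Formula.realize_iSup]
  exact exists_congr fun b => hφ b V G ξ v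

lemma UDef.all {P : Prp ι (α ⊕ Unit)} (h : UDef P) :
    UDef (fun V G ξ (v : α → V) => ∀ z : V, P V G ξ (Sum.elim v fun _ => z)) := by
  obtain ⟨φ, hφ⟩ := h
  refine ⟨φ.iAlls Unit, fun V G ξ v => ?_⟩
  let _inst := gStr G 1 _ (cod ξ)
  rw [Formula.realize_iAlls]
  constructor
  · intro h z
    rw [← hφ]
    have h1 := h (fun _ => (z, 0))
    convert h1 using 1
    funext i
    rcases i with i | i <;> rfl
  · intro h i
    have h1 := (hφ V G ξ _).2 (h (i ()).1)
    convert h1 using 1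
    funext j
    rcases j with j | j
    · rfl
    · show i j = ((i ()).1, 0)
      obtain rfl : j = () := rfl
      exact Prod.ext rfl (Subsingleton.elim _ _)

end

/-- Extraction of a formula over the language with `card ι` colours. -/
lemma UDef.out {ι : Type} [Fintype ι] {P : Prp ι (Fin 2)} (h : UDef P) :
    ∃ φ : (gLang (Fintype.card ι)).Formula (Fin 2), ∀ (V : Type) (G : SimpleGraph V)
      (ξ : ι → V → Prop) (x y : V),
      rel2 G _ (fun q p => ξ ((Fintype.equivFin ι).symm q) p) φ x y ↔ P V G ξ ![x, y] := by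
  obtain ⟨φ, hφ⟩ := h
  refine ⟨φ, fun V G ξ x y => ?_⟩
  have h1 := hφ V G ξ ![x, y]
  have h2 : (fun i : Fin 2 => ((![x, y] : Fin 2 → V) i, (0 : Fin 1))) = ![(x, 0), (y, 0)] := by
    funext i
    fin_cases i <;> rfl
  rw [h2] at h1
  exact h1

end Pool.Agent.CwTw
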