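import Pool.Agent.CwTw.GSkel
import Pool.Agent.CwTw.UDef

set_option autoImplicit false

/-!
# The transduction onto the skeleton of definable laminar relations
-/

namespace Pool.Agent.CwTw

open FirstOrder FirstOrder.Language

/-- renaming the colours -/
def cmap {c c' : ℕ} (g : Fin c → Fin c') : gLang c →ᴸ gLang c' where
  onFunction := fun {_} f => Empty.elim f
  onRelation := fun {n} (r : GRel c n) => match n, r with
    | _, GRel.adj => (GRel.adj : GRel c' 2)
    | _, GRel.copy => (GRel.copy : GRel c' 2)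
    | _, GRel.col i => (GRel.col (g i) : GRel c' 1)

lemma realize_cmap {c c' : ℕ} (g : Fin c → Fin c') {V : Type} (G : SimpleGraph V) (k : ℕ)
    (χ : Fin c' → V × Fin k → Prop) {α : Type} (φ : (gLang c).Formula α) (v : α → V × Fin k) :
    @Formula.Realize _ _ (gStr G k c' χ) _ ((cmap g).onFormula φ) v ↔
      @Formula.Realize _ _ (gStr G k c fun i => χ (g i)) _ φ v := by
  let _i1 := gStr G k c' χ
  let _i2 := gStr G k c fun i => χ (g i)
  have : (cmap g).IsExpansionOn (V × Fin k) :=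
    { map_onFunction := fun {n} f _ => Empty.elim f
      map_onRelation := fun {n} (r : GRel c n) x => by
        cases r <;> rfl }
  exact LHom.realize_onFormula (cmap g) φ

lemma UDef.ofFormula {ι α : Type} [Fintype ι] {c : ℕ} (g : Fin c → ι)
    (φ : (gLang c).Formula (Fin 2)) (i j : α) :
    UDef (ι := ι) (fun _ G ξ v => rel2 G c (fun q => ξ (g q)) φ (v i) (v j)) := by
  refine ⟨(cmap fun q => Fintype.equivFin ι (g q)).onFormula (φ.relabel ![i, j]),
    fun V G ξ v => ?_⟩
  rw [realize_cmap]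
  let _inst := gStr G 1 c fun q => cod ξ (Fintype.equivFin ι (g q))
  rw [Formula.realize_relabel]
  have h1 : ((fun i => (v i, (0 : Fin 1))) ∘ ![i, j]) = ![(v i, 0), (v j, 0)] := by
    funext q
    fin_cases q <;> rfl
  have h2 : (fun q => cod ξ (Fintype.equivFin ι (g q))) =
      fun (q : Fin c) (p : V × Fin 1) => ξ (g q) p.1 := by
    funext q p
    rw [cod, Equiv.symm_apply_apply]
  rw [h1]
  show @Formula.Realize _ _ (gStr G 1 c fun q => cod ξ (Fintype.equivFin ι (g q))) _ φ _ ↔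
    @Formula.Realize _ _ (gStr G 1 c fun q p => ξ (g q) p.1) _ φ _
  rw [h2]

section
variable {c m : ℕ} (lam : Fin m → (gLang c).Formula (Fin 2)) (sig : (gLang c).Formula (Fin 2))

/-- The relations and the representatives in terms of the predicates. -/
def gR {V : Type} (G : SimpleGraph V) (ξ : Fin c ⊕ Fin m → V → Prop) :
    Fin m → V → V → Prop := fun i => rel2 G c (fun q => ξ (Sum.inl q)) (lam i)

def gS {V : Type} (G : SimpleGraph V) (ξ : Fin c ⊕ Fin m → V → Prop) : V → V → Prop :=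
  rel2 G c (fun q => ξ (Sum.inl q)) sig

def gP {V : Type} (ξ : Fin c ⊕ Fin m → V → Prop) : Fin m → V → Prop := fun i => ξ (Sum.inr i)

variable {α : Type}

lemma wR (a : Fin m) (i j : α) :
    UDef (ι := Fin c ⊕ Fin m) (fun _ G ξ v => gR lam G ξ a (v i) (v j)) :=
  UDef.ofFormula Sum.inl (lam a) i j

lemma wS (i j : α) :
    UDef (ι := Fin c ⊕ Fin m) (fun _ G ξ v => gS sig G ξ (v i) (v j)) :=
  UDef.ofFormula Sum.inl sig i j

lemma wP (a : Fin m) (i : α) :
    UDef (ι := Fin c ⊕ Fin m) (fun _ _ ξ v => gP ξ a (v i)) := UDef.col _ _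

lemma wSub (a : Fin m) (i j : α) :
    UDef (ι := Fin c ⊕ Fin m) (fun _ G ξ v => GSub (gR lam G ξ) a (v i) (v j)) :=
  UDef.all (P := fun _ G ξ v => gR lam G ξ a (v (Sum.inl i)) (v (Sum.inr ())) →
    gR lam G ξ a (v (Sum.inl j)) (v (Sum.inr ()))) ((wR lam a _ _).imp (wR lam a _ _))

lemma wStar (a : Fin m) (i j : α) :
    UDef (ι := Fin c ⊕ Fin m) (fun _ G ξ v => GStar (gR lam G ξ) (gP ξ) a (v i) (v j)) :=
  (wP a j).and ((wSub lam a i j).and (wSub lam a j i))

lemma wPar (a : Fin m) (i j : α) :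
    UDef (ι := Fin c ⊕ Fin m) (fun _ G ξ v => GPar (gR lam G ξ) (gP ξ) a (v i) (v j)) :=
  (wP a i).and ((wP a j).and (((wSub lam a i j).and (wSub lam a j i).not).and
    (UDef.all (P := fun _ G ξ v => (gP ξ a (v (Sum.inr ())) ∧
      GSub (gR lam G ξ) a (v (Sum.inl i)) (v (Sum.inr ())) ∧
      ¬ GSub (gR lam G ξ) a (v (Sum.inr ())) (v (Sum.inl i))) →
      GSub (gR lam G ξ) a (v (Sum.inl j)) (v (Sum.inr ())))
      (((wP a _).and ((wSub lam a _ _).and (wSub lam a _ _).not)).imp (wSub lam a _ _)))))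

lemma wAtt (a : Fin m) (i j : α) :
    UDef (ι := Fin c ⊕ Fin m) (fun _ G ξ v => GAtt (gR lam G ξ) (gP ξ) a (v i) (v j)) :=
  (wP a j).and ((wR lam a j i).and
    (UDef.all (P := fun _ G ξ v => (gP ξ a (v (Sum.inr ())) ∧
      gR lam G ξ a (v (Sum.inr ())) (v (Sum.inl i))) →
      GSub (gR lam G ξ) a (v (Sum.inl j)) (v (Sum.inr ())))
      (((wP a _).and (wR lam a _ _)).imp (wSub lam a _ _))))

lemma wOut (i j : α) :
    UDef (ι := Fin c ⊕ Fin m) (fun _ G ξ v =>
      GOut (gR lam G ξ) (gP ξ) (v i) (v j) ∨ gS sig G ξ (v i) (v j)) :=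
  (UDef.ex fun a => (wStar lam a i j).or ((wPar lam a i j).or (wAtt lam a i j))).or (wS sig i j)

end

/-- One transduction, without copying, which produces all induced subgraphs of the skeletons. -/
theorem exists_gtransduction (c m : ℕ) (lam : Fin m → (gLang c).Formula (Fin 2))
    (sig : (gLang c).Formula (Fin 2)) : ∃ T : Transduction, T.copies = 1 ∧
    ∀ (V : Type) (G : SimpleGraph V) (χ : Fin c → V → Prop) (rep : Fin m → V → Prop)
      (W : Type) (H : SimpleGraph W),
      Nonempty (H ↪g gskel (fun i => rel2 G c χ (lam i)) (rel2 G c χ sig) rep) → T.Maps G H := by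
  obtain ⟨φ, hφ⟩ := (wOut lam sig (0 : Fin 2) 1).or (wOut lam sig (1 : Fin 2) 0)
  refine ⟨⟨1, Fintype.card (Fin c ⊕ Fin m), ⊤, φ⟩, rfl, ?_⟩
  rintro V G χ rep W H ⟨e⟩
  let ξ : Fin c ⊕ Fin m → V → Prop := Sum.elim χ rep
  refine ⟨cod ξ, fun u => (e u, 0), ?_, ?_, ?_⟩
  · intro u v huv
    exact e.injective (congrArg Prod.fst huv)
  · intro u
    let _inst := gStr G 1 _ (cod ξ)
    exact (Formula.realize_top (L := gLang (Fintype.card (Fin c ⊕ Fin m)))
      (M := V × Fin 1)).2 trivial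
  · intro u v
    have h1 := hφ V G ξ ![e u, e v]
    have h2 : (fun i : Fin 2 => ((![e u, e v] : Fin 2 → V) i, (0 : Fin 1))) =
        ![(e u, 0), (e v, 0)] := by
      funext i
      fin_cases i <;> rfl
    rw [h2] at h1
    have h3 : ∀ p q, (gskel (fun i => rel2 G c χ (lam i)) (rel2 G c χ sig) rep).Adj p q ↔
        p ≠ q ∧ ((GOut (fun i => rel2 G c χ (lam i)) rep p q ∨ rel2 G c χ sig p q) ∨
          (GOut (fun i => rel2 G c χ (lam i)) rep q p ∨ rel2 G c χ sig q p)) :=
      fun p q => SimpleGraph.fromRel_adj _ _ _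
    rw [h1, ← e.map_adj_iff, h3, e.injective.ne_iff]
    exact Iff.rfl

end Pool.Agent.CwTw
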