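import Pool.Agent.CwTw.GMain
import Pool.Agent.CwTw.UDef

set_option autoImplicit false

/-!
# Graphs with laminar partitions are generated by definable laminar relations
-/

namespace Pool.Agent.CwTw

open FirstOrder FirstOrder.Language

/-- The unary predicates: colours, complementation flags, laminarity flags, sparseness flags. -/
abbrev LmI (k : ℕ) : Type := Fin k ⊕ (Fin k ⊕ (Fin k ⊕ Fin k))

section
variable {k : ℕ} {V : Type}

def qU (ξ : LmI k → V → Prop) (a : Fin k) (x : V) : Prop := ξ (Sum.inl a) x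

def qC (ξ : LmI k → V → Prop) (b : Fin k) (x : V) : Prop := ξ (Sum.inr (Sum.inl b)) x

def qL (ξ : LmI k → V → Prop) (b : Fin k) (x : V) : Prop := ξ (Sum.inr (Sum.inr (Sum.inl b))) x

def qS (ξ : LmI k → V → Prop) (b : Fin k) (x : V) : Prop := ξ (Sum.inr (Sum.inr (Sum.inr b))) x

/-- `FRel` in terms of the predicates. -/
def qF (G : SimpleGraph V) (ξ : LmI k → V → Prop) (x y : V) : Prop :=
  x = y ∨ (G.Adj x y ∧ ¬ ∃ b : Fin k, qU ξ b y ∧ qC ξ b x) ∨
    ((∃ b : Fin k, qU ξ b y ∧ qC ξ b x) ∧ ¬ G.Adj x y)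

/-- the laminar relation of a pair of colours -/
def qLam (G : SimpleGraph V) (a b : Fin k) (ξ : LmI k → V → Prop) (x y : V) : Prop :=
  qU ξ a x ∧ qL ξ b x ∧ qU ξ b y ∧ qF G ξ x y

/-- the sparse relation -/
def qSp (G : SimpleGraph V) (ξ : LmI k → V → Prop) (x y : V) : Prop :=
  ∃ b : Fin k, qS ξ b x ∧ qU ξ b y ∧ qF G ξ x y

end

section
variable {k : ℕ} {α : Type}

lemma vU (a : Fin k) (i : α) : UDef (ι := LmI k) (fun _ _ ξ v => qU ξ a (v i)) := UDef.col _ _
lemma vC (a : Fin k) (i : α) : UDef (ι := LmI k) (fun _ _ ξ v => qC ξ a (v i)) := UDef.col _ _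
lemma vL (a : Fin k) (i : α) : UDef (ι := LmI k) (fun _ _ ξ v => qL ξ a (v i)) := UDef.col _ _
lemma vS (a : Fin k) (i : α) : UDef (ι := LmI k) (fun _ _ ξ v => qS ξ a (v i)) := UDef.col _ _

lemma vF (i j : α) : UDef (ι := LmI k) (fun _ G ξ v => qF G ξ (v i) (v j)) := by
  have h : UDef (ι := LmI k) (fun _ _ ξ (v : α → _) => ∃ b : Fin k, qU ξ b (v j) ∧
      qC ξ b (v i)) := UDef.ex fun b => (vU b j).and (vC b i)
  exact (UDef.eq i j).or (((UDef.adj i j).and h.not).or (h.and (UDef.adj i j).not))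

lemma vLam (a b : Fin k) (i j : α) :
    UDef (ι := LmI k) (fun _ G ξ v => qLam G a b ξ (v i) (v j)) :=
  (vU a i).and ((vL b i).and ((vU b j).and (vF i j)))

lemma vSp (i j : α) : UDef (ι := LmI k) (fun _ G ξ v => qSp G ξ (v i) (v j)) :=
  UDef.ex fun b => (vS b i).and ((vU b j).and (vF i j))

end

section
variable {V : Type} {G : SimpleGraph V} {k : ℕ} {col : V → Fin k}
  {f : Fin k → Fin k → Prop} {t : ℕ}

/-- The predicates which code the data. -/
def lmξ (G : SimpleGraph V) (col : V → Fin k) (f : Fin k → Fin k → Prop) (t : ℕ) :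
    LmI k → V → Prop
  | Sum.inl a => fun x => col x = a
  | Sum.inr (Sum.inl b) => fun x => f (col x) b
  | Sum.inr (Sum.inr (Sum.inl b)) => fun x => LamPair G col f (col x) b
  | Sum.inr (Sum.inr (Sum.inr b)) => fun x => SpPair G col f t (col x) b

lemma FRel.symm (hf : ∀ a b, f a b → f b a) {x y : V} (h : FRel G col f x y) :
    FRel G col f y x := by
  rcases h with h | h
  · exact Or.inl h.symm
  · right
    have e : f (col y) (col x) ↔ f (col x) (col y) := ⟨hf _ _, hf _ _⟩
    unfold Xor at h ⊢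
    rw [G.adj_comm, e]
    exact h

lemma qF_iff {x y : V} : qF G (lmξ G col f t) x y ↔ FRel G col f x y := by
  have h : (∃ b : Fin k, qU (lmξ G col f t) b y ∧ qC (lmξ G col f t) b x) ↔
      f (col x) (col y) := by
    constructor
    · rintro ⟨b, h1, h2⟩
      have h3 : col y = b := h1
      rw [h3]
      exact h2
    · intro h
      exact ⟨col y, rfl, h⟩
  unfold qF FRel
  rw [h]
  exact Iff.rfl

lemma qLam_iff {a b : Fin k} {x y : V} : qLam G a b (lmξ G col f t) x y ↔
    col x = a ∧ LamPair G col f a b ∧ y ∈ nb G col f b x := by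
  unfold qLam
  rw [qF_iff]
  constructor
  · rintro ⟨h1, h2, h3, h4⟩
    have h1' : col x = a := h1
    have h2' : LamPair G col f (col x) b := h2
    exact ⟨h1', h1' ▸ h2', h3, h4⟩
  · rintro ⟨h1, h2, h3, h4⟩
    exact ⟨h1, (show LamPair G col f (col x) b from h1 ▸ h2), h3, h4⟩

lemma qSp_iff {x y : V} : qSp G (lmξ G col f t) x y ↔
    SpPair G col f t (col x) (col y) ∧ FRel G col f x y := by
  unfold qSp
  rw [qF_iff]
  constructor
  · rintro ⟨b, h2, h3, h4⟩
    have h3' : col y = b := h3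
    have h2' : SpPair G col f t (col x) b := h2
    exact ⟨h3' ▸ h2', h4⟩
  · rintro ⟨h2, h4⟩
    exact ⟨col y, h2, rfl, h4⟩

lemma qLam_laminar (a b : Fin k) : Laminar (qLam G a b (lmξ G col f t)) := by
  intro x x'
  by_cases h : col x = a ∧ col x' = a ∧ LamPair G col f a b
  · obtain ⟨h1, h2, h3⟩ := h
    rcases h3 x x' h1 h2 with h | h | h
    · left
      intro y hy hy'
      exact Set.disjoint_left.1 h (qLam_iff.1 hy).2.2 (qLam_iff.1 hy').2.2
    · right; left
      intro y hy
      exact qLam_iff.2 ⟨h2, h3, h (qLam_iff.1 hy).2.2⟩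
    · right; right
      intro y hy
      exact qLam_iff.2 ⟨h1, h3, h (qLam_iff.1 hy).2.2⟩
  · left
    intro y hy hy'
    exact h ⟨(qLam_iff.1 hy).1, (qLam_iff.1 hy').1, (qLam_iff.1 hy).2.1⟩

/-- the bound for the sparse part -/
def lbd (k t : ℕ) : ℕ := (k + 1) * (t + 1)

lemma qSp_free (hf : ∀ a b, f a b → f b a) :
    (completeBipartiteGraph (Fin (lbd k t)) (Fin (lbd k t))).Free
      (SimpleGraph.fromRel (qSp G (lmξ G col f t))) := by
  classical
  rintro ⟨F⟩
  set s := lbd k t with hs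
  let a : Fin s → V := fun i => F (Sum.inl i)
  let b : Fin s → V := fun j => F (Sum.inr j)
  have ha : Function.Injective a := fun i i' h => Sum.inl_injective (F.injective h)
  have hb : Function.Injective b := fun i i' h => Sum.inr_injective (F.injective h)
  have hab : ∀ i j, a i ≠ b j := fun i j h => Sum.inl_ne_inr (F.injective h)
  have hadj : ∀ i j, (SimpleGraph.fromRel (qSp G (lmξ G col f t))).Adj (a i) (b j) := by
    intro i j
    apply F.toHom.map_rel
    simp [completeBipartiteGraph]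
  have hspos : 0 < s := by
    rw [hs, lbd]; positivity
  have : Nonempty (Fin k) := ⟨col (a ⟨0, hspos⟩)⟩
  have hk0 : (Finset.univ : Finset (Fin k)).Nonempty := Finset.univ_nonempty
  have hks : (Finset.univ : Finset (Fin k)).card * (t + 1) ≤
      (Finset.univ : Finset (Fin s)).card := by
    rw [Finset.card_univ, Finset.card_univ, Fintype.card_fin, Fintype.card_fin, hs, lbd]
    exact Nat.mul_le_mul_right _ (Nat.le_succ k)
  obtain ⟨α, _, hα⟩ := Finset.exists_le_card_fiber_of_mul_le_card_of_maps_to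
    (f := fun i => col (a i)) (fun i _ => Finset.mem_univ _) hk0 hks
  obtain ⟨β, _, hβ⟩ := Finset.exists_le_card_fiber_of_mul_le_card_of_maps_to
    (f := fun i => col (b i)) (fun i _ => Finset.mem_univ _) hk0 hks
  obtain ⟨A, hA, hAc⟩ := Finset.exists_subset_card_eq
    (s := Finset.univ.filter fun i => col (a i) = α) (n := t) (by omega)
  obtain ⟨B, hB, hBc⟩ := Finset.exists_subset_card_eq
    (s := Finset.univ.filter fun i => col (b i) = β) (n := t) (by omega)
  have key : ∀ i j, col (a i) = α → col (b j) = β →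
      (SpPair G col f t α β ∨ SpPair G col f t β α) ∧ FRel G col f (a i) (b j) := by
    intro i j hi hj
    have h1 := hadj i j
    rw [SimpleGraph.fromRel_adj] at h1
    rcases h1.2 with h | h
    · rw [qSp_iff, hi, hj] at h
      exact ⟨Or.inl h.1, h.2⟩
    · rw [qSp_iff, hi, hj] at h
      exact ⟨Or.inr h.1, FRel.symm hf h.2⟩
  obtain ⟨i0, hi0⟩ : ∃ i, col (a i) = α := by
    have : 0 < (Finset.univ.filter fun i => col (a i) = α).card := by omega
    obtain ⟨i, hi⟩ := Finset.card_pos.1 this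
    exact ⟨i, by simpa using hi⟩
  obtain ⟨j0, hj0⟩ : ∃ j, col (b j) = β := by
    have : 0 < (Finset.univ.filter fun i => col (b i) = β).card := by omega
    obtain ⟨i, hi⟩ := Finset.card_pos.1 this
    exact ⟨i, by simpa using hi⟩
  have hAm : ∀ i ∈ A, col (a i) = α := fun i hi => by simpa using hA hi
  have hBm : ∀ i ∈ B, col (b i) = β := fun i hi => by simpa using hB hi
  have hdisj : Disjoint (A.image a) (B.image b) := by
    rw [Finset.disjoint_left]
    intro x hx hx'
    obtain ⟨i, _, rfl⟩ := Finset.mem_image.1 hx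
    obtain ⟨j, _, h⟩ := Finset.mem_image.1 hx'
    exact hab i j h.symm
  have hc1 : (A.image a).card = t := by rw [Finset.card_image_of_injective _ ha, hAc]
  have hc2 : (B.image b).card = t := by rw [Finset.card_image_of_injective _ hb, hBc]
  have hm1 : ∀ x ∈ A.image a, ∃ i, col (a i) = α ∧ x = a i := by
    intro x hx
    obtain ⟨i, hi, rfl⟩ := Finset.mem_image.1 hx
    exact ⟨i, hAm i hi, rfl⟩
  have hm2 : ∀ x ∈ B.image b, ∃ i, col (b i) = β ∧ x = b i := by
    intro x hx
    obtain ⟨i, hi, rfl⟩ := Finset.mem_image.1 hx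
    exact ⟨i, hBm i hi, rfl⟩
  rcases (key i0 j0 hi0 hj0).1 with h | h
  · refine h ⟨A.image a, B.image b, hc1, hc2, hdisj, ?_, ?_, ?_⟩
    · intro x hx
      obtain ⟨i, hi, rfl⟩ := hm1 x hx
      exact hi
    · intro x hx
      obtain ⟨i, hi, rfl⟩ := hm2 x hx
      exact hi
    · intro x hx y hy
      obtain ⟨i, hi, rfl⟩ := hm1 x hx
      obtain ⟨j, hj, rfl⟩ := hm2 y hy
      exact (key i j hi hj).2
  · refine h ⟨B.image b, A.image a, hc2, hc1, hdisj.symm, ?_, ?_, ?_⟩
    · intro x hx
      obtain ⟨i, hi, rfl⟩ := hm2 x hx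
      exact hi
    · intro x hx
      obtain ⟨i, hi, rfl⟩ := hm1 x hx
      exact hi
    · intro y hy x hx
      obtain ⟨i, hi, rfl⟩ := hm1 x hx
      obtain ⟨j, hj, rfl⟩ := hm2 y hy
      exact FRel.symm hf (key i j hi hj).2

end

/-- Graphs with laminar partitions are generated by definable laminar relations. -/
theorem lamPart_lamGen (k t : ℕ) : ∃ (c m t' : ℕ) (lam : Fin m → (gLang c).Formula (Fin 2))
    (sig : (gLang c).Formula (Fin 2)), ∀ (V : Type) (G : SimpleGraph V), LamPart G k t →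
      LamGen G t' lam sig := by
  choose φ hφ using fun i : Fin (k * k) =>
    (vLam (finProdFinEquiv.symm i).1 (finProdFinEquiv.symm i).2 (0 : Fin 2) 1).out
  obtain ⟨ψ, hψ⟩ := (vSp (k := k) (0 : Fin 2) 1).out
  refine ⟨_, k * k, lbd k t, φ, ψ, ?_⟩
  rintro V G ⟨col, f, hf, tri⟩
  have e1 : ∀ i, rel2 G _ (fun q p => lmξ G col f t ((Fintype.equivFin (LmI k)).symm q) p) (φ i) =
      qLam G (finProdFinEquiv.symm i).1 (finProdFinEquiv.symm i).2 (lmξ G col f t) := by
    intro i
    funext x y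
    exact propext (hφ i V G (lmξ G col f t) x y)
  have e2 : rel2 G _ (fun q p => lmξ G col f t ((Fintype.equivFin (LmI k)).symm q) p) ψ =
      qSp G (lmξ G col f t) := by
    funext x y
    exact propext (hψ V G (lmξ G col f t) x y)
  refine ⟨fun q p => lmξ G col f t ((Fintype.equivFin (LmI k)).symm q) p, ?_, ?_, ?_⟩
  · intro i
    rw [e1]
    exact qLam_laminar _ _
  · rw [e2]
    exact qSp_free hf
  · intro x x' y hxy hxy' h1 h2 h3 h4 h5
    have h0 : ∀ a, qU (lmξ G col f t) a x ↔ qU (lmξ G col f t) a x' := by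
      intro a
      have := h1 (Fintype.equivFin (LmI k) (Sum.inl a))
      beta_reduce at this
      rw [Equiv.symm_apply_apply] at this
      exact this
    have hc : col x = col x' := ((h0 (col x)).1 rfl).symm
    simp only [e1] at h2 h3
    rw [e2] at h4 h5
    suffices hmain : FRel G col f x y ↔ FRel G col f x' y by
      unfold FRel at hmain
      rw [or_iff_right hxy, or_iff_right hxy', ← hc] at hmain
      unfold Xor at hmain
      tauto
    rcases tri (col x) (col y) with hl | hl | hl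
    · have h := h2 (finProdFinEquiv (col x, col y))
      rw [Equiv.symm_apply_apply, qLam_iff, qLam_iff] at h
      constructor
      · intro hF
        exact (h.1 ⟨rfl, hl, rfl, hF⟩).2.2.2
      · intro hF
        exact (h.2 ⟨hc.symm, hl, rfl, hF⟩).2.2.2
    · have h := h3 (finProdFinEquiv (col y, col x))
      rw [Equiv.symm_apply_apply, qLam_iff, qLam_iff] at h
      constructor
      · intro hF
        exact FRel.symm hf (h.1 ⟨rfl, hl, rfl, FRel.symm hf hF⟩).2.2.2
      · intro hF
        exact FRel.symm hf (h.2 ⟨rfl, hl, hc.symm, FRel.symm hf hF⟩).2.2.2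
    · rw [qSp_iff, qSp_iff] at h4
      constructor
      · intro hF
        exact (h4.1 ⟨hl, hF⟩).2
      · intro hF
        exact (h4.2 ⟨hc ▸ hl, hF⟩).2

theorem lamPart_dichotomy (k t : ℕ) :
    ∃ (T : Transduction) (s : ℕ), T.copies = 1 ∧ ∀ C : GraphClass,
      (∀ n, ∀ G ∈ C n, LamPart G k t) → Dichotomy T s C := by
  obtain ⟨c, m, t', lam, sig, h⟩ := lamPart_lamGen k t
  obtain ⟨T, s, h1, h2⟩ := lamGen_dichotomy t' lam sig
  exact ⟨T, s, h1, fun C hC => h2 C fun n G hG => h _ G (hC n G hG)⟩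

end Pool.Agent.CwTw
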