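import Pool.Agent.CwTw.GSparse
import Pool.Agent.CwTw.GFO

set_option autoImplicit false

/-!
# The dichotomy for classes generated by definable laminar relations
-/

namespace Pool.Agent.CwTw

open FirstOrder FirstOrder.Language

theorem lamGen_dichotomy {c m : ℕ} (t : ℕ) (lam : Fin m → (gLang c).Formula (Fin 2))
    (sig : (gLang c).Formula (Fin 2)) :
    ∃ (T : Transduction) (s : ℕ), T.copies = 1 ∧ ∀ C : GraphClass,
      (∀ n, ∀ G ∈ C n, LamGen G t lam sig) → Dichotomy T s C := by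
  obtain ⟨T, hT, hmaps⟩ := exists_gtransduction c m lam sig
  refine ⟨T, gbd m t, hT, fun C hC => ?_⟩
  by_cases hb : BddCw C
  · exact Or.inl hb
  right
  let D : GraphClass := fun n => {H | ∃ n', ∃ G ∈ C n', ∃ (χ : Fin c → Fin n' → Prop)
    (rep : Fin m → Fin n' → Prop),
    (completeBipartiteGraph (Fin t) (Fin t)).Free (SimpleGraph.fromRel (rel2 G c χ sig)) ∧
    (∀ i, RepOK (fun i => rel2 G c χ (lam i)) rep i) ∧
    Nonempty (H ↪g gskel (fun i => rel2 G c χ (lam i)) (rel2 G c χ sig) rep)}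
  refine ⟨D, ?_, ?_, ?_, ?_⟩
  · rintro n m' G' H ⟨n', G, hG, χ, rep, h1, h2, ⟨e⟩⟩ ⟨e'⟩
    exact ⟨n', G, hG, χ, rep, h1, h2, ⟨e.comp e'⟩⟩
  · rintro n H ⟨n', G, hG, χ, rep, h1, h2, ⟨e⟩⟩ ⟨F⟩
    exact gskel_free h2 h1 ⟨e.toCopy.comp F⟩
  · rintro ⟨w, hw⟩
    apply hb
    refine ⟨3 * Fintype.card (GCode c m (w + 1)), fun n G hG => ?_⟩
    obtain ⟨χ, h1, h2, h3⟩ := hC n G hG
    obtain ⟨rep, hrep⟩ := exists_rep (fun i => rel2 G c χ (lam i))
    refine cw_of_gskel (S := rel2 G c χ sig) h1 hrep h3 (hw n _ ?_)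
    exact ⟨n, G, hG, χ, rep, h2, hrep, ⟨SimpleGraph.Embedding.refl⟩⟩
  · rintro n H ⟨n', G, hG, χ, rep, h1, h2, he⟩
    exact ⟨n', G, hG, hmaps (Fin n') G χ rep (Fin n) H he⟩

end Pool.Agent.CwTw
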