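import Pool.Agent.CwTw.Elim

set_option autoImplicit false

/-!
# The skeleton of a family of laminar relations
-/

namespace Pool.Agent.CwTw

open Finset Classical

section
variable {V : Type} {m : ℕ} (R : Fin m → V → V → Prop) (S : V → V → Prop)
  (rep : Fin m → V → Prop)

def GSub (i : Fin m) (x y : V) : Prop := ∀ z, R i x z → R i y z

def GStar (i : Fin m) (x y : V) : Prop := rep i y ∧ GSub R i x y ∧ GSub R i y x

def GPar (i : Fin m) (x y : V) : Prop :=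
  rep i x ∧ rep i y ∧ (GSub R i x y ∧ ¬ GSub R i y x) ∧
    ∀ z, (rep i z ∧ GSub R i x z ∧ ¬ GSub R i z x) → GSub R i y z

def GAtt (i : Fin m) (x y : V) : Prop :=
  rep i y ∧ R i y x ∧ ∀ z, (rep i z ∧ R i z x) → GSub R i y z

def GOut (x y : V) : Prop := ∃ i, GStar R rep i x y ∨ GPar R rep i x y ∨ GAtt R rep i x y

/-- the skeleton -/
def gskel : SimpleGraph V := SimpleGraph.fromRel fun x y => GOut R rep x y ∨ S x y

/-- the conditions on the representatives -/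
def RepOK (i : Fin m) : Prop :=
  (∀ x, ∃ r, rep i r ∧ GSub R i x r ∧ GSub R i r x) ∧
    ∀ x y, rep i x → rep i y → GSub R i x y → GSub R i y x → x = y

variable {R S rep}

lemma GSub.refl (i : Fin m) (x : V) : GSub R i x x := fun _ h => h

lemma GSub.trans {i : Fin m} {x y z : V} (h : GSub R i x y) (h' : GSub R i y z) :
    GSub R i x z := fun u hu => h' u (h u hu)

lemma gskel_adj {x y : V} (h : x ≠ y) (h' : GOut R rep x y ∨ S x y) :
    (gskel R S rep).Adj x y := by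
  rw [gskel, SimpleGraph.fromRel_adj]
  exact ⟨h, Or.inl h'⟩

variable [Fintype V]

lemma gexists_least (i : Fin m) (P : V → Prop) (hne : ∃ p, P p)
    (hch : ∀ p q, P p → P q → GSub R i p q ∨ GSub R i q p) :
    ∃ p, P p ∧ ∀ q, P q → GSub R i p q := by
  obtain ⟨p0, hp0⟩ := hne
  obtain ⟨p, hp, hmin⟩ := Finset.exists_min_image
    (Finset.univ.filter fun p => P p) (fun p => ({y | R i p y} : Set V).ncard) ⟨p0, by simp [hp0]⟩
  simp only [Finset.mem_filter, Finset.mem_univ, true_and] at hp hmin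
  refine ⟨p, hp, fun q hq => ?_⟩
  rcases hch p q hp hq with h | h
  · exact h
  · have h1 : ({y | R i q y} : Set V) ⊆ {y | R i p y} := fun y hy => h y hy
    have := Set.eq_of_subset_of_ncard_le h1 (hmin q hq) (Set.toFinite _)
    intro z hz
    have h2 : z ∈ ({y | R i p y} : Set V) := hz
    rw [← this] at h2
    exact h2

lemma gexists_att {i : Fin m} (hl : Laminar (R i)) {y r : V} (hy : R i r y) (hr : rep i r) :
    ∃ p, GAtt R rep i y p := by
  obtain ⟨p, hp, hmin⟩ := gexists_least (R := R) i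
    (fun p => rep i p ∧ R i p y) ⟨r, hr, hy⟩ (by
      rintro p q ⟨h1, h2⟩ ⟨h4, h5⟩
      rcases hl p q with h | h | h
      · exact absurd h5 (h y h2)
      · exact Or.inl h
      · exact Or.inr h)
  exact ⟨p, hp.1, hp.2, fun z hz => hmin z hz⟩

lemma gexists_par {i : Fin m} (hl : Laminar (R i)) (hu : RepOK R rep i) {p r y : V}
    (hp : rep i p) (hr : rep i r) (hy : R i p y) (hpr : GSub R i p r) (hne : p ≠ r) :
    ∃ q, GPar R rep i p q ∧ GSub R i q r := by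
  have hnr : ¬ GSub R i r p := fun h => hne (hu.2 p r hp hr hpr h)
  obtain ⟨q, hq, hmin⟩ := gexists_least (R := R) i
    (fun q => rep i q ∧ GSub R i p q ∧ ¬ GSub R i q p) ⟨r, hr, hpr, hnr⟩ (by
      rintro q q' ⟨h2, h3, h3'⟩ ⟨h5, h6, h6'⟩
      rcases hl q q' with h | h | h
      · exact absurd (h6 y hy) (h y (h3 y hy))
      · exact Or.inl h
      · exact Or.inr h)
  exact ⟨q, ⟨hp, hq.1, hq.2, fun z hz => hmin z hz⟩, hmin r ⟨hr, hpr, hnr⟩⟩

lemma gncard_lt {i : Fin m} {x y : V} (h : GSub R i x y) (h' : ¬ GSub R i y x) :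
    ({z | R i x z} : Set V).ncard < ({z | R i y z} : Set V).ncard :=
  Set.ncard_lt_ncard ⟨fun z hz => h z hz, fun hh => h' fun z hz => hh hz⟩ (Set.toFinite _)

variable {X Z : Finset V} (hX : ∀ x ∈ X, ∀ y, y ∉ X → (gskel R S rep).Adj x y → y ∈ Z)

include hX in
lemma glam_left {i : Fin m} (hl : Laminar (R i)) (hu : RepOK R rep i) {x y : V} (hx : x ∈ X)
    (hy : y ∉ X) (hyZ : y ∉ Z) :
    R i x y ↔ ∃ z ∈ Z, (z ∉ X ∧ rep i z ∧ GSub R i z x) ∧ R i z y := by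
  constructor
  swap
  · rintro ⟨z, _, ⟨_, _, h⟩, h'⟩
    exact h y h'
  intro hyx
  obtain ⟨r, hr, hxr, hrx⟩ := hu.1 x
  by_cases hrX : r ∈ X
  swap
  · have hne : x ≠ r := fun h => hrX (h ▸ hx)
    have hadj : (gskel R S rep).Adj x r := gskel_adj hne (Or.inl ⟨i, Or.inl ⟨hr, hxr, hrx⟩⟩)
    exact ⟨r, hX x hx r hrX hadj, ⟨hrX, hr, hrx⟩, hxr y hyx⟩
  have hyr : R i r y := hxr y hyx
  obtain ⟨p0, hp0⟩ := gexists_att hl hyr hr
  have hp0X : p0 ∉ X := by
    intro h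
    have hne : y ≠ p0 := fun e => hy (e ▸ h)
    have hadj : (gskel R S rep).Adj y p0 := gskel_adj hne (Or.inl ⟨i, Or.inr (Or.inr hp0)⟩)
    exact hyZ (hX p0 h y hy hadj.symm)
  obtain ⟨p, hp, hmax⟩ := Finset.exists_max_image
    (Finset.univ.filter fun p => rep i p ∧ R i p y ∧ GSub R i p r ∧ p ∉ X)
    (fun p => ({z | R i p z} : Set V).ncard)
    ⟨p0, by
      simp only [Finset.mem_filter, Finset.mem_univ, true_and]
      exact ⟨hp0.1, hp0.2.1, hp0.2.2 r ⟨hr, hyr⟩, hp0X⟩⟩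
  simp only [Finset.mem_filter, Finset.mem_univ, true_and] at hp hmax
  obtain ⟨hpR, hpy, hpr, hpX⟩ := hp
  have hne : p ≠ r := fun h => hpX (h ▸ hrX)
  obtain ⟨q, hq, hqr⟩ := gexists_par hl hu hpR hr hpy hpr hne
  have hqX : q ∈ X := by
    by_contra hqX
    have h1 := hmax q ⟨hq.2.1, hq.2.2.1.1 y hpy, hqr, hqX⟩
    have h2 := gncard_lt hq.2.2.1.1 hq.2.2.1.2
    omega
  have hqp : p ≠ q := fun h => hpX (h ▸ hqX)
  have hadj : (gskel R S rep).Adj p q := gskel_adj hqp (Or.inl ⟨i, Or.inr (Or.inl hq)⟩)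
  exact ⟨p, hX q hqX p hpX hadj.symm, ⟨hpX, hpR, hpr.trans hrx⟩, hpy⟩

include hX in
lemma glam_right {i : Fin m} (hl : Laminar (R i)) (hu : RepOK R rep i) {x y : V} (hx : x ∈ X)
    (hy : y ∉ X) (hyZ : y ∉ Z) :
    R i y x ↔ ∃ z ∈ Z, (z ∉ X ∧ rep i z ∧ R i z x) ∧ GSub R i z y := by
  constructor
  swap
  · rintro ⟨z, _, ⟨_, _, h⟩, h'⟩
    exact h' x h
  intro hxy
  obtain ⟨r, hr, hyr, hry⟩ := hu.1 y
  have hrX : r ∉ X := by
    intro h
    have hne : y ≠ r := fun e => hy (e ▸ h)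
    have hadj : (gskel R S rep).Adj y r := gskel_adj hne (Or.inl ⟨i, Or.inl ⟨hr, hyr, hry⟩⟩)
    exact hyZ (hX r h y hy hadj.symm)
  have hxr : R i r x := hyr x hxy
  obtain ⟨p0, hp0⟩ := gexists_att hl hxr hr
  have hp0r : GSub R i p0 r := hp0.2.2 r ⟨hr, hxr⟩
  by_cases hp0X : p0 ∈ X
  swap
  · have hne : x ≠ p0 := fun e => hp0X (e ▸ hx)
    have hadj : (gskel R S rep).Adj x p0 := gskel_adj hne (Or.inl ⟨i, Or.inr (Or.inr hp0)⟩)
    exact ⟨p0, hX x hx p0 hp0X hadj, ⟨hp0X, hp0.1, hp0.2.1⟩, hp0r.trans hry⟩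
  obtain ⟨p, hp, hmax⟩ := Finset.exists_max_image
    (Finset.univ.filter fun p => rep i p ∧ R i p x ∧ GSub R i p r ∧ p ∈ X)
    (fun p => ({z | R i p z} : Set V).ncard)
    ⟨p0, by
      simp only [Finset.mem_filter, Finset.mem_univ, true_and]
      exact ⟨hp0.1, hp0.2.1, hp0r, hp0X⟩⟩
  simp only [Finset.mem_filter, Finset.mem_univ, true_and] at hp hmax
  obtain ⟨hpR, hpx, hpr, hpX⟩ := hp
  have hne : p ≠ r := fun h => hrX (h ▸ hpX)
  obtain ⟨q, hq, hqr⟩ := gexists_par hl hu hpR hr hpx hpr hne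
  have hqX : q ∉ X := by
    intro hqX
    have h1 := hmax q ⟨hq.2.1, hq.2.2.1.1 x hpx, hqr, hqX⟩
    have h2 := gncard_lt hq.2.2.1.1 hq.2.2.1.2
    omega
  have hqp : p ≠ q := fun h => hqX (h ▸ hpX)
  have hadj : (gskel R S rep).Adj p q := gskel_adj hqp (Or.inl ⟨i, Or.inr (Or.inl hq)⟩)
  exact ⟨q, hX p hpX q hqX hadj, ⟨hqX, hq.2.1, hq.2.2.1.1 x hpx⟩, hqr.trans hry⟩

end

lemma exists_enum {V : Type} [Nonempty V] {w : ℕ} {Z : Finset V} (h : Z.card ≤ w) :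
    ∃ z : Fin w → V, ∀ x ∈ Z, ∃ i, z i = x := by
  obtain ⟨v0⟩ := ‹Nonempty V›
  let e : Z ≃ Fin Z.card := Z.equivFin
  refine ⟨fun i => if h : i.1 < Z.card then (e.symm ⟨i.1, h⟩ : V) else v0, fun x hx => ?_⟩
  refine ⟨⟨(e ⟨x, hx⟩).1, lt_of_lt_of_le (e ⟨x, hx⟩).2 h⟩, ?_⟩
  simp

/-- the codes of the vertices of a set `X` -/
abbrev GCode (c m w : ℕ) : Type :=
  (Fin c → Prop) × (Fin m → Fin w → Prop) × (Fin m → Fin w → Prop) × (Fin w → Prop)

section
variable {V : Type} [Fintype V] {c m : ℕ} {G : SimpleGraph V} {χ : Fin c → V → Prop}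
  {R : Fin m → V → V → Prop} {S : V → V → Prop} {rep : Fin m → V → Prop}

/-- The sets with small boundary in the skeleton have few neighbourhoods outside. -/
theorem gthin_code [Nonempty V] (hl : ∀ i, Laminar (R i)) (hu : ∀ i, RepOK R rep i)
    (hdet : Det G χ R S) {w : ℕ} {X : Finset V} (h : Thin (gskel R S rep) w X) :
    ∃ τ : V → GCode c m w, Tr G X τ := by
  obtain ⟨Z, hZ, hX⟩ := h
  obtain ⟨z, hz⟩ := exists_enum hZ
  let τ : V → GCode c m w := fun x =>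
    (fun i => χ i x, fun j i => z i ∈ Z ∧ z i ∉ X ∧ rep j (z i) ∧ GSub R j (z i) x,
      fun j i => z i ∈ Z ∧ z i ∉ X ∧ rep j (z i) ∧ R j (z i) x,
      fun i => G.Adj x (z i))
  refine ⟨τ, ?_⟩
  intro x hx x' hx' he y hy
  have e1 : ∀ i, χ i x ↔ χ i x' := fun i =>
    iff_of_eq (congrFun (congrArg Prod.fst he) i)
  have e2 : ∀ j i, (z i ∈ Z ∧ z i ∉ X ∧ rep j (z i) ∧ GSub R j (z i) x) ↔
      (z i ∈ Z ∧ z i ∉ X ∧ rep j (z i) ∧ GSub R j (z i) x') := by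
    intro j i
    exact iff_of_eq (congrFun (congrFun (congrArg (fun p => p.2.1) he) j) i)
  have e3 : ∀ j i, (z i ∈ Z ∧ z i ∉ X ∧ rep j (z i) ∧ R j (z i) x) ↔
      (z i ∈ Z ∧ z i ∉ X ∧ rep j (z i) ∧ R j (z i) x') := by
    intro j i
    exact iff_of_eq (congrFun (congrFun (congrArg (fun p => p.2.2.1) he) j) i)
  have e4 : ∀ i, G.Adj x (z i) ↔ G.Adj x' (z i) := by
    intro i
    exact iff_of_eq (congrFun (congrArg (fun p => p.2.2.2) he) i)
  by_cases hyZ : y ∈ Z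
  · obtain ⟨i, rfl⟩ := hz y hyZ
    exact e4 i
  have hxy : x ≠ y := fun e => hy (e ▸ hx)
  have hxy' : x' ≠ y := fun e => hy (e ▸ hx')
  have hno : ∀ u ∈ X, ¬ S u y ∧ ¬ S y u := by
    intro u hu'
    have hne : u ≠ y := fun e => hy (e ▸ hu')
    constructor
    · intro h
      exact hyZ (hX u hu' y hy (gskel_adj hne (Or.inr h)))
    · intro h
      exact hyZ (hX u hu' y hy (gskel_adj hne.symm (Or.inr h)).symm)
  refine hdet x x' y hxy hxy' e1 ?_ ?_ ?_ ?_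
  · intro j
    rw [glam_left hX (hl j) (hu j) hx hy hyZ, glam_left hX (hl j) (hu j) hx' hy hyZ]
    constructor
    · rintro ⟨v, hv, h1, h2⟩
      obtain ⟨i, rfl⟩ := hz v hv
      obtain ⟨_, h3⟩ := (e2 j i).1 ⟨hv, h1⟩
      exact ⟨z i, hv, h3, h2⟩
    · rintro ⟨v, hv, h1, h2⟩
      obtain ⟨i, rfl⟩ := hz v hv
      obtain ⟨_, h3⟩ := (e2 j i).2 ⟨hv, h1⟩
      exact ⟨z i, hv, h3, h2⟩
  · intro j
    rw [glam_right hX (hl j) (hu j) hx hy hyZ, glam_right hX (hl j) (hu j) hx' hy hyZ]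
    constructor
    · rintro ⟨v, hv, h1, h2⟩
      obtain ⟨i, rfl⟩ := hz v hv
      obtain ⟨_, h3⟩ := (e3 j i).1 ⟨hv, h1⟩
      exact ⟨z i, hv, h3, h2⟩
    · rintro ⟨v, hv, h1, h2⟩
      obtain ⟨i, rfl⟩ := hz v hv
      obtain ⟨_, h3⟩ := (e3 j i).2 ⟨hv, h1⟩
      exact ⟨z i, hv, h3, h2⟩
  · exact iff_of_false (hno x hx).1 (hno x' hx').1
  · exact iff_of_false (hno x hx).2 (hno x' hx').2

/-- Bounded treewidth of the skeleton implies bounded cliquewidth. -/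
theorem cw_of_gskel (hl : ∀ i, Laminar (R i)) (hu : ∀ i, RepOK R rep i)
    (hdet : Det G χ R S) {w : ℕ} (h : TwLE (gskel R S rep) w) :
    CwLE G (3 * Fintype.card (GCode c m (w + 1))) := by
  rcases isEmpty_or_nonempty V with hV | hV
  · exact Or.inl hV
  have : Nonempty (GCode c m (w + 1)) :=
    ⟨(fun _ => True, fun _ _ => True, fun _ _ => True, fun _ => True)⟩
  exact Lay.cwLE G (fun X hX => gthin_code hl hu hdet hX) (lay_of_tw h)

/-- Representatives exist. -/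
theorem exists_rep (R : Fin m → V → V → Prop) :
    ∃ rep : Fin m → V → Prop, ∀ i, RepOK R rep i := by
  let enc : V ≃ Fin (Fintype.card V) := Fintype.equivFin V
  refine ⟨fun i x => ∀ y, GSub R i x y → GSub R i y x → enc x ≤ enc y, fun i => ⟨?_, ?_⟩⟩
  · intro x
    obtain ⟨r, hr, hmin⟩ := Finset.exists_min_image
      (Finset.univ.filter fun r => GSub R i x r ∧ GSub R i r x) enc
      ⟨x, by simp [GSub.refl]⟩
    simp only [Finset.mem_filter, Finset.mem_univ, true_and] at hr hmin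
    refine ⟨r, ?_, hr.1, hr.2⟩
    intro y h1 h2
    exact hmin y ⟨hr.1.trans h1, h2.trans hr.2⟩
  · intro x y hx hy h1 h2
    exact enc.injective (le_antisymm (hx y h1 h2) (hy x h2 h1))

end

end Pool.Agent.CwTw
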