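import Pool.Agent.CwTw.GSkel

set_option autoImplicit false

/-!
# The skeleton is weakly sparse
-/

namespace Pool.Agent.CwTw

open Finset Classical

section
variable {V : Type} [Fintype V] {m : ℕ} {R : Fin m → V → V → Prop} {S : V → V → Prop}
  {rep : Fin m → V → Prop} {t : ℕ}

lemma card_le_of_unique' (Q : Fin m → V → Prop) (h : ∀ b y y', Q b y → Q b y' → y = y') :
    (Finset.univ.filter fun y => ∃ b, Q b y).card ≤ m := by
  have h1 : (Finset.univ.filter fun y => ∃ b, Q b y) ⊆
      (Finset.univ : Finset (Fin m)).biUnion fun b => Finset.univ.filter fun y => Q b y := by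
    intro y hy
    simp only [Finset.mem_filter, Finset.mem_univ, true_and] at hy
    obtain ⟨b, hb⟩ := hy
    exact Finset.mem_biUnion.2 ⟨b, Finset.mem_univ _, by simpa using hb⟩
  refine (Finset.card_le_card h1).trans ?_
  refine (Finset.card_biUnion_le_card_mul _ _ 1 ?_).trans (by simp)
  intro b _
  refine Finset.card_le_one.2 ?_
  intro y hy y' hy'
  simp only [Finset.mem_filter, Finset.mem_univ, true_and] at hy hy'
  exact h b y y' hy hy'

lemma gout_card (hu : ∀ i, RepOK R rep i) (x : V) :
    (Finset.univ.filter fun y => GOut R rep x y).card ≤ 3 * m := by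
  have h1 : (Finset.univ.filter fun y => GOut R rep x y) ⊆
      (Finset.univ.filter fun y => ∃ b, GStar R rep b x y) ∪
      ((Finset.univ.filter fun y => ∃ b, GPar R rep b x y) ∪
      (Finset.univ.filter fun y => ∃ b, GAtt R rep b x y)) := by
    intro y hy
    simp only [Finset.mem_filter, Finset.mem_univ, true_and] at hy
    obtain ⟨b, hb | hb | hb⟩ := hy
    · exact Finset.mem_union_left _ (by simpa using ⟨b, hb⟩)
    · exact Finset.mem_union_right _ (Finset.mem_union_left _ (by simpa using ⟨b, hb⟩))
    · exact Finset.mem_union_right _ (Finset.mem_union_right _ (by simpa using ⟨b, hb⟩))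
  have a1 := card_le_of_unique' (fun b y => GStar R rep b x y)
    (fun b y y' h h' => (hu b).2 y y' h.1 h'.1 (h.2.2.trans h'.2.1) (h'.2.2.trans h.2.1))
  have a2 := card_le_of_unique' (fun b y => GPar R rep b x y)
    (fun b y y' h h' => (hu b).2 y y' h.2.1 h'.2.1
      (h.2.2.2 y' ⟨h'.2.1, h'.2.2.1⟩) (h'.2.2.2 y ⟨h.2.1, h.2.2.1⟩))
  have a3 := card_le_of_unique' (fun b y => GAtt R rep b x y)
    (fun b y y' h h' => (hu b).2 y y' h.1 h'.1
      (h.2.2 y' ⟨h'.1, h'.2.1⟩) (h'.2.2 y ⟨h.1, h.2.1⟩))
  have h2 := (Finset.card_le_card h1).trans ((Finset.card_union_le _ _).trans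
    (Nat.add_le_add_left (Finset.card_union_le _ _) _))
  omega

/-- the size of the excluded balanced complete bipartite graphs -/
def gbd (m t : ℕ) : ℕ := (3 * m + 1) * ((3 * m + 1) * (t + 1))

theorem gskel_free (hu : ∀ i, RepOK R rep i)
    (hS : (completeBipartiteGraph (Fin t) (Fin t)).Free (SimpleGraph.fromRel S)) :
    (completeBipartiteGraph (Fin (gbd m t)) (Fin (gbd m t))).Free (gskel R S rep) := by
  rintro ⟨F⟩
  set s := gbd m t with hs
  set d := 3 * m with hd
  set T := t + 1 with hT
  let a : Fin s → V := fun i => F (Sum.inl i)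
  let b : Fin s → V := fun j => F (Sum.inr j)
  have ha : Function.Injective a := fun i i' h => Sum.inl_injective (F.injective h)
  have hb : Function.Injective b := fun i i' h => Sum.inr_injective (F.injective h)
  have hab : ∀ i j, a i ≠ b j := fun i j h => Sum.inl_ne_inr (F.injective h)
  have hadj : ∀ i j, (gskel R S rep).Adj (a i) (b j) := by
    intro i j
    apply F.toHom.map_rel
    simp [completeBipartiteGraph]
  obtain ⟨A1, _, hA1c⟩ := Finset.exists_subset_card_eq
    (s := (Finset.univ : Finset (Fin s))) (n := (d + 1) * T) (by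
      rw [Finset.card_univ, Fintype.card_fin, hs, gbd]
      exact Nat.le_mul_of_pos_left _ (Nat.succ_pos d))
  let B1 : Finset (Fin s) := (Finset.univ : Finset (Fin s)).filter
    fun j => ∀ i ∈ A1, ¬ GOut R rep (a i) (b j)
  have hB1 : (d + 1) * T ≤ B1.card := by
    have h1 : (Finset.univ : Finset (Fin s)) ⊆
        B1 ∪ A1.biUnion fun i => Finset.univ.filter fun j => GOut R rep (a i) (b j) := by
      intro j hj
      by_cases h : ∀ i ∈ A1, ¬ GOut R rep (a i) (b j)
      · exact Finset.mem_union_left _ (Finset.mem_filter.2 ⟨hj, h⟩)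
      · push Not at h
        obtain ⟨i, hi, hij⟩ := h
        exact Finset.mem_union_right _ (Finset.mem_biUnion.2 ⟨i, hi, by simpa using hij⟩)
    have h2 : (A1.biUnion fun i => Finset.univ.filter fun j => GOut R rep (a i) (b j)).card ≤
        A1.card * d := by
      refine Finset.card_biUnion_le_card_mul _ _ d ?_
      intro i _
      refine le_trans ?_ (gout_card hu (a i))
      refine Finset.card_le_card_of_injOn b ?_ hb.injOn
      intro j hj
      have hj' : GOut R rep (a i) (b j) := by simpa using hj
      simpa using hj'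
    have h3 := (Finset.card_le_card h1).trans (Finset.card_union_le _ _)
    rw [hA1c] at h2
    rw [Finset.card_univ, Fintype.card_fin] at h3
    have h4 : (d + 1) * ((d + 1) * T) ≤ B1.card + (d + 1) * T * d := by
      refine le_trans (le_of_eq ?_) (h3.trans (Nat.add_le_add_left h2 _))
      rw [hs, gbd]
    nlinarith
  have e : A1 ≃ Fin (d + 1) × Fin T := by
    refine Fintype.equivOfCardEq ?_
    rw [Fintype.card_coe, hA1c, Fintype.card_prod, Fintype.card_fin, Fintype.card_fin]
  have hblock : ∀ j, ∃ c : Fin (d + 1), ∀ u : Fin T,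
      ¬ GOut R rep (b j) (a (e.symm (c, u))) := by
    intro j
    by_contra hcon
    push Not at hcon
    choose u hu' using hcon
    have h1 : Fintype.card (Fin (d + 1)) ≤
        (Finset.univ.filter fun y => GOut R rep (b j) y).card := by
      rw [← Finset.card_univ]
      refine Finset.card_le_card_of_injOn (fun c => a (e.symm (c, u c))) ?_ ?_
      · intro c _
        have := hu' c
        simpa using this
      · intro c _ c' _ hcc
        have h2 := e.symm.injective (Subtype.ext (ha hcc))
        exact congrArg Prod.fst h2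
    have h2 := gout_card hu (b j)
    rw [Fintype.card_fin] at h1
    omega
  choose blk hblk using hblock
  obtain ⟨c, _, hc⟩ := Finset.exists_le_card_fiber_of_mul_le_card_of_maps_to
    (s := B1) (t := (Finset.univ : Finset (Fin (d + 1)))) (f := blk) (n := T)
    (fun i _ => Finset.mem_univ _) Finset.univ_nonempty (by
      rw [Finset.card_univ, Fintype.card_fin]; exact hB1)
  obtain ⟨B2, hB2, hB2c⟩ := Finset.exists_subset_card_eq
    (s := B1.filter fun j => blk j = c) (n := T) hc
  have e2 : B2 ≃ Fin T := by
    refine Fintype.equivOfCardEq ?_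
    rw [Fintype.card_coe, hB2c, Fintype.card_fin]
  have hB2m : ∀ j ∈ B2, blk j = c ∧ ∀ i ∈ A1, ¬ GOut R rep (a i) (b j) := by
    intro j hj
    have h1 := Finset.mem_filter.1 (hB2 hj)
    exact ⟨h1.2, (Finset.mem_filter.1 h1.1).2⟩
  let aa : Fin t → V := fun u => a (e.symm (c, u.castSucc))
  let bb : Fin t → V := fun u => b (e2.symm u.castSucc)
  have haa : Function.Injective aa := by
    intro u u' h
    have h2 := e.symm.injective (Subtype.ext (ha h))
    exact Fin.castSucc_injective _ (congrArg Prod.snd h2)
  have hbb : Function.Injective bb := by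
    intro u u' h
    have h2 := e2.symm.injective (Subtype.ext (hb h))
    exact Fin.castSucc_injective _ h2
  have key : ∀ u u', (SimpleGraph.fromRel S).Adj (aa u) (bb u') := by
    intro u u'
    have hj := (e2.symm u'.castSucc).2
    have hi := (e.symm (c, u.castSucc)).2
    obtain ⟨hjc, hno⟩ := hB2m _ hj
    have h1 := hadj (e.symm (c, u.castSucc)) (e2.symm u'.castSucc)
    rw [gskel, SimpleGraph.fromRel_adj] at h1
    rw [SimpleGraph.fromRel_adj]
    refine ⟨h1.1, ?_⟩
    rcases h1.2 with (h | h) | (h | h)
    · exact absurd h (hno _ hi)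
    · exact Or.inl h
    · exfalso
      have := hblk (e2.symm u'.castSucc) u.castSucc
      rw [hjc] at this
      exact this h
    · exact Or.inr h
  refine hS ⟨⟨⟨Sum.elim aa bb, ?_⟩, ?_⟩⟩
  · rintro (x | x) (y | y) hxy
    · simp at hxy
    · exact key x y
    · exact (key y x).symm
    · simp at hxy
  · rintro (x | x) (y | y) hxy
    · exact congrArg Sum.inl (haa hxy)
    · exact absurd hxy (hab _ _)
    · exact absurd hxy.symm (hab _ _)
    · exact congrArg Sum.inr (hbb hxy)

end

end Pool.Agent.CwTw
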