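import Pool.Agent.CwTw.FamDefs

set_option autoImplicit false

/-!
# Interval graphs without a disjoint union of `k` cliques on `k` vertices
-/

namespace Pool.Agent.CwTw

open Finset Classical

section
variable {V : Type} (l r : V → ℝ)

/-- A set of pairwise intersecting intervals. -/
def ICl (K : Finset V) : Prop := ∀ x ∈ K, ∀ y ∈ K, l x ≤ r y

lemma interval_colouring (hlr : ∀ x, l x ≤ r x) (m : ℕ) (W : Finset V) :
    (∀ K ⊆ W, K.card = m + 1 → ¬ ICl l r K) → ∃ c : V → ℕ, (∀ x ∈ W, c x < m) ∧
      ∀ x ∈ W, ∀ y ∈ W, x ≠ y → c x = c y → ¬ (l x ≤ r y ∧ l y ≤ r x) := by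
  induction W using Finset.induction_on_max_value l with
  | empty =>
    intro _
    exact ⟨fun _ => 0, fun x hx => absurd hx (Finset.notMem_empty x),
      fun x hx => absurd hx (Finset.notMem_empty x)⟩
  | insert a s ha hmax ih =>
    intro hK
    obtain ⟨c, h1, h2⟩ := ih (fun K hKs => hK K (hKs.trans (Finset.subset_insert a s)))
    let Nb := s.filter fun x => l a ≤ r x
    have hNs : Nb ⊆ s := Finset.filter_subset _ _
    have haN : a ∉ Nb := fun h => ha (hNs h)
    have hcl : ICl l r (insert a Nb) := by
      intro x hx y hy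
      rcases Finset.mem_insert.1 hx with rfl | hx
      · rcases Finset.mem_insert.1 hy with rfl | hy
        · exact hlr _
        · exact (Finset.mem_filter.1 hy).2
      · have hx1 := hmax x (hNs hx)
        rcases Finset.mem_insert.1 hy with rfl | hy
        · exact hx1.trans (hlr _)
        · exact hx1.trans (Finset.mem_filter.1 hy).2
    have hcard : Nb.card < m := by
      by_contra hcon
      have h3 : m + 1 ≤ (insert a Nb).card := by
        rw [Finset.card_insert_of_notMem haN]
        omega
      obtain ⟨K, hK1, hK2⟩ := Finset.exists_subset_card_eq h3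
      refine hK K (hK1.trans (Finset.insert_subset_insert a hNs)) hK2 ?_
      exact fun x hx y hy => hcl x (hK1 hx) y (hK1 hy)
    have hi : ∃ i ∈ Finset.range m, i ∉ Nb.image c := by
      by_contra hcon
      push Not at hcon
      have h3 : (Finset.range m).card ≤ (Nb.image c).card := Finset.card_le_card hcon
      rw [Finset.card_range] at h3
      exact absurd (h3.trans Finset.card_image_le) (not_le.2 hcard)
    obtain ⟨i, hi1, hi2⟩ := hi
    rw [Finset.mem_range] at hi1
    have hnew : ∀ y ∈ s, c y = i → ¬ (l a ≤ r y) := by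
      intro y hy hcy hay
      exact hi2 (Finset.mem_image.2 ⟨y, Finset.mem_filter.2 ⟨hy, hay⟩, hcy⟩)
    have hne : ∀ y ∈ s, y ≠ a := fun y hy e => ha (e ▸ hy)
    refine ⟨Function.update c a i, ?_, ?_⟩
    · intro x hx
      rcases Finset.mem_insert.1 hx with rfl | hx
      · rw [Function.update_self]
        exact hi1
      · rw [Function.update_of_ne (hne x hx)]
        exact h1 x hx
    · intro x hx y hy hxy hc
      rcases Finset.mem_insert.1 hx with rfl | hxs
      · rcases Finset.mem_insert.1 hy with rfl | hy
        · exact absurd rfl hxy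
        · rw [Function.update_self, Function.update_of_ne (hne y hy)] at hc
          exact fun h => hnew y hy hc.symm h.1
      · rcases Finset.mem_insert.1 hy with rfl | hy
        · rw [Function.update_self, Function.update_of_ne (hne x hxs)] at hc
          exact fun h => hnew x hxs hc h.2
        · rw [Function.update_of_ne (hne x hxs), Function.update_of_ne (hne y hy)] at hc
          exact h2 x hxs y hy hxy hc

lemma interval_cochromatic (hlr : ∀ x, l x ≤ r x) (m : ℕ) : ∀ (j : ℕ) (W : Finset V),
    (¬ ∃ K : Fin j → Finset V, (∀ i, K i ⊆ W ∧ (K i).card = m + 1 ∧ ICl l r (K i)) ∧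
      ∀ i i', i < i' → ∀ x ∈ K i, ∀ y ∈ K i', r x < l y) →
    ∃ c : V → ℕ, (∀ x ∈ W, c x < j * (m + 1)) ∧
      ∀ a, (∀ x ∈ W, ∀ y ∈ W, c x = a → c y = a → l x ≤ r y) ∨
        (∀ x ∈ W, ∀ y ∈ W, c x = a → c y = a → x = y ∨ r x < l y ∨ r y < l x) := by
  intro j
  induction j with
  | zero =>
    intro W h
    exact absurd ⟨fun i => i.elim0, fun i => i.elim0, fun i => i.elim0⟩ h
  | succ j ih =>
    intro W h
    let X := W.filter fun x => ∃ K ⊆ W, K.card = m + 1 ∧ ICl l r K ∧ ∀ y ∈ K, r y ≤ r x
    by_cases hX : X.Nonempty
    · obtain ⟨x0, hx0, hmin⟩ := Finset.exists_min_image X r hX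
      let p := r x0
      obtain ⟨K0, hK0, hK0c, hK0i, hK0r⟩ := (Finset.mem_filter.1 hx0).2
      let W1 := W.filter fun y => r y < p
      let W3 := W.filter fun y => p < l y
      have hW1 : ∀ K ⊆ W1, K.card = m + 1 → ¬ ICl l r K := by
        intro K hK hKc hKi
        have hne : K.Nonempty := by
          rw [← Finset.card_pos]
          omega
        obtain ⟨x, hx, hxm⟩ := Finset.exists_max_image K r hne
        have h1 : x ∈ X := Finset.mem_filter.2 ⟨(Finset.mem_filter.1 (hK hx)).1,
          K, hK.trans (Finset.filter_subset _ _), hKc, hKi, hxm⟩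
        exact absurd (hmin x h1) (not_le.2 (Finset.mem_filter.1 (hK hx)).2)
      obtain ⟨c1, h1, h2⟩ := interval_colouring l r hlr m W1 hW1
      obtain ⟨c3, h3, h4⟩ := ih W3 (by
        rintro ⟨K, hK1, hK2⟩
        refine h ⟨Fin.cons K0 K, ?_, ?_⟩
        · intro i
          refine Fin.cases ?_ (fun i => ?_) i
          · exact ⟨hK0, hK0c, hK0i⟩
          · exact ⟨(hK1 i).1.trans (Finset.filter_subset _ _), (hK1 i).2⟩
        · intro i i'
          refine Fin.cases ?_ (fun i => ?_) i
          · refine Fin.cases ?_ (fun i' => ?_) i'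
            · intro h5
              exact absurd h5 (lt_irrefl _)
            · intro _ x hx y hy
              exact lt_of_le_of_lt (hK0r x hx) (Finset.mem_filter.1 ((hK1 i').1 hy)).2
          · refine Fin.cases ?_ (fun i' => ?_) i'
            · intro h5
              exact absurd h5 (Fin.not_lt_zero _)
            · intro h5 x hx y hy
              exact hK2 i i' (Fin.succ_lt_succ_iff.1 h5) x hx y hy)
      let c : V → ℕ := fun y => if r y < p then c1 y else if l y ≤ p then m else c3 y + (m + 1)
      have hm1 : ∀ x ∈ W, r x < p → x ∈ W1 := fun x hx h => Finset.mem_filter.2 ⟨hx, h⟩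
      have hm3 : ∀ x ∈ W, ¬ r x < p → ¬ l x ≤ p → x ∈ W3 := fun x hx _ h =>
        Finset.mem_filter.2 ⟨hx, not_le.1 h⟩
      refine ⟨c, ?_, ?_⟩
      · intro x hx
        show (if r x < p then c1 x else if l x ≤ p then m else c3 x + (m + 1)) < _
        have e : (j + 1) * (m + 1) = j * (m + 1) + (m + 1) := by ring
        rw [e]
        split_ifs with h5 h6
        · have := h1 x (hm1 x hx h5)
          omega
        · omega
        · have := h3 x (hm3 x hx h5 h6)
          omega
      · intro a
        rcases lt_trichotomy a m with ham | ham | ham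
        · right
          have hin : ∀ x ∈ W, c x = a → x ∈ W1 ∧ c1 x = a := by
            intro x hx hcx
            have : (if r x < p then c1 x else if l x ≤ p then m else c3 x + (m + 1)) = a := hcx
            split_ifs at this with h5 h6
            · exact ⟨hm1 x hx h5, this⟩
            · omega
            · omega
          intro x hx y hy hcx hcy
          obtain ⟨hx1, hx2⟩ := hin x hx hcx
          obtain ⟨hy1, hy2⟩ := hin y hy hcy
          by_cases hxy : x = y
          · exact Or.inl hxy
          · have := h2 x hx1 y hy1 hxy (hx2.trans hy2.symm)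
            right
            by_contra hcon
            push Not at hcon
            exact this ⟨hcon.2, hcon.1⟩
        · left
          have hin : ∀ x ∈ W, c x = a → l x ≤ p ∧ p ≤ r x := by
            intro x hx hcx
            have : (if r x < p then c1 x else if l x ≤ p then m else c3 x + (m + 1)) = a := hcx
            split_ifs at this with h5 h6
            · have := h1 x (hm1 x hx h5)
              omega
            · exact ⟨h6, not_lt.1 h5⟩
            · omega
          intro x hx y hy hcx hcy
          exact (hin x hx hcx).1.trans (hin y hy hcy).2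
        · have hin : ∀ x ∈ W, c x = a → x ∈ W3 ∧ c3 x = a - (m + 1) := by
            intro x hx hcx
            have : (if r x < p then c1 x else if l x ≤ p then m else c3 x + (m + 1)) = a := hcx
            split_ifs at this with h5 h6
            · have := h1 x (hm1 x hx h5)
              omega
            · omega
            · exact ⟨hm3 x hx h5 h6, by omega⟩
          rcases h4 (a - (m + 1)) with h5 | h5
          · left
            intro x hx y hy hcx hcy
            obtain ⟨hx1, hx2⟩ := hin x hx hcx
            obtain ⟨hy1, hy2⟩ := hin y hy hcy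
            exact h5 x hx1 y hy1 hx2 hy2
          · right
            intro x hx y hy hcx hcy
            obtain ⟨hx1, hx2⟩ := hin x hx hcx
            obtain ⟨hy1, hy2⟩ := hin y hy hcy
            exact h5 x hx1 y hy1 hx2 hy2
    · have hW : ∀ K ⊆ W, K.card = m + 1 → ¬ ICl l r K := by
        intro K hK hKc hKi
        have hne : K.Nonempty := by
          rw [← Finset.card_pos]
          omega
        obtain ⟨x, hx, hxm⟩ := Finset.exists_max_image K r hne
        exact hX ⟨x, Finset.mem_filter.2 ⟨hK hx, K, hK, hKc, hKi, hxm⟩⟩
      obtain ⟨c, h1, h2⟩ := interval_colouring l r hlr m W hW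
      refine ⟨c, ?_, fun a => Or.inr ?_⟩
      · intro x hx
        have e : (j + 1) * (m + 1) = j * (m + 1) + (m + 1) := by ring
        have := h1 x hx
        omega
      · intro x hx y hy hcx hcy
        by_cases hxy : x = y
        · exact Or.inl hxy
        · have := h2 x hx y hy hxy (hcx.trans hcy.symm)
          right
          by_contra hcon
          push Not at hcon
          exact this ⟨hcon.2, hcon.1⟩

end

/-- An interval graph without an induced disjoint union of `k` cliques on `k` vertices is the
union of `k * k` cliques and independent sets. -/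
theorem intervalUnion_of_noCliques {V : Type} [Finite V] {G : SimpleGraph V} {k : ℕ}
    (h : IntervalNoCliques G k) : IntervalUnion G (k * k) := by
  obtain ⟨l, r, hlr, hG, hno⟩ := h
  have : Fintype V := Fintype.ofFinite V
  rcases Nat.eq_zero_or_pos k with rfl | hk
  · exfalso
    exact hno ⟨fun p => p.1.elim0, fun p => p.1.elim0, fun i => i.elim0⟩
  obtain ⟨m, rfl⟩ : ∃ m, k = m + 1 := ⟨k - 1, by omega⟩
  obtain ⟨c, h1, h2⟩ := interval_cochromatic l r hlr m (m + 1) Finset.univ (by
    rintro ⟨K, hK1, hK2⟩
    apply hno
    let e : Fin (m + 1) × Fin (m + 1) → V := fun p =>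
      ((Finset.equivFinOfCardEq (hK1 p.1).2.1).symm p.2).1
    have he : ∀ p, e p ∈ K p.1 := fun p => ((Finset.equivFinOfCardEq (hK1 p.1).2.1).symm p.2).2
    have hsep : ∀ p q : Fin (m + 1) × Fin (m + 1), p.1 ≠ q.1 → r (e p) < l (e q) ∨
        r (e q) < l (e p) := by
      intro p q hpq
      rcases lt_or_gt_of_ne hpq with h3 | h3
      · exact Or.inl (hK2 _ _ h3 _ (he p) _ (he q))
      · exact Or.inr (hK2 _ _ h3 _ (he q) _ (he p))
    refine ⟨e, ?_, ?_⟩
    · rintro ⟨i, j⟩ ⟨i', j'⟩ h3
      by_cases hi : i = i'
      · subst hi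
        have h4 : (Finset.equivFinOfCardEq (hK1 i).2.1).symm j =
            (Finset.equivFinOfCardEq (hK1 i).2.1).symm j' := Subtype.ext h3
        rw [(Finset.equivFinOfCardEq (hK1 i).2.1).symm.injective h4]
      · exfalso
        rcases hsep (i, j) (i', j') hi with h4 | h4
        · rw [h3] at h4
          exact absurd (hlr _) (not_le.2 h4)
        · rw [h3] at h4
          exact absurd (hlr _) (not_le.2 h4)
    · rintro i j i' j' hne
      rw [hG]
      constructor
      · rintro ⟨_, h3, h4⟩
        by_contra hi
        rcases hsep (i, j) (i', j') hi with h5 | h5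
        · exact absurd h4 (not_le.2 h5)
        · exact absurd h3 (not_le.2 h5)
      · rintro rfl
        refine ⟨?_, (hK1 i).2.2 _ (he (i, j)) _ (he (i, j')),
          (hK1 i).2.2 _ (he (i, j')) _ (he (i, j))⟩
        intro h3
        have h4 : (Finset.equivFinOfCardEq (hK1 i).2.1).symm j =
            (Finset.equivFinOfCardEq (hK1 i).2.1).symm j' := Subtype.ext h3
        exact hne (by rw [(Finset.equivFinOfCardEq (hK1 i).2.1).symm.injective h4]))
  refine ⟨l, r, fun x => ⟨c x, h1 x (Finset.mem_univ x)⟩, hlr, hG, ?_⟩
  intro a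
  have hc : ∀ x, (⟨c x, h1 x (Finset.mem_univ x)⟩ : Fin ((m + 1) * (m + 1))) = a → c x = a.1 :=
    fun x hx => congrArg Fin.val hx
  rcases h2 a.1 with h3 | h3
  · left
    intro x y hx hy
    exact h3 x (Finset.mem_univ x) y (Finset.mem_univ y) (hc x hx) (hc y hy)
  · right
    intro x y hx hy
    have e1 := hlr x
    have e2 := hlr y
    rcases h3 x (Finset.mem_univ x) y (Finset.mem_univ y) (hc x hx) (hc y hy) with rfl | h4 | h4
    · exact Or.inl ⟨le_refl _, le_refl _⟩
    · left
      constructor <;> linarith
    · right
      constructor <;> linarith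

end Pool.Agent.CwTw
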