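import Pool.Agent.CwTw.Defs

set_option autoImplicit false

/-!
# Laminar partitions from pairs of classes
-/

namespace Pool.Agent.CwTw

/-- For the colouring `γ` (a refinement), the sets `R x ∩ W ∩ {colour c}`, for the vertices `x` of
`U` of one colour, are laminar. -/
def PairLam {V K : Type} (R : V → V → Prop) (U W : V → Prop) (γ : V → K) : Prop :=
  ∀ x x' y z w : V, U x → U x' → W y → W z → W w → γ x = γ x' → γ z = γ y → γ w = γ y →
    R x y → R x' y → R x z → ¬ R x' z → R x' w → R x w

/-- If every pair of classes has its own refinement with at most `card K` colours which makes it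
laminar, then there is a laminar partition. -/
theorem lamPart_of_pairs (k : ℕ) (K : Type) [Fintype K] : ∃ N : ℕ, ∀ (V : Type)
    (G : SimpleGraph V) (t : ℕ) (col : V → Fin k) (f : Fin k → Fin k → Prop),
    (∀ a b, f a b → f b a) →
    (∀ a b, ∃ γ : V → K, PairLam (FRel G col f) (fun x => col x = a) (fun x => col x = b) γ) →
    LamPart G N t := by
  classical
  refine ⟨Fintype.card (Fin k × (Fin k → Fin k → K)), ?_⟩
  intro V G t col f hf h
  choose γ hγ using h
  let e := Fintype.equivFin (Fin k × (Fin k → Fin k → K))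
  let col' : V → Fin (Fintype.card (Fin k × (Fin k → Fin k → K))) :=
    fun x => e (col x, fun a b => γ a b x)
  let f' : Fin (Fintype.card (Fin k × (Fin k → Fin k → K))) →
      Fin (Fintype.card (Fin k × (Fin k → Fin k → K))) → Prop :=
    fun p q => f (e.symm p).1 (e.symm q).1
  have hF : ∀ x y, FRel G col' f' x y ↔ FRel G col f x y := by
    intro x y
    have h1 : f' (col' x) (col' y) = f (col x) (col y) := by
      show f (e.symm (e _)).1 (e.symm (e _)).1 = _
      rw [Equiv.symm_apply_apply, Equiv.symm_apply_apply]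
    unfold FRel
    rw [h1]
  refine ⟨col', f', fun p q hpq => hf _ _ hpq, fun p q => Or.inl ?_⟩
  intro x x' hx hx'
  by_contra hcon
  push Not at hcon
  obtain ⟨h1, h2, h3⟩ := hcon
  obtain ⟨y, hy1, hy2⟩ := Set.not_disjoint_iff.1 h1
  obtain ⟨z, hz1, hz2⟩ := Set.not_subset.1 h2
  obtain ⟨w, hw1, hw2⟩ := Set.not_subset.1 h3
  have ex : (col x, fun a b => γ a b x) = (col x', fun a b => γ a b x') :=
    e.injective (hx.trans hx'.symm)
  have ez : (col z, fun a b => γ a b z) = (col y, fun a b => γ a b y) :=
    e.injective (hz1.1.trans hy1.1.symm)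
  have ew : (col w, fun a b => γ a b w) = (col y, fun a b => γ a b y) :=
    e.injective (hw1.1.trans hy1.1.symm)
  have cx := congrArg Prod.fst ex
  have cz := congrArg Prod.fst ez
  have cw := congrArg Prod.fst ew
  have gx := congrFun (congrFun (congrArg Prod.snd ex) (col x)) (col y)
  have gz := congrFun (congrFun (congrArg Prod.snd ez) (col x)) (col y)
  have gw := congrFun (congrFun (congrArg Prod.snd ew) (col x)) (col y)
  refine hw2 ⟨hw1.1, (hF _ _).2 ?_⟩
  exact hγ (col x) (col y) x x' y z w rfl cx.symm rfl cz cw gx gz gw ((hF _ _).1 hy1.2)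
    ((hF _ _).1 hy2.2) ((hF _ _).1 hz1.2) (fun hh => hz2 ⟨hz1.1, (hF _ _).2 hh⟩)
    ((hF _ _).1 hw1.2)

end Pool.Agent.CwTw
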