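import Mathlib

set_option autoImplicit false

/-!
# Graphs without splits
-/

namespace Pool.Agent.CwTw

/-- The edges between `A` and its complement form a complete bipartite graph between a subset
of `A` and a subset of the complement. -/
def SplitSet {V : Type} (G : SimpleGraph V) (A : Set V) : Prop :=
  ∀ a ∈ A, ∀ a' ∈ A, ∀ b, b ∉ A → ∀ b', b' ∉ A → G.Adj a b → G.Adj a' b' → G.Adj a b'

/-- The graph `G` is prime with respect to splits: it has at least four vertices, and there is no
partition of its vertices into two sets `A`, `B` with at least two elements such that the edges
between them form a complete bipartite graph between a subset of `A` and a subset of `B`. -/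
def SplitPrime {V : Type} (G : SimpleGraph V) : Prop :=
  4 ≤ Nat.card V ∧ ∀ A : Set V, SplitSet G A → A.Subsingleton ∨ Aᶜ.Subsingleton

end Pool.Agent.CwTw
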