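import Pool.Agent.CwTw.Expr
import Pool.Agent.CwTw.SplitDefs

set_option autoImplicit false

/-!
# Splits and cliquewidth: it is enough to look at the graphs without a split
-/

namespace Pool.Agent.CwTw

open Finset Classical

lemma SplitSet.compl {V : Type} {G : SimpleGraph V} {A : Set V} (h : SplitSet G A) :
    SplitSet G Aᶜ := by
  intro a ha a' ha' b hb b' hb' h1 h2
  rw [Set.mem_compl_iff, not_not] at hb hb'
  exact (h b' hb' b hb a' ha' a ha h2.symm h1.symm).symm

/-- There are at most `card M` different nonempty neighbourhoods outside `X` of the vertices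
of `X`. -/
def NTr {V : Type} (G : SimpleGraph V) (M : Type) (X : Set V) : Prop :=
  ∃ τ : V → M, ∀ x ∈ X, ∀ x' ∈ X, (∃ y, y ∉ X ∧ G.Adj x y) → (∃ y, y ∉ X ∧ G.Adj x' y) →
    τ x = τ x' → ∀ y, y ∉ X → (G.Adj x y ↔ G.Adj x' y)

def Bal {V : Type} (G : SimpleGraph V) (M : Type) (X : Finset V) : Prop :=
  NTr G M {x | x ∈ X} ∧ NTr G M {x | x ∉ X}

lemma Bal.compl {V : Type} {G : SimpleGraph V} {M : Type} (X Z : Finset V)
    (hZ : ∀ x, x ∈ Z ↔ x ∉ X) (h : Bal G M X) : Bal G M Z := by
  have e1 : {x | x ∈ Z} = {x | x ∉ X} := Set.ext hZ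
  have e2 : {x | x ∉ Z} = {x | x ∈ X} := Set.ext fun x => by
    rw [Set.mem_ofPred_eq, hZ, not_not]
    exact Iff.rfl
  unfold Bal
  rw [e1, e2]
  exact ⟨h.2, h.1⟩

lemma bal_single {V : Type} (G : SimpleGraph V) (M : Type) [Nonempty M] (v : V) :
    Bal G M {v} := by
  obtain ⟨m⟩ := ‹Nonempty M›
  refine ⟨⟨fun _ => m, ?_⟩, ⟨fun _ => m, ?_⟩⟩
  · intro x hx x' hx' _ _ _ y _
    rw [Set.mem_ofPred_eq, Finset.mem_singleton] at hx hx'
    rw [hx, hx']
  · rintro x hx x' hx' ⟨y, hy, hxy⟩ ⟨y', hy', hxy'⟩ _ z hz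
    simp only [Set.mem_ofPred_eq, Finset.mem_singleton, not_not] at hy hy' hz
    subst hy hy' hz
    exact iff_of_true hxy hxy'

lemma bal_all {V : Type} (G : SimpleGraph V) (M : Type) [Nonempty M] (X : Finset V)
    (hX : ∀ x, x ∈ X) : Bal G M X := by
  obtain ⟨m⟩ := ‹Nonempty M›
  refine ⟨⟨fun _ => m, ?_⟩, ⟨fun _ => m, ?_⟩⟩
  · intro x hx x' hx' _ _ _ y hy
    exact absurd (hX y) hy
  · intro x hx
    exact absurd (hX x) hx

lemma Lay.prop {V : Type} {P : Finset V → Prop} (hs : ∀ v, P {v}) {X : Finset V} (h : Lay P X) :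
    P X := by
  cases h with
  | single v => exact hs v
  | union _ h _ _ => exact h

lemma Lay.mono {V : Type} {P Q : Finset V → Prop} (hPQ : ∀ X, P X → Q X) {X : Finset V}
    (h : Lay P X) : Lay Q X := by
  induction h with
  | single v => exact Lay.single v
  | union hd hP _ _ ih1 ih2 => exact Lay.union hd (hPQ _ hP) ih1 ih2

lemma Lay.map {V W : Type} (f : V ↪ W) {P : Finset V → Prop} {Q : Finset W → Prop}
    {X : Finset V} (h : Lay P X) : (∀ Y ⊆ X, P Y → Q (Y.map f)) → Lay Q (X.map f) := by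
  induction h with
  | single v =>
    intro _
    rw [Finset.map_singleton]
    exact Lay.single _
  | @union X Y hd hP _ _ ih1 ih2 =>
    intro hQ
    have h1 := hQ _ (subset_refl _) hP
    rw [Finset.map_union] at h1 ⊢
    refine Lay.union ?_ h1 (ih1 fun Z hZ => hQ Z (hZ.trans Finset.subset_union_left))
      (ih2 fun Z hZ => hQ Z (hZ.trans Finset.subset_union_right))
    rw [Finset.disjoint_map]
    exact hd

/-- A layout can be rooted at any vertex. -/
lemma Lay.reroot {V : Type} [Fintype V] {P : Finset V → Prop} (hs : ∀ v, P {v})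
    (hc : ∀ X Z : Finset V, (∀ x, x ∈ Z ↔ x ∉ X) → P X → P Z) {X : Finset V} (h : Lay P X) :
    ∀ v ∈ X, ∀ Z : Finset V, (∀ x, x ∈ Z ↔ x ∉ X) → (Z = ∅ ∨ Lay P Z) →
      ∀ W : Finset V, (∀ x, x ∈ W ↔ x ≠ v) → (W = ∅ ∨ Lay P W) := by
  induction h with
  | single v =>
    intro w hw Z hZ h W hW
    rw [Finset.mem_singleton] at hw
    have e : W = Z := by
      ext x
      rw [hW, hZ, Finset.mem_singleton, hw]
    rw [e]
    exact h
  | @union X Y hd hP hX hY ihX ihY =>
    intro v hv Z hZ h W hW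
    have key : ∀ A B : Finset V, Disjoint A B → Lay P A → Lay P B →
        (∀ x, x ∈ Z ↔ x ∉ A ∪ B) → (∀ x, x ∈ B ∪ Z ↔ x ∉ A) ∧ Lay P (B ∪ Z) := by
      intro A B hAB hA hB hZ'
      have e : ∀ x, x ∈ B ∪ Z ↔ x ∉ A := by
        intro x
        rw [Finset.mem_union, hZ', Finset.mem_union]
        constructor
        · rintro (h1 | h1)
          · exact fun h2 => Finset.disjoint_left.1 hAB h2 h1
          · tauto
        · intro h1
          tauto
      refine ⟨e, ?_⟩
      rcases h with h | h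
      · rw [h, Finset.union_empty]
        exact hB
      · have h1 := hc A _ e (hA.prop hs)
        refine Lay.union ?_ h1 hB h
        rw [Finset.disjoint_left]
        intro x hx hx'
        rw [hZ', Finset.mem_union] at hx'
        exact hx' (Or.inr hx)
    rcases Finset.mem_union.1 hv with h1 | h1
    · obtain ⟨e1, e2⟩ := key X Y hd hX hY hZ
      exact ihX v h1 _ e1 (Or.inr e2) W hW
    · obtain ⟨e1, e2⟩ := key Y X hd.symm hY hX (by rw [Finset.union_comm]; exact hZ)
      exact ihY v h1 _ e1 (Or.inr e2) W hW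

/-- The part of the layout of a graph with a split which comes from one side. -/
lemma lay_side {V : Type} [Fintype V] (G : SimpleGraph V) (M : Type) [Nonempty M] {A : Set V}
    (hA : SplitSet G A) (hne : A.Nonempty) {b : V} (hb : b ∉ A)
    (hb2 : ∀ x ∈ A, ∀ y, y ∉ A → G.Adj x y → G.Adj x b)
    (U : Finset (A ∪ {b} : Set V)) (hU : ∀ x, x ∈ U)
    (h : Lay (Bal (G.induce (A ∪ {b})) M) U) (Y : Finset V) (hY : ∀ x, x ∈ Y ↔ x ∈ A) :
    Lay (Bal G M) Y := by
  let S : Set V := A ∪ {b}
  let b' : S := ⟨b, Or.inr rfl⟩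
  let W : Finset S := Finset.univ.filter fun x => x ≠ b'
  have hW : ∀ x, x ∈ W ↔ x ≠ b' := by
    intro x
    simp only [W, Finset.mem_filter, Finset.mem_univ, true_and]
  have h1 := h.reroot (bal_single _ M) Bal.compl b' (hU _) ∅
    (fun x => by
      constructor
      · intro h; exact absurd h (Finset.notMem_empty x)
      · intro h; exact absurd (hU x) h)
    (Or.inl rfl) W hW
  have h2 : Lay (Bal (G.induce S) M) W := by
    rcases h1 with h1 | h1
    · exfalso
      obtain ⟨a, ha⟩ := hne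
      have h5 : (⟨a, Or.inl ha⟩ : S) ∈ W := by
        rw [hW]
        intro e
        have e' : a = b := congrArg Subtype.val e
        exact hb (e' ▸ ha)
      rw [h1] at h5
      exact absurd h5 (Finset.notMem_empty _)
    · exact h1
  have hS : ∀ X : Finset S, X ⊆ W → ∀ x ∈ X, x.1 ∈ A := by
    intro X hX x hx
    rcases x.2 with h3 | h3
    · exact h3
    · exfalso
      exact (hW x).1 (hX hx) (Subtype.ext h3)
  have h3 := h2.map (Function.Embedding.subtype (fun x => x ∈ S)) (Q := Bal G M) ?_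
  · have e : W.map (Function.Embedding.subtype (fun x => x ∈ S)) = Y := by
      ext x
      rw [Finset.mem_map, hY]
      constructor
      · rintro ⟨y, hy, rfl⟩
        exact hS W (subset_refl _) y hy
      · intro hx
        refine ⟨⟨x, Or.inl hx⟩, (hW _).2 ?_, rfl⟩
        intro e
        have e' : x = b := congrArg Subtype.val e
        exact hb (e' ▸ hx)
    rw [e] at h3
    exact h3
  · intro X hX hbal
    obtain ⟨⟨τ, hτ⟩, ⟨σ, hσ⟩⟩ := hbal
    have hXA := hS X hX
    have hbX : b' ∉ X := by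
      intro h4
      exact hb (hXA b' h4)
    have hm : ∀ x : V, x ∈ X.map (Function.Embedding.subtype (fun x => x ∈ S)) ↔
        ∃ h : x ∈ S, (⟨x, h⟩ : S) ∈ X := by
      intro x
      rw [Finset.mem_map]
      constructor
      · rintro ⟨y, hy, rfl⟩
        exact ⟨y.2, hy⟩
      · rintro ⟨h5, h6⟩
        exact ⟨_, h6, rfl⟩
    obtain ⟨m⟩ := ‹Nonempty M›
    constructor
    · refine ⟨fun x => if h : x ∈ S then τ ⟨x, h⟩ else m, ?_⟩
      intro x hx x' hx' hn hn' he y hy
      rw [Set.mem_ofPred_eq, hm] at hx hx' hy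
      obtain ⟨hxS, hx⟩ := hx
      obtain ⟨hxS', hx'⟩ := hx'
      have hnz : ∀ (z : V) (hz : z ∈ S), (⟨z, hz⟩ : S) ∈ X →
          (∃ y, y ∉ {x | x ∈ X.map (Function.Embedding.subtype (fun x => x ∈ S))} ∧ G.Adj z y) →
          ∃ y : S, y ∉ {x | x ∈ X} ∧ (G.induce S).Adj ⟨z, hz⟩ y := by
        rintro z hz hzX ⟨y, hy, hzy⟩
        rw [Set.mem_ofPred_eq, hm] at hy
        by_cases hyA : y ∈ A
        · exact ⟨⟨y, Or.inl hyA⟩, fun h7 => hy ⟨Or.inl hyA, h7⟩, hzy⟩
        · exact ⟨b', hbX, hb2 z (hXA _ hzX) y hyA hzy⟩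
      have he' : τ ⟨x, hxS⟩ = τ ⟨x', hxS'⟩ := by
        simp only [dif_pos hxS, dif_pos hxS'] at he
        exact he
      have h8 := hτ _ hx _ hx' (hnz x hxS hx hn) (hnz x' hxS' hx' hn') he'
      by_cases hyA : y ∈ A
      · exact h8 ⟨y, Or.inl hyA⟩ (fun h7 => hy ⟨Or.inl hyA, h7⟩)
      · have h9 : G.Adj x b ↔ G.Adj x' b := h8 b' hbX
        constructor
        · intro h10
          have h11 := h9.1 (hb2 x (hXA _ hx) y hyA h10)
          exact hA x' (hXA _ hx') x (hXA _ hx) b hb y hyA h11 h10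
        · intro h10
          have h11 := h9.2 (hb2 x' (hXA _ hx') y hyA h10)
          exact hA x (hXA _ hx) x' (hXA _ hx') b hb y hyA h11 h10
    · let rep : V → S := fun y => if h : y ∈ A then ⟨y, Or.inl h⟩ else b'
      have hrep : ∀ y, y ∉ X.map (Function.Embedding.subtype (fun x => x ∈ S)) →
          (∃ x, x ∉ {x | x ∉ X.map (Function.Embedding.subtype (fun x => x ∈ S))} ∧ G.Adj y x) →
          rep y ∉ X ∧ (∃ x : S, x ∉ {x | x ∉ X} ∧ (G.induce S).Adj (rep y) x) ∧
            ∀ x, x ∈ X.map (Function.Embedding.subtype (fun x => x ∈ S)) →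
              (G.Adj y x ↔ G.Adj (rep y).1 x) := by
        rintro y hy ⟨x, hx, hyx⟩
        rw [Set.mem_ofPred_eq, not_not, hm] at hx
        rw [hm] at hy
        obtain ⟨hxS, hx⟩ := hx
        by_cases hyA : y ∈ A
        · have e : rep y = ⟨y, Or.inl hyA⟩ := dif_pos hyA
          rw [e]
          exact ⟨fun h7 => hy ⟨Or.inl hyA, h7⟩, ⟨⟨x, hxS⟩, not_not.2 hx, hyx⟩, fun _ _ => Iff.rfl⟩
        · have e : rep y = b' := dif_neg hyA
          rw [e]
          refine ⟨hbX, ⟨⟨x, hxS⟩, not_not.2 hx, (hb2 x (hXA _ hx) y hyA hyx.symm).symm⟩, ?_⟩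
          intro z hz
          rw [hm] at hz
          obtain ⟨hzS, hz⟩ := hz
          constructor
          · intro h10
            exact (hb2 z (hXA _ hz) y hyA h10.symm).symm
          · intro h10
            exact (hA z (hXA _ hz) x (hXA _ hx) b hb y hyA h10.symm hyx.symm).symm
      refine ⟨fun y => σ (rep y), ?_⟩
      intro y hy y' hy' hn hn' he x hx
      obtain ⟨r1, r3, r2⟩ := hrep y hy hn
      obtain ⟨r1', r3', r2'⟩ := hrep y' hy' hn'
      rw [Set.mem_ofPred_eq, not_not] at hx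
      rw [r2 x hx, r2' x hx]
      rw [hm] at hx
      obtain ⟨hxS, hx⟩ := hx
      exact hσ (rep y) r1 (rep y') r1' r3 r3' he ⟨x, hxS⟩ (not_not.2 hx)

/-- From the layouts of the induced subgraphs without splits to the layout of the graph. -/
theorem lay_of_splitPrime (M : Type) [Nonempty M] : ∀ (N : ℕ) (V : Type) [Fintype V] [Nonempty V]
    (G : SimpleGraph V), Fintype.card V = N →
    (∀ (n : ℕ) (H : SimpleGraph (Fin n)), 0 < n → Nonempty (H ↪g G) → (n ≤ 3 ∨ SplitPrime H) →
      Lay (Bal H M) Finset.univ) →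
    Lay (Bal G M) Finset.univ := by
  intro N
  induction N using Nat.strong_induction_on with
  | _ N ih =>
    intro V _ _ G hN hG
    by_cases hP : N ≤ 3 ∨ SplitPrime G
    · let e : V ≃ Fin N := Fintype.equivFinOfCardEq hN
      let i : G.comap e.symm ≃g G :=
        { toEquiv := e.symm
          map_rel_iff' := Iff.rfl }
      have hNpos : 0 < N := by
        rw [← hN]
        exact Fintype.card_pos
      have h1 := hG N (G.comap e.symm) hNpos ⟨i.toEmbedding⟩ (by
        rcases hP with hP | hP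
        · exact Or.inl hP
        · right
          refine ⟨?_, ?_⟩
          · rw [← Nat.card_congr e]
            exact hP.1
          · intro A hA
            have h2 : SplitSet G (e ⁻¹' A) := by
              intro a ha a' ha' b hb b' hb' h3 h4
              have := hA (e a) ha (e a') ha' (e b) hb (e b') hb'
              simp only [SimpleGraph.comap_adj, Equiv.symm_apply_apply] at this
              exact this h3 h4
            rcases hP.2 _ h2 with h3 | h3
            · left
              intro x hx y hy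
              exact e.symm.injective (h3 (by simpa using hx) (by simpa using hy))
            · right
              intro x hx y hy
              exact e.symm.injective (h3 (by simpa using hx) (by simpa using hy)))
      have h2 := h1.map e.symm.toEmbedding (Q := Bal G M) ?_
      · rw [Finset.map_univ_equiv] at h2
        exact h2
      · intro Y _ hY
        have hm : ∀ x : V, x ∈ Y.map e.symm.toEmbedding ↔ e x ∈ Y := by
          intro x
          rw [Finset.mem_map_equiv, Equiv.symm_symm]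
        have key : ∀ (Z : Set (Fin N)) (Z' : Set V), (∀ x, x ∈ Z' ↔ e x ∈ Z) →
            NTr (G.comap e.symm) M Z → NTr G M Z' := by
          rintro Z Z' hZ ⟨τ, hτ⟩
          refine ⟨fun x => τ (e x), ?_⟩
          rintro x hx x' hx' ⟨y, hy, hxy⟩ ⟨y', hy', hxy'⟩ he z hz
          rw [hZ] at hx hx' hy hy' hz
          have := hτ _ hx _ hx' ⟨e y, hy, by simpa using hxy⟩ ⟨e y', hy', by simpa using hxy'⟩
            he _ hz
          simpa using this
        refine ⟨key _ _ (fun x => hm x) hY.1, key _ _ (fun x => ?_) hY.2⟩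
        exact not_congr (hm x)
    · push Not at hP
      obtain ⟨hN3, hP⟩ := hP
      unfold SplitPrime at hP
      rw [not_and] at hP
      have h4 := hP (by rw [Nat.card_eq_fintype_card, hN]; exact hN3)
      push Not at h4
      obtain ⟨A, hA, hA1, hA2⟩ := h4
      have main : ∀ A : Set V, SplitSet G A → A.Nontrivial → Aᶜ.Nontrivial →
          ∀ Y : Finset V, (∀ x, x ∈ Y ↔ x ∈ A) → Lay (Bal G M) Y := by
        intro A hA hA1 hA2
        have hb : ∃ b, b ∉ A ∧ ∀ x ∈ A, ∀ y, y ∉ A → G.Adj x y → G.Adj x b := by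
          by_cases hc : ∃ a ∈ A, ∃ b, b ∉ A ∧ G.Adj a b
          · obtain ⟨a, ha, b, hb, hab⟩ := hc
            exact ⟨b, hb, fun x hx y hy hxy => hA x hx a ha y hy b hb hxy hab⟩
          · obtain ⟨b, hb, _⟩ := hA2
            exact ⟨b, hb, fun x hx y hy hxy => absurd ⟨x, hx, y, hy, hxy⟩ hc⟩
        obtain ⟨b, hb, hb2⟩ := hb
        obtain ⟨c, hc, hcb⟩ := hA2.exists_ne b
        have hcS : c ∉ A ∪ {b} := by
          rintro (h5 | h5)
          · exact hc h5
          · exact hcb h5
        have hlt : Fintype.card (A ∪ {b} : Set V) < N := by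
          rw [← hN]
          exact Fintype.card_subtype_lt hcS
        have : Nonempty (A ∪ {b} : Set V) := ⟨⟨b, Or.inr rfl⟩⟩
        refine lay_side G M hA hA1.nonempty hb hb2 Finset.univ (fun x => Finset.mem_univ x) ?_
        refine ih _ hlt (A ∪ {b} : Set V) (G.induce (A ∪ {b})) rfl ?_
        rintro n H hn ⟨f⟩ hH
        exact hG n H hn ⟨f.trans (SimpleGraph.Embedding.induce _)⟩ hH
      let Y1 : Finset V := Finset.univ.filter fun x => x ∈ A
      let Y2 : Finset V := Finset.univ.filter fun x => x ∉ A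
      have hY1 : ∀ x, x ∈ Y1 ↔ x ∈ A := by
        intro x
        simp only [Y1, Finset.mem_filter, Finset.mem_univ, true_and]
      have hY2 : ∀ x, x ∈ Y2 ↔ x ∈ Aᶜ := by
        intro x
        simp only [Y2, Finset.mem_filter, Finset.mem_univ, true_and, Set.mem_compl_iff]
      have h5 := main A hA hA1 hA2 Y1 hY1
      have h6 := main Aᶜ hA.compl hA2 (by rw [compl_compl]; exact hA1) Y2 hY2
      have e : (Finset.univ : Finset V) = Y1 ∪ Y2 := by
        ext x
        rw [Finset.mem_union, hY1, hY2]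
        exact ⟨fun _ => Classical.em _, fun _ => Finset.mem_univ x⟩
      have h7 := bal_all G M Finset.univ Finset.mem_univ
      rw [e] at h7 ⊢
      refine Lay.union ?_ h7 h5 h6
      rw [Finset.disjoint_left]
      intro x hx hx'
      exact (hY2 x).1 hx' ((hY1 x).1 hx)

private lemma mem_union_c {V : Type} (X Y : Finset V) (x : V) : x ∈ X ∪ Y ↔ x ∈ X ∨ x ∈ Y :=
  Finset.mem_union

/-- The layout of a graph which comes from an expression of cliquewidth. -/
lemma lay_of_cw {L V : Type} {G : SimpleGraph V} {l : V → L} (h : Cw L V G l) :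
    ∃ U : Finset V, (∀ v, v ∈ U) ∧ Lay (fun X => ∃ τ : V → L, ∀ x ∈ X, ∀ x' ∈ X, τ x = τ x' →
      (l x = l x' ∧ ∀ y, y ∉ X → (G.Adj x y ↔ G.Adj x' y))) U := by
  induction h with
  | single i => exact ⟨{()}, fun v => Finset.mem_singleton.2 rfl, Lay.single _⟩
  | @union V W G H l m h1 h2 ih1 ih2 =>
    obtain ⟨U1, u1, L1⟩ := ih1
    obtain ⟨U2, u2, L2⟩ := ih2
    let P : Finset (V ⊕ W) → Prop := fun X => ∃ τ : V ⊕ W → L, ∀ x ∈ X, ∀ x' ∈ X, τ x = τ x' →
      (Sum.elim l m x = Sum.elim l m x' ∧ ∀ y, y ∉ X → ((G ⊕g H).Adj x y ↔ (G ⊕g H).Adj x' y))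
    have a1 := L1.map (Function.Embedding.inl : V ↪ V ⊕ W) (Q := P) ?_
    · have a2 := L2.map (Function.Embedding.inr : W ↪ V ⊕ W) (Q := P) ?_
      · have hd : Disjoint (U1.map (Function.Embedding.inl : V ↪ V ⊕ W))
            (U2.map (Function.Embedding.inr : W ↪ V ⊕ W)) := by
          rw [Finset.disjoint_left]
          rintro x hx hx'
          obtain ⟨v, _, rfl⟩ := Finset.mem_map.1 hx
          obtain ⟨w, _, hw⟩ := Finset.mem_map.1 hx'
          cases hw
        have hall : ∀ Z : Finset (V ⊕ W), (∀ v, v ∈ Z) → P Z := fun Z hU =>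
          ⟨Sum.elim l m, fun x _ x' _ he => ⟨he, fun y hy => absurd (hU y) hy⟩⟩
        refine ⟨_, ?_, Lay.union hd (hall _ ?_) a1 a2⟩
        all_goals
          rintro (v | v)
          · exact (mem_union_c _ _ _).2 (Or.inl (Finset.mem_map.2 ⟨v, u1 v, rfl⟩))
          · exact (mem_union_c _ _ _).2 (Or.inr (Finset.mem_map.2 ⟨v, u2 v, rfl⟩))
      · rintro X _ ⟨τ, hτ⟩
        refine ⟨Sum.elim l τ, ?_⟩
        intro x hx x' hx' he
        obtain ⟨v, hv, rfl⟩ := Finset.mem_map.1 hx
        obtain ⟨v', hv', rfl⟩ := Finset.mem_map.1 hx'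
        obtain ⟨b1, b2⟩ := hτ v hv v' hv' he
        refine ⟨b1, ?_⟩
        rintro (y | y) hy
        · exact Iff.rfl
        · exact b2 y (fun h => hy (Finset.mem_map.2 ⟨y, h, rfl⟩))
    · rintro X _ ⟨τ, hτ⟩
      refine ⟨Sum.elim τ m, ?_⟩
      intro x hx x' hx' he
      obtain ⟨v, hv, rfl⟩ := Finset.mem_map.1 hx
      obtain ⟨v', hv', rfl⟩ := Finset.mem_map.1 hx'
      obtain ⟨b1, b2⟩ := hτ v hv v' hv' he
      refine ⟨b1, ?_⟩
      rintro (y | y) hy
      · exact b2 y (fun h => hy (Finset.mem_map.2 ⟨y, h, rfl⟩))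
      · exact Iff.rfl
  | @join V G l i j hij h ih =>
    obtain ⟨U, u, hL⟩ := ih
    refine ⟨U, u, hL.mono ?_⟩
    rintro X ⟨τ, hτ⟩
    refine ⟨τ, ?_⟩
    intro x hx x' hx' he
    obtain ⟨b1, b2⟩ := hτ x hx x' hx' he
    refine ⟨b1, fun y hy => ?_⟩
    have n1 : x ≠ y := fun e => hy (e ▸ hx)
    have n2 : x' ≠ y := fun e => hy (e ▸ hx')
    rw [SimpleGraph.sup_adj, SimpleGraph.sup_adj, b2 y hy, SimpleGraph.fromRel_adj,
      SimpleGraph.fromRel_adj, b1]
    simp only [ne_eq, n1, n2, not_false_eq_true, true_and]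
  | @relabel V G l l' i j h h1 h2 ih =>
    obtain ⟨U, u, hL⟩ := ih
    refine ⟨U, u, hL.mono ?_⟩
    rintro X ⟨τ, hτ⟩
    refine ⟨τ, ?_⟩
    intro x hx x' hx' he
    obtain ⟨b1, b2⟩ := hτ x hx x' hx' he
    refine ⟨?_, b2⟩
    by_cases hi : l x = i
    · rw [h1 x hi, h1 x' (b1 ▸ hi)]
    · rw [h2 x hi, h2 x' (b1 ▸ hi), b1]
  | @iso V W G H l e h ih =>
    obtain ⟨U, u, hL⟩ := ih
    refine ⟨U.map e.toEquiv.toEmbedding, fun v => Finset.mem_map.2
      ⟨e.symm v, u _, e.apply_symm_apply v⟩, hL.map _ ?_⟩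
    rintro X _ ⟨τ, hτ⟩
    refine ⟨τ ∘ e.symm, ?_⟩
    intro x hx x' hx' he
    obtain ⟨v, hv, rfl⟩ := Finset.mem_map.1 hx
    obtain ⟨v', hv', rfl⟩ := Finset.mem_map.1 hx'
    have he' : τ v = τ v' := by
      have := he
      simp only [Function.comp_apply] at this
      have s1 : ∀ v : V, e.symm (e.toEquiv.toEmbedding v) = v := fun v => e.symm_apply_apply v
      rw [s1, s1] at this
      exact this
    obtain ⟨b1, b2⟩ := hτ v hv v' hv' he'
    refine ⟨?_, ?_⟩
    · simp only [Function.comp_apply]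
      have s1 : ∀ v : V, e.symm (e.toEquiv.toEmbedding v) = v := fun v => e.symm_apply_apply v
      rw [s1, s1]
      exact b1
    · intro y hy
      have h3 := b2 (e.symm y) (fun h => hy (Finset.mem_map.2 ⟨e.symm y, h, e.apply_symm_apply y⟩))
      rw [← e.map_adj_iff, ← e.map_adj_iff (v := v'), e.apply_symm_apply] at h3
      exact h3

lemma lay_bal_of_cw {L V : Type} [Fintype V] {G : SimpleGraph V} {l : V → L} (h : Cw L V G l) :
    Lay (Bal G (L → Prop)) Finset.univ := by
  obtain ⟨U, u, hL⟩ := lay_of_cw h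
  have e : U = Finset.univ := by
    ext x
    exact ⟨fun _ => Finset.mem_univ x, fun _ => u x⟩
  rw [e] at hL
  refine hL.mono ?_
  rintro X ⟨τ, hτ⟩
  constructor
  · refine ⟨fun x m => m = τ x, ?_⟩
    intro x hx x' hx' _ _ he y hy
    have h1 : τ x = τ x' := (congrFun he (τ x)).mp rfl
    exact (hτ x hx x' hx' h1).2 y hy
  · refine ⟨fun y m => ∃ x ∈ X, τ x = m ∧ G.Adj x y, ?_⟩
    intro y hy y' hy' _ _ he x hx
    rw [Set.mem_ofPred_eq, not_not] at hx
    have key : ∀ z z', z ∉ X → z' ∉ X → (∃ x' ∈ X, τ x' = τ x ∧ G.Adj x' z') → G.Adj z' x := by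
      rintro z z' hz hz' ⟨x', hx', e1, e2⟩
      exact (((hτ x' hx' x hx e1).2 z' hz').1 e2).symm
    have h2 := congrFun he (τ x)
    constructor
    · intro h3
      exact key y y' hy hy' (h2.mp ⟨x, hx, rfl, h3.symm⟩)
    · intro h3
      exact key y' y hy' hy (h2.mpr ⟨x, hx, rfl, h3.symm⟩)

lemma cwLE_of_lay_bal {M V : Type} [Fintype V] [Fintype M] {G : SimpleGraph V}
    (h : Lay (Bal G M) Finset.univ) : CwLE G (3 * Fintype.card (Option M)) := by
  refine Lay.cwLE (M := Option M) G ?_ h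
  rintro X ⟨⟨τ, hτ⟩, _⟩
  refine ⟨fun x => if ∃ y, y ∉ X ∧ G.Adj x y then some (τ x) else none, ?_⟩
  intro x hx x' hx' he y hy
  by_cases h1 : ∃ y, y ∉ X ∧ G.Adj x y
  · by_cases h2 : ∃ y, y ∉ X ∧ G.Adj x' y
    · simp only [if_pos h1, if_pos h2] at he
      exact hτ x hx x' hx' h1 h2 (Option.some_injective _ he) y hy
    · simp only [if_pos h1, if_neg h2] at he
      cases he
  · by_cases h2 : ∃ y, y ∉ X ∧ G.Adj x' y
    · simp only [if_neg h1, if_pos h2] at he
      cases he
    · exact iff_of_false (fun h => h1 ⟨y, hy, h⟩) (fun h => h2 ⟨y, hy, h⟩)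

lemma CwLE.mono {V : Type} {G : SimpleGraph V} {k k' : ℕ} (hk : k ≤ k') (h : CwLE G k) :
    CwLE G k' := by
  rcases h with h | ⟨l, h⟩
  · exact Or.inl h
  · exact Or.inr ⟨_, h.mapLabel (Fin.castLE hk) (Fin.castLE_injective hk)⟩

lemma lay_small {V : Type} [Fintype V] [Nonempty V] : Lay (fun _ : Finset V => True)
    Finset.univ := by
  have key : ∀ X : Finset V, X.Nonempty → Lay (fun _ : Finset V => True) X := by
    intro X
    induction X using Finset.induction_on with
    | empty => intro h; exact absurd h Finset.not_nonempty_empty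
    | insert a X ha ih =>
      intro _
      rw [Finset.insert_eq]
      rcases X.eq_empty_or_nonempty with h | h
      · rw [h, Finset.union_empty]
        exact Lay.single a
      · exact Lay.union (Finset.disjoint_singleton_left.2 ha) trivial (Lay.single a) (ih h)
  exact key _ Finset.univ_nonempty

/-- The cliquewidth of the members of a hereditary class is bounded if that of the members
without splits is. -/
theorem bddCw_of_splitPrime {C : GraphClass} (hC : Hereditary C)
    (h : BddCw fun n => {G | G ∈ C n ∧ SplitPrime G}) : BddCw C := by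
  obtain ⟨k, hk⟩ := h
  let K := max k 9
  refine ⟨3 * Fintype.card (Option (Fin K → Prop)), fun n G hG => ?_⟩
  rcases Nat.eq_zero_or_pos n with rfl | hn
  · exact Or.inl inferInstance
  have : Nonempty (Fin n) := ⟨⟨0, hn⟩⟩
  refine cwLE_of_lay_bal (lay_of_splitPrime _ n (Fin n) G (Fintype.card_fin n) ?_)
  rintro m H hm hH hP
  have : Nonempty (Fin m) := ⟨⟨0, hm⟩⟩
  have h1 : CwLE H K := by
    rcases hP with hP | hP
    · have h2 : CwLE H (3 * Fintype.card (Fin m)) :=
        Lay.cwLE (M := Fin m) H (P := fun _ => True)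
          (fun X _ => ⟨id, fun x _ x' _ he y _ => by rw [show x = x' from he]⟩) lay_small
      refine h2.mono ?_
      rw [Fintype.card_fin]
      exact le_trans (by omega) (le_max_right k 9)
    · exact (hk m H ⟨hC n m G H hG hH, hP⟩).mono (le_max_left k 9)
  rcases h1 with h1 | ⟨l, h1⟩
  · exact (h1.false ⟨0, hm⟩).elim
  · exact lay_bal_of_cw h1

/-- For a hereditary class, it is enough to consider its members without splits. -/
theorem dichotomy_of_splitPrime {T : Transduction} {s : ℕ} {C : GraphClass} (hC : Hereditary C)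
    (h : Dichotomy T s fun n => {G | G ∈ C n ∧ SplitPrime G}) : Dichotomy T s C := by
  rcases h with h | ⟨D, h1, h2, h3, h4⟩
  · exact Or.inl (bddCw_of_splitPrime hC h)
  · right
    refine ⟨D, h1, h2, h3, fun n H hH => ?_⟩
    obtain ⟨n', G, hG, hm⟩ := h4 n H hH
    exact ⟨n', G, hG.1, hm⟩

end Pool.Agent.CwTw
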