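import Pool.Agent.CwTw.Defs

set_option autoImplicit false

/-!
# Strongly ordered bipartite relations and laminar partitions
-/

namespace Pool.Agent.CwTw

section
variable {α β : Type} [LinearOrder α] [LinearOrder β]

/-- The relation `R` between two linear orders is strongly ordered: two crossing edges force the
two parallel ones. -/
def StrOrd (R : α → β → Prop) : Prop :=
  ∀ x x' y y', x < x' → y < y' → R x y' → R x' y → R x y ∧ R x' y'

/-- The bipartite graph of a relation. -/
def bpG (R : α → β → Prop) : SimpleGraph (α ⊕ β) where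
  Adj u v := (∃ x y, u = Sum.inl x ∧ v = Sum.inr y ∧ R x y) ∨
    ∃ x y, v = Sum.inl x ∧ u = Sum.inr y ∧ R x y
  symm := ⟨by
    rintro u v (h | h)
    · exact Or.inr h
    · exact Or.inl h⟩
  loopless := ⟨by
    rintro u (⟨x, y, h1, h2, _⟩ | ⟨x, y, h1, h2, _⟩) <;>
    · rw [h1] at h2
      exact absurd h2 (by simp)⟩

/-- The order inside the two sides. -/
def sLt (u v : α ⊕ β) : Prop := Sum.LiftRel (· < ·) (· < ·) u v

variable {R : α → β → Prop}

omit [LinearOrder α] [LinearOrder β] in
lemma bpG_side {u v : α ⊕ β} (h : (bpG R).Adj u v) : u.isLeft = !v.isLeft := by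
  rcases h with ⟨x, y, rfl, rfl, _⟩ | ⟨x, y, rfl, rfl, _⟩ <;> rfl

lemma bpG_str (hR : StrOrd R) {u u' v v' : α ⊕ β} (h1 : sLt u u') (h2 : sLt v v')
    (h3 : (bpG R).Adj u v') (h4 : (bpG R).Adj u' v) : (bpG R).Adj u v ∧ (bpG R).Adj u' v' := by
  rcases h3 with ⟨x, y', rfl, rfl, h5⟩ | ⟨x', y, rfl, rfl, h5⟩
  · rcases h4 with ⟨x', y, rfl, rfl, h6⟩ | ⟨_, _, rfl, _, _⟩
    · have h7 : x < x' := Sum.liftRel_inl_inl.1 h1
      have h8 : y < y' := Sum.liftRel_inr_inr.1 h2
      obtain ⟨h9, h10⟩ := hR x x' y y' h7 h8 h5 h6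
      exact ⟨Or.inl ⟨x, y, rfl, rfl, h9⟩, Or.inl ⟨x', y', rfl, rfl, h10⟩⟩
    · cases h2
  · rcases h4 with ⟨_, _, rfl, _, _⟩ | ⟨x, y', rfl, rfl, h6⟩
    · cases h1
    · have h7 : y < y' := Sum.liftRel_inr_inr.1 h1
      have h8 : x < x' := Sum.liftRel_inl_inl.1 h2
      obtain ⟨h9, h10⟩ := hR x x' y y' h8 h7 h6 h5
      exact ⟨Or.inr ⟨x, y, rfl, rfl, h9⟩, Or.inr ⟨x', y', rfl, rfl, h10⟩⟩

lemma sLt_tri {u v : α ⊕ β} (h : u.isLeft = v.isLeft) (hne : u ≠ v) : sLt u v ∨ sLt v u := by
  rcases u with x | y <;> rcases v with x' | y'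
  · rcases lt_or_gt_of_ne (show x ≠ x' from fun h => hne (by rw [h])) with h | h
    · exact Or.inl (Sum.LiftRel.inl h)
    · exact Or.inr (Sum.LiftRel.inl h)
  · exact absurd h (by simp)
  · exact absurd h (by simp)
  · rcases lt_or_gt_of_ne (show y ≠ y' from fun h => hne (by rw [h])) with h | h
    · exact Or.inl (Sum.LiftRel.inr h)
    · exact Or.inr (Sum.LiftRel.inr h)

lemma bpG_parity {u v : α ⊕ β} (p : (bpG R).Walk u v) :
    Even p.length ↔ u.isLeft = v.isLeft := by
  induction p with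
  | nil => simp
  | cons h p ih =>
    rw [SimpleGraph.Walk.length_cons, Nat.even_add_one, ih, bpG_side h]
    rename_i a b c
    cases b.isLeft <;> cases c.isLeft <;> simp

variable [Finite α]

omit [LinearOrder β] in
lemma exists_root {v : α ⊕ β} (h : ∃ x : α, (bpG R).Reachable (Sum.inl x) v) :
    ∃ x : α, (bpG R).Reachable (Sum.inl x) v ∧
      ∀ x' : α, (bpG R).Reachable (Sum.inl x') v → x ≤ x' := by
  obtain ⟨x, hx, hmin⟩ := Set.exists_min_image {x : α | (bpG R).Reachable (Sum.inl x) v} id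
    (Set.toFinite _) h
  exact ⟨x, hx, hmin⟩

open Classical in
/-- The root of the component of `v`. -/
noncomputable def rt (R : α → β → Prop) (v : α ⊕ β) : α ⊕ β :=
  if h : ∃ x : α, (bpG R).Reachable (Sum.inl x) v then Sum.inl (exists_root h).choose else v

lemma rt_reach (v : α ⊕ β) : (bpG R).Reachable (rt R v) v := by
  unfold rt
  split_ifs with h
  · exact (exists_root h).choose_spec.1
  · exact SimpleGraph.Reachable.refl v

lemma rt_pos {v : α ⊕ β} (h : ∃ x : α, (bpG R).Reachable (Sum.inl x) v) :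
    ∃ x : α, rt R v = Sum.inl x ∧ (bpG R).Reachable (Sum.inl x) v ∧
      ∀ x' : α, (bpG R).Reachable (Sum.inl x') v → x ≤ x' := by
  refine ⟨(exists_root h).choose, ?_, (exists_root h).choose_spec⟩
  unfold rt
  rw [dif_pos h]

lemma rt_eq {u v : α ⊕ β} (huv : (bpG R).Reachable u v)
    (h : ∃ x : α, (bpG R).Reachable (Sum.inl x) u) : rt R u = rt R v := by
  obtain ⟨x, hx, hx1, hx2⟩ := rt_pos h
  obtain ⟨x', hx', hx1', hx2'⟩ := rt_pos (v := v) (by
    obtain ⟨w, hw⟩ := h
    exact ⟨w, hw.trans huv⟩)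
  rw [hx, hx']
  congr 1
  exact le_antisymm (hx2 x' (hx1'.trans huv.symm)) (hx2' x (hx1.trans huv))

/-- The distance to the root. -/
noncomputable def dd (R : α → β → Prop) (v : α ⊕ β) : ℕ := (bpG R).dist (rt R v) v

omit [LinearOrder α] [LinearOrder β] [Finite α] in
lemma adj_hasLeft {u v : α ⊕ β} (h : (bpG R).Adj u v) :
    ∃ x : α, (bpG R).Reachable (Sum.inl x) u := by
  rcases h with ⟨x, y, rfl, rfl, _⟩ | ⟨x, y, rfl, rfl, h⟩
  · exact ⟨x, SimpleGraph.Reachable.refl _⟩
  · exact ⟨x, SimpleGraph.Adj.reachable (Or.inl ⟨x, y, rfl, rfl, h⟩)⟩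

lemma dd_parity {v : α ⊕ β} (h : ∃ x : α, (bpG R).Reachable (Sum.inl x) v) :
    Even (dd R v) ↔ v.isLeft = true := by
  obtain ⟨x, hx, hx1, _⟩ := rt_pos h
  unfold dd
  rw [hx]
  obtain ⟨p, hp⟩ := hx1.exists_walk_length_eq_dist
  rw [← hp, bpG_parity p]
  show true = v.isLeft ↔ _
  exact eq_comm

lemma dd_adj {u v : α ⊕ β} (h : (bpG R).Adj u v) : dd R v = dd R u + 1 ∨ dd R u = dd R v + 1 := by
  have hu := adj_hasLeft h
  have hv := adj_hasLeft h.symm
  have hr := rt_eq h.reachable hu
  have h1 := dd_parity hu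
  have h2 := dd_parity hv
  have h3 : dd R u ≠ dd R v := by
    intro he
    rw [he, h2, bpG_side h] at h1
    revert h1
    cases v.isLeft <;> simp
  have h4 := h.diff_dist_adj (u := rt R u)
  unfold dd at h3 ⊢
  rw [← hr] at h3 ⊢
  omega

lemma walk_first {V : Type} {G : SimpleGraph V} {u r : V} {n : ℕ} (p : G.Walk u r)
    (hl : p.length = n + 1) : ∃ w, G.Adj u w ∧ ∃ q : G.Walk w r, q.length = n := by
  cases p with
  | nil => exact absurd hl (by simp)
  | cons hadj q =>
    rw [SimpleGraph.Walk.length_cons] at hl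
    exact ⟨_, hadj, q, by omega⟩

/-- A neighbour closer to the root. -/
lemma exists_pred {v : α ⊕ β} {n : ℕ} (h : dd R v = n + 1) :
    ∃ w, (bpG R).Adj w v ∧ dd R w = n := by
  obtain ⟨p, hp⟩ := (rt_reach (R := R) v).symm.exists_walk_length_eq_dist
  have hl : p.length = n + 1 := by rw [hp, SimpleGraph.dist_comm]; exact h
  obtain ⟨w, hadj, q, hq⟩ := walk_first p hl
  refine ⟨w, hadj.symm, ?_⟩
  have h1 : dd R w ≤ n := by
    unfold dd
    rw [← rt_eq hadj.reachable (adj_hasLeft hadj), SimpleGraph.dist_comm]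
    exact (SimpleGraph.dist_le q).trans hq.le
  rcases dd_adj hadj with h2 | h2 <;> omega

/-- Vertices closer to the root come first. -/
lemma closer_lt (hR : StrOrd R) : ∀ (n : ℕ) (z y : α ⊕ β), dd R z = n → dd R z < dd R y →
    (bpG R).Reachable z y → z.isLeft = y.isLeft → sLt z y := by
  intro n
  induction n with
  | zero =>
    intro z y hz hzy hr hs
    have hne : z ≠ y := by
      rintro rfl
      exact lt_irrefl _ hzy
    have hz0 : rt R z = z := by
      have h1 : (bpG R).dist (rt R z) z = 0 := hz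
      rwa [(rt_reach z).dist_eq_zero_iff] at h1
    -- the component contains a left vertex
    have hleft : ∃ x : α, (bpG R).Reachable (Sum.inl x) z := by
      obtain ⟨p⟩ := hr
      cases p with
      | nil => exact absurd rfl hne
      | cons hadj q => exact adj_hasLeft hadj
    obtain ⟨x, hx, hx1, hx2⟩ := rt_pos hleft
    rw [hz0] at hx
    subst hx
    rcases y with x' | y'
    · refine Sum.LiftRel.inl (lt_of_le_of_ne (hx2 x' hr.symm) ?_)
      rintro rfl
      exact hne rfl
    · exact absurd hs (by simp)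
  | succ n ih =>
    intro z y hz hzy hr hs
    have hne : z ≠ y := by
      rintro rfl
      exact lt_irrefl _ hzy
    obtain ⟨w, hw, hwd⟩ := exists_pred hz
    obtain ⟨w', hw', hwd'⟩ := exists_pred (R := R) (n := dd R y - 1) (v := y) (by omega)
    have hww : sLt w w' := by
      refine ih w w' hwd (by omega) ((hw.reachable.trans hr).trans hw'.symm.reachable) ?_
      rw [bpG_side hw, bpG_side hw', hs]
    rcases sLt_tri hs hne with h | h
    · exact h
    · exfalso
      obtain ⟨h1, _⟩ := bpG_str hR hww h hw hw'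
      rcases dd_adj h1 with h2 | h2 <;> omega

/-- The neighbours of `v` in the previous layer. -/
def prv (R : α → β → Prop) (v : α ⊕ β) : Set (α ⊕ β) := {u | (bpG R).Adj u v ∧ dd R v = dd R u + 1}

lemma prv_up (hR : StrOrd R) {v u u' : α ⊕ β} (hu : u ∈ prv R v) (hlt : sLt u u')
    (hd : dd R u' = dd R u) (hr : (bpG R).Reachable u u') : u' ∈ prv R v := by
  refine ⟨?_, by rw [hd]; exact hu.2⟩
  rcases Nat.eq_zero_or_pos (dd R u') with h0 | h0
  · -- both would be the root
    exfalso
    have hl := adj_hasLeft hu.1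
    have h1 : rt R u = u := by
      have h2 : (bpG R).dist (rt R u) u = 0 := hd.symm.trans h0
      rwa [(rt_reach u).dist_eq_zero_iff] at h2
    have h3 : rt R u' = u' := by
      have h2 : (bpG R).dist (rt R u') u' = 0 := h0
      rwa [(rt_reach u').dist_eq_zero_iff] at h2
    have h4 := rt_eq hr hl
    rw [h1, h3] at h4
    rw [h4] at hlt
    rcases u' with x | y
    · exact lt_irrefl _ (Sum.liftRel_inl_inl.1 hlt)
    · exact lt_irrefl _ (Sum.liftRel_inr_inr.1 hlt)
  · obtain ⟨z, hz, hzd⟩ := exists_pred (R := R) (n := dd R u' - 1) (v := u') (by omega)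
    have hside : u.isLeft = u'.isLeft := by
      rcases u with x | y <;> rcases u' with x' | y'
      · rfl
      · cases hlt
      · cases hlt
      · rfl
    have hzv : sLt z v := by
      refine closer_lt hR _ z v rfl (by have := hu.2; omega) ?_ ?_
      · exact (hz.reachable.trans hr.symm).trans hu.1.reachable
      · have h1 := bpG_side hz
        have h2 := bpG_side hu.1
        rw [h1, ← hside, h2, Bool.not_not]
    exact (bpG_str hR hlt hzv hu.1 hz.symm).2

/-- The sets `prv v` form a laminar family. -/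
theorem prv_lam (hR : StrOrd R) (v v' : α ⊕ β) :
    Disjoint (prv R v) (prv R v') ∨ prv R v ⊆ prv R v' ∨ prv R v' ⊆ prv R v := by
  by_cases hd : Disjoint (prv R v) (prv R v')
  · exact Or.inl hd
  right
  rw [Set.not_disjoint_iff] at hd
  obtain ⟨x0, h0, h0'⟩ := hd
  have hvv : (bpG R).Reachable v v' := h0.1.symm.reachable.trans h0'.1.reachable
  by_contra hcon
  push Not at hcon
  obtain ⟨hc1, hc2⟩ := hcon
  rw [Set.not_subset] at hc1 hc2
  obtain ⟨a, ha, ha'⟩ := hc1
  obtain ⟨b, hb, hb'⟩ := hc2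
  have hdab : dd R a = dd R b := by
    have h1 := ha.2
    have h2 := hb.2
    have h3 := h0.2
    have h4 := h0'.2
    omega
  have hrab : (bpG R).Reachable a b :=
    (ha.1.reachable.trans hvv).trans hb.1.symm.reachable
  have hne : a ≠ b := by
    rintro rfl
    exact ha' hb
  have hside : a.isLeft = b.isLeft := by
    rw [bpG_side ha.1, bpG_side hb.1]
    have h1 := bpG_side h0.1
    have h2 := bpG_side h0'.1
    rw [h1] at h2
    rw [h2]
  rcases sLt_tri hside hne with h | h
  · exact hb' (prv_up hR ha h hdab.symm hrab)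
  · exact ha' (prv_up hR hb h hdab hrab.symm)

end

end Pool.Agent.CwTw
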