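import Pool.Agent.CwTw.Strong
import Pool.Agent.CwTw.Pairs

set_option autoImplicit false

/-!
# A strongly ordered pair of classes becomes laminar with nine colours
-/

namespace Pool.Agent.CwTw

/-- Let `V` be finite and linearly ordered. If `R` is strongly ordered between `U` and `W`, then
a refinement with nine colours makes the pair laminar. -/
theorem pairLam_of_strong {V : Type} [Finite V] [LinearOrder V] (R : V → V → Prop)
    (U W : V → Prop)
    (hs : ∀ x x' y y', U x → U x' → W y → W y' → x < x' → y < y' → R x y' → R x' y →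
      R x y ∧ R x' y') : ∃ γ : V → Fin 3 × Fin 3, PairLam R U W γ := by
  let Q : V → V → Prop := fun x y => U x ∧ W y ∧ R x y
  have hQ : StrOrd Q := by
    rintro x x' y y' hx hy ⟨h1, h2, h3⟩ ⟨h4, h5, h6⟩
    obtain ⟨h7, h8⟩ := hs x x' y y' h1 h4 h5 h2 hx hy h3 h6
    exact ⟨⟨h1, h5, h7⟩, ⟨h4, h2, h8⟩⟩
  let γ : V → Fin 3 × Fin 3 := fun x =>
    (⟨dd Q (Sum.inl x) % 3, Nat.mod_lt _ (by norm_num)⟩,
      ⟨dd Q (Sum.inr x) % 3, Nat.mod_lt _ (by norm_num)⟩)
  have hγ1 : ∀ {x x' : V}, γ x = γ x' → dd Q (Sum.inl x) % 3 = dd Q (Sum.inl x') % 3 :=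
    fun h => congrArg (fun p : Fin 3 × Fin 3 => (p.1 : ℕ)) h
  have hγ2 : ∀ {x x' : V}, γ x = γ x' → dd Q (Sum.inr x) % 3 = dd Q (Sum.inr x') % 3 :=
    fun h => congrArg (fun p : Fin 3 × Fin 3 => (p.2 : ℕ)) h
  have hadj : ∀ {x y : V}, Q x y → (bpG Q).Adj (Sum.inl x) (Sum.inr y) :=
    fun {x y} h => Or.inl ⟨x, y, rfl, rfl, h⟩
  have hadj' : ∀ {x y : V}, (bpG Q).Adj (Sum.inl x) (Sum.inr y) → Q x y := by
    rintro x y (⟨x1, y1, h1, h2, h3⟩ | ⟨x1, y1, h1, h2, h3⟩)
    · rw [Sum.inl.inj h1, Sum.inr.inj h2]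
      exact h3
    · cases h1
  refine ⟨γ, ?_⟩
  intro x x' y z w ux ux' wy wz ww gx gz gw r1 r2 r3 r4 r5
  have a1 := hadj (show Q x y from ⟨ux, wy, r1⟩)
  have a2 := hadj (show Q x' y from ⟨ux', wy, r2⟩)
  have a3 := hadj (show Q x z from ⟨ux, wz, r3⟩)
  have a5 := hadj (show Q x' w from ⟨ux', ww, r5⟩)
  have gx1 := hγ1 gx
  have gz2 := hγ2 gz
  have gw2 := hγ2 gw
  have hzn : ¬ Q x' z := fun h => r4 h.2.2
  rcases dd_adj a1 with d1 | d1
  · -- the layers of `W` are further away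
    have d2 : dd Q (Sum.inr y) = dd Q (Sum.inl x') + 1 := by
      rcases dd_adj a2 with h | h
      · exact h
      · omega
    have d3 : dd Q (Sum.inr z) = dd Q (Sum.inl x) + 1 := by
      rcases dd_adj a3 with h | h
      · exact h
      · omega
    have d5 : dd Q (Sum.inr w) = dd Q (Sum.inl x') + 1 := by
      rcases dd_adj a5 with h | h
      · exact h
      · omega
    have hxx : dd Q (Sum.inl x) = dd Q (Sum.inl x') := by omega
    have hre : (bpG Q).Reachable (Sum.inl x) (Sum.inl x') :=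
      a1.reachable.trans a2.symm.reachable
    have hne : (Sum.inl x : V ⊕ V) ≠ Sum.inl x' := by
      intro h
      exact hzn ⟨ux', wz, by rw [← Sum.inl.inj h]; exact r3⟩
    rcases sLt_tri (u := Sum.inl x) (v := Sum.inl x') rfl hne with h | h
    · exfalso
      have h1 := prv_up hQ (v := Sum.inr z) (u := Sum.inl x) (u' := Sum.inl x') ⟨a3, d3⟩ h
        hxx.symm hre
      exact hzn (hadj' h1.1)
    · have h1 := prv_up hQ (v := Sum.inr w) (u := Sum.inl x') (u' := Sum.inl x) ⟨a5, d5⟩ h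
        hxx hre.symm
      exact (hadj' h1.1).2.2
  · -- the layers of `U` are further away
    have d2 : dd Q (Sum.inl x') = dd Q (Sum.inr y) + 1 := by
      rcases dd_adj a2 with h | h
      · omega
      · exact h
    have d3 : dd Q (Sum.inl x) = dd Q (Sum.inr z) + 1 := by
      rcases dd_adj a3 with h | h
      · omega
      · exact h
    have d5 : dd Q (Sum.inl x') = dd Q (Sum.inr w) + 1 := by
      rcases dd_adj a5 with h | h
      · omega
      · exact h
    rcases prv_lam hQ (Sum.inl x) (Sum.inl x') with h | h | h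
    · exact absurd ⟨a2.symm, d2⟩ (Set.disjoint_left.1 h
        (show (Sum.inr y : V ⊕ V) ∈ prv Q (Sum.inl x) from ⟨a1.symm, d1⟩))
    · exact absurd (hadj' (h ⟨a3.symm, d3⟩).1.symm) hzn
    · exact (hadj' (h ⟨a5.symm, d5⟩).1.symm).2.2

end Pool.Agent.CwTw
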