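import Pool.Agent.CwTw.Expr

set_option autoImplicit false

/-!
# Substitution and cliquewidth: it is enough to look at the prime graphs
-/

namespace Pool.Agent.CwTw

open Finset Classical

variable {L : Type}

/-- A module of the graph `G`: a set of vertices which no vertex outside distinguishes. -/
def GModule {V : Type} (G : SimpleGraph V) (M : Set V) : Prop :=
  ∀ x ∈ M, ∀ y ∈ M, ∀ z, z ∉ M → (G.Adj x z ↔ G.Adj y z)

/-- A graph is prime if all its modules are trivial: they have at most one vertex, or they are
the set of all vertices. -/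
def GPrime {V : Type} (G : SimpleGraph V) : Prop :=
  ∀ M : Set V, GModule G M → M.Subsingleton ∨ M = Set.univ

/-- All labels may be changed into the label `i`. -/
lemma Cw.const [Fintype L] {V : Type} {G : SimpleGraph V} {l : V → L} (h : Cw L V G l) (i : L) :
    Cw L V G (fun _ => i) := by
  have key : ∀ S : Finset L, Cw L V G (fun v => if l v ∈ S then i else l v) := by
    intro S
    induction S using Finset.induction_on with
    | empty => simpa using h
    | insert a S ha ih =>
      refine Cw.relabel a i ih ?_ ?_
      · intro v hv
        by_cases h1 : l v ∈ S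
        · rw [if_pos (Finset.mem_insert_of_mem h1)]
        · rw [if_neg h1] at hv
          rw [if_pos (by rw [hv]; exact Finset.mem_insert_self _ _)]
      · intro v hv
        by_cases h1 : l v ∈ S
        · rw [if_pos (Finset.mem_insert_of_mem h1), if_pos h1]
        · rw [if_neg h1] at hv
          rw [if_neg h1, if_neg]
          intro h2
          rcases Finset.mem_insert.1 h2 with h3 | h3
          · exact hv h3
          · exact h1 h3
  simpa using key Finset.univ

/-- Substitution: if the graph `G` on `X` is obtained from the graph `H` on `W` by replacing the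
vertices `w` by the graphs induced on the fibres of `p : X → W`, and all these can be built with
the labels `L`, then so can `G`. -/
lemma Cw.subst [Fintype L] {W : Type} {H : SimpleGraph W} {l : W → L} (h : Cw L W H l) :
    ∀ (X : Type) (G : SimpleGraph X) (p : X → W),
      (∀ x y, p x ≠ p y → (G.Adj x y ↔ H.Adj (p x) (p y))) →
      (∀ w, ∃ m : {x // p x = w} → L, Cw L {x // p x = w} (G.comap Subtype.val) m) →
      Cw L X G (l ∘ p) := by
  induction h with
  | single i =>
    intro X G p hp hf
    obtain ⟨m, hm⟩ := hf ()
    let e : G.comap (Subtype.val : {x // p x = ()} → X) ≃g G :=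
      { toEquiv := Equiv.subtypeUnivEquiv (fun x => rfl)
        map_rel_iff' := Iff.rfl }
    exact (Cw.iso e (hm.const i)).congr rfl (by funext x; rfl)
  | @union A B HA HB lA lB hA hB ihA ihB =>
    intro X G p hp hf
    let XA := {x : X // ∃ a, p x = Sum.inl a}
    let XB := {x : X // ∃ b, p x = Sum.inr b}
    let pA : XA → A := fun x => x.2.choose
    let pB : XB → B := fun x => x.2.choose
    have hpA : ∀ x : XA, p x.1 = Sum.inl (pA x) := fun x => x.2.choose_spec
    have hpB : ∀ x : XB, p x.1 = Sum.inr (pB x) := fun x => x.2.choose_spec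
    have h1 : Cw L XA (G.comap Subtype.val) (lA ∘ pA) := by
      refine ihA XA _ pA ?_ ?_
      · intro x y hxy
        show G.Adj x.1 y.1 ↔ _
        rw [hp x.1 y.1 (by rw [hpA, hpA]; exact fun e => hxy (Sum.inl_injective e)), hpA, hpA]
        exact Iff.rfl
      · intro a
        obtain ⟨m, hm⟩ := hf (Sum.inl a)
        let e : G.comap (Subtype.val : {x // p x = Sum.inl a} → X) ≃g
            (G.comap (Subtype.val : XA → X)).comap (Subtype.val : {x : XA // pA x = a} → XA) :=
          { toFun := fun x => ⟨⟨x.1, a, x.2⟩, by
              have h2 := hpA ⟨x.1, a, x.2⟩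
              exact (Sum.inl_injective (h2.symm.trans x.2))⟩
            invFun := fun x => ⟨x.1.1, by rw [hpA, x.2]⟩
            left_inv := fun x => rfl
            right_inv := fun x => rfl
            map_rel_iff' := Iff.rfl }
        exact ⟨_, Cw.iso e hm⟩
    have h2 : Cw L XB (G.comap Subtype.val) (lB ∘ pB) := by
      refine ihB XB _ pB ?_ ?_
      · intro x y hxy
        show G.Adj x.1 y.1 ↔ _
        rw [hp x.1 y.1 (by rw [hpB, hpB]; exact fun e => hxy (Sum.inr_injective e)), hpB, hpB]
        exact Iff.rfl
      · intro a
        obtain ⟨m, hm⟩ := hf (Sum.inr a)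
        let e : G.comap (Subtype.val : {x // p x = Sum.inr a} → X) ≃g
            (G.comap (Subtype.val : XB → X)).comap (Subtype.val : {x : XB // pB x = a} → XB) :=
          { toFun := fun x => ⟨⟨x.1, a, x.2⟩, by
              have h2 := hpB ⟨x.1, a, x.2⟩
              exact (Sum.inr_injective (h2.symm.trans x.2))⟩
            invFun := fun x => ⟨x.1.1, by rw [hpB, x.2]⟩
            left_inv := fun x => rfl
            right_inv := fun x => rfl
            map_rel_iff' := Iff.rfl }
        exact ⟨_, Cw.iso e hm⟩
    let inv : X → XA ⊕ XB := fun x =>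
      if h : ∃ a, p x = Sum.inl a then Sum.inl ⟨x, h⟩ else
        Sum.inr ⟨x, by
          rcases hx : p x with a | b
          · exact absurd ⟨a, hx⟩ h
          · exact ⟨b, rfl⟩⟩
    let e : ((G.comap (Subtype.val : XA → X)) ⊕g (G.comap (Subtype.val : XB → X))) ≃g G :=
      { toFun := Sum.elim Subtype.val Subtype.val
        invFun := inv
        left_inv := by
          rintro (x | x)
          · exact dif_pos x.2
          · refine dif_neg ?_
            rintro ⟨a, ha⟩
            have h3 := x.2.choose_spec
            rw [Sum.elim_inr, h3] at ha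
            cases ha
        right_inv := by
          intro x
          by_cases hx : ∃ a, p x = Sum.inl a
          · show Sum.elim Subtype.val Subtype.val (inv x) = x
            have : inv x = Sum.inl ⟨x, hx⟩ := dif_pos hx
            rw [this]
            rfl
          · show Sum.elim Subtype.val Subtype.val (inv x) = x
            have : inv x = Sum.inr ⟨x, _⟩ := dif_neg hx
            rw [this]
            rfl
        map_rel_iff' := by
          rintro (x | x) (y | y)
          · exact Iff.rfl
          · show G.Adj x.1 y.1 ↔ _
            rw [hp x.1 y.1 (by rw [hpA, hpB]; exact fun e => by cases e), hpA, hpB]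
            exact Iff.rfl
          · show G.Adj x.1 y.1 ↔ _
            rw [hp x.1 y.1 (by rw [hpA, hpB]; exact fun e => by cases e), hpA, hpB]
            exact Iff.rfl
          · exact Iff.rfl }
    refine (Cw.iso e (Cw.union h1 h2)).congr rfl ?_
    funext x
    obtain ⟨z, rfl⟩ := e.surjective x
    show Sum.elim (lA ∘ pA) (lB ∘ pB) (e.symm (e z)) = Sum.elim lA lB (p (e z))
    rw [RelIso.symm_apply_apply]
    rcases z with z | z
    · show lA (pA z) = Sum.elim lA lB (p z.1)
      rw [hpA]
      rfl
    · show lB (pB z) = Sum.elim lA lB (p z.1)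
      rw [hpB]
      rfl
  | @join W H l i j hij h ih =>
    intro X G p hp hf
    let G0 : SimpleGraph X :=
      { Adj := fun x y => G.Adj x y ∧ (p x = p y ∨ H.Adj (p x) (p y))
        symm := ⟨fun x y hxy => ⟨hxy.1.symm, hxy.2.imp Eq.symm (fun h => h.symm)⟩⟩
        loopless := ⟨fun x hx => G.irrefl hx.1⟩ }
    have h1 : Cw L X G0 (l ∘ p) := by
      refine ih X G0 p ?_ ?_
      · intro x y hxy
        constructor
        · intro h2
          exact h2.2.resolve_left hxy
        · intro h2
          exact ⟨(hp x y hxy).2 (Or.inl h2), Or.inr h2⟩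
      · intro w
        obtain ⟨m, hm⟩ := hf w
        refine ⟨m, hm.congr ?_ rfl⟩
        ext x y
        constructor
        · intro h2
          exact ⟨h2, Or.inl (x.2.trans y.2.symm)⟩
        · intro h2
          exact h2.1
    refine (Cw.join i j hij h1).congr ?_ rfl
    ext x y
    rw [SimpleGraph.sup_adj, SimpleGraph.fromRel_adj]
    constructor
    · rintro (h2 | ⟨hne, h2⟩)
      · exact h2.1
      · have hne' : p x ≠ p y := by
          intro he
          rcases h2 with h2 | h2
          · exact hij (h2.1.symm.trans ((congrArg l he).trans h2.2))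
          · exact hij (h2.1.symm.trans ((congrArg l he.symm).trans h2.2))
        refine (hp x y hne').2 (Or.inr ?_)
        rw [SimpleGraph.fromRel_adj]
        exact ⟨hne', h2⟩
    · intro h2
      by_cases he : p x = p y
      · exact Or.inl ⟨h2, Or.inl he⟩
      · rcases (hp x y he).1 h2 with h3 | h3
        · exact Or.inl ⟨h2, Or.inr h3⟩
        · rw [SimpleGraph.fromRel_adj] at h3
          exact Or.inr ⟨h2.ne, h3.2⟩
  | @relabel W H l l' i j h h1 h2 ih =>
    intro X G p hp hf
    exact Cw.relabel i j (ih X G p hp hf) (fun v hv => h1 (p v) hv) (fun v hv => h2 (p v) hv)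
  | @iso W W' H H' l e h ih =>
    intro X G p hp hf
    have h1 := ih X G (e.symm ∘ p) ?_ ?_
    · exact h1.congr rfl rfl
    · intro x y hxy
      have h2 : p x ≠ p y := fun he => hxy (congrArg e.symm he)
      rw [hp x y h2]
      exact (e.symm.map_rel_iff).symm
    · intro w
      obtain ⟨m, hm⟩ := hf (e w)
      let e' : G.comap (Subtype.val : {x // p x = e w} → X) ≃g
          G.comap (Subtype.val : {x // (e.symm ∘ p) x = w} → X) :=
        { toEquiv := Equiv.subtypeEquivRight (fun x => by
            show p x = e w ↔ e.symm (p x) = w
            exact (RelIso.symm_apply_eq e).symm |>.trans (by rfl))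
          map_rel_iff' := Iff.rfl }
      exact ⟨_, Cw.iso e' hm⟩

lemma CwLE.iso {V W : Type} {G : SimpleGraph V} {H : SimpleGraph W} {k : ℕ} (h : CwLE G k)
    (e : G ≃g H) : CwLE H k := by
  rcases h with h | ⟨l, h⟩
  · exact Or.inl (e.toEquiv.symm.isEmpty_congr.2 h)
  · exact Or.inr ⟨_, Cw.iso e h⟩

lemma GPrime.iso {V W : Type} {G : SimpleGraph V} {H : SimpleGraph W} (h : GPrime G)
    (e : G ≃g H) : GPrime H := by
  intro M hM
  have h1 : GModule G (e ⁻¹' M) := by
    intro x hx y hy z hz
    rw [← e.map_adj_iff, ← e.map_adj_iff]
    exact hM _ hx _ hy _ hz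
  rcases h _ h1 with h2 | h2
  · left
    intro x hx y hy
    have h3 : e.symm x = e.symm y := h2 (by simpa using hx) (by simpa using hy)
    exact e.symm.injective h3
  · right
    rw [Set.eq_univ_iff_forall] at h2 ⊢
    intro x
    simpa using h2 (e.symm x)

/-- The cliquewidth of a graph is at most `k` if that of its prime induced subgraphs is. -/
theorem cwLE_of_prime (k : ℕ) : ∀ (N : ℕ) (V : Type) [Fintype V] (G : SimpleGraph V),
    Fintype.card V = N →
    (∀ (n : ℕ) (H : SimpleGraph (Fin n)), Nonempty (H ↪g G) → GPrime H → CwLE H k) →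
    CwLE G k := by
  intro N
  induction N using Nat.strong_induction_on with
  | _ N ih =>
    intro V _ G hN hG
    by_cases hP : GPrime G
    · let e : V ≃ Fin (Fintype.card V) := Fintype.equivFin V
      let i : G.comap e.symm ≃g G :=
        { toEquiv := e.symm
          map_rel_iff' := Iff.rfl }
      exact (hG _ (G.comap e.symm) ⟨i.toEmbedding⟩ (hP.iso i.symm)).iso i
    · unfold GPrime at hP
      push Not at hP
      obtain ⟨M, hM, hM1, hM2⟩ := hP
      obtain ⟨m, hm, m', hm', hmm⟩ := hM1
      have hM3 : ∃ z, z ∉ M := by
        by_contra hcon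
        push Not at hcon
        exact hM2 (Set.eq_univ_iff_forall.2 hcon)
      obtain ⟨z, hz⟩ := hM3
      have hI : ∀ S : Set V, (∃ x, x ∉ S) → CwLE (G.induce S) k := by
        rintro S ⟨x, hx⟩
        have h1 : Fintype.card S < N := by
          rw [← hN]
          exact Fintype.card_subtype_lt hx
        refine ih _ h1 S (G.induce S) rfl ?_
        rintro n H ⟨f⟩ hH
        exact hG n H ⟨f.trans (SimpleGraph.Embedding.induce S)⟩ hH
      have h1 := hI M ⟨z, hz⟩
      have h2 := hI (Mᶜ ∪ {m}) ⟨m', by
        rintro (h3 | h3)
        · exact h3 hm'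
        · exact hmm h3.symm⟩
      rcases h1 with h1 | ⟨l1, h1⟩
      · exact (h1.false ⟨m, hm⟩).elim
      rcases h2 with h2 | ⟨l2, h2⟩
      · exact (h2.false ⟨m, Or.inr rfl⟩).elim
      right
      let p : V → (Mᶜ ∪ {m} : Set V) := fun x =>
        if h : x ∈ M then ⟨m, Or.inr rfl⟩ else ⟨x, Or.inl h⟩
      have hp1 : ∀ x, x ∈ M → (p x).1 = m := by
        intro x hx
        show (dite _ _ _ : (Mᶜ ∪ {m} : Set V)).1 = m
        rw [dif_pos hx]
      have hp2 : ∀ x, x ∉ M → (p x).1 = x := by
        intro x hx
        show (dite _ _ _ : (Mᶜ ∪ {m} : Set V)).1 = x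
        rw [dif_neg hx]
      refine ⟨_, Cw.subst h2 V G p ?_ ?_⟩
      · intro x y hxy
        show G.Adj x y ↔ G.Adj (p x).1 (p y).1
        by_cases hx : x ∈ M
        · by_cases hy : y ∈ M
          · exact absurd (Subtype.ext ((hp1 x hx).trans (hp1 y hy).symm)) hxy
          · rw [hp1 x hx, hp2 y hy]
            exact hM x hx m hm y hy
        · by_cases hy : y ∈ M
          · rw [hp2 x hx, hp1 y hy, G.adj_comm x y, G.adj_comm x m]
            exact hM y hy m hm x hx
          · rw [hp2 x hx, hp2 y hy]
      · intro w
        by_cases hw : w.1 = m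
        · let e : G.induce M ≃g G.comap (Subtype.val : {x // p x = w} → V) :=
            { toFun := fun x => ⟨x.1, Subtype.ext ((hp1 x.1 x.2).trans hw.symm)⟩
              invFun := fun x => ⟨x.1, by
                by_contra hcon
                have h3 := hp2 x.1 hcon
                rw [x.2, hw] at h3
                exact hcon (h3 ▸ hm)⟩
              left_inv := fun x => rfl
              right_inv := fun x => rfl
              map_rel_iff' := Iff.rfl }
          exact ⟨_, Cw.iso e h1⟩
        · have hwM : w.1 ∉ M := by
            rcases w.2 with h3 | h3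
            · exact h3
            · exact absurd h3 hw
          have hpw : ∀ x, p x = w → x = w.1 := by
            intro x hx
            by_cases hxM : x ∈ M
            · have h3 := hp1 x hxM
              rw [hx] at h3
              exact absurd h3 hw
            · have h3 := hp2 x hxM
              rw [hx] at h3
              exact h3.symm
          let e : (⊥ : SimpleGraph Unit) ≃g G.comap (Subtype.val : {x // p x = w} → V) :=
            { toFun := fun _ => ⟨w.1, Subtype.ext (hp2 w.1 hwM)⟩
              invFun := fun _ => ()
              left_inv := fun x => rfl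
              right_inv := fun x => Subtype.ext (hpw x.1 x.2).symm
              map_rel_iff' := by
                intro a b
                constructor
                · intro h3
                  exact absurd h3 (G.irrefl)
                · intro h3
                  exact absurd h3 (by simp) }
          exact ⟨_, Cw.iso e (Cw.single (l2 w))⟩

/-- For a hereditary class, it is enough to consider its prime members. -/
theorem dichotomy_of_prime {T : Transduction} {s : ℕ} {C : GraphClass} (hC : Hereditary C)
    (h : Dichotomy T s fun n => {G | G ∈ C n ∧ GPrime G}) : Dichotomy T s C := by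
  rcases h with ⟨k, hk⟩ | ⟨D, h1, h2, h3, h4⟩
  · left
    refine ⟨k, fun n G hG => cwLE_of_prime k _ (Fin n) G rfl ?_⟩
    intro m H hH hP
    exact hk m H ⟨hC n m G H hG hH, hP⟩
  · right
    refine ⟨D, h1, h2, h3, fun n H hH => ?_⟩
    obtain ⟨n', G, hG, hm⟩ := h4 n H hH
    exact ⟨n', G, hG.1, hm⟩

end Pool.Agent.CwTw
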